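import Mathlib

/-!
A swap identity for the hard-core model and the Caro Wei type bound under a local degree condition.
-/

set_option autoImplicit false

namespace Pool.Agent.H434Z.HC

open Classical Finset

variable {V : Type} [Fintype V] (G : SimpleGraph V) (t : ℝ)

noncomputable def Ind : Finset (Finset V) :=
  (Finset.univ : Finset (Finset V)).filter (fun I : Finset V => G.IsIndepSet (↑I : Set V))

theorem mem_Ind {I : Finset V} : I ∈ Ind G ↔ ∀ x ∈ I, ∀ y ∈ I, ¬ G.Adj x y := by
  simp only [Ind, mem_filter, mem_univ, true_and, SimpleGraph.IsIndepSet, Set.Pairwise, mem_coe]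
  refine ⟨fun h x hx y hy e => h hx hy e.ne e, fun h x hx y hy _ => h x hx y hy⟩

theorem free_eq (v : V) :
    ∑ I ∈ (Ind G).filter (fun I => v ∉ I ∧ ∀ x ∈ I, ¬ G.Adj v x), t * t ^ I.card =
      ∑ I ∈ (Ind G).filter (fun I => v ∈ I), t ^ I.card := by
  refine Finset.sum_nbij' (fun I => insert v I) (fun I => I.erase v) ?_ ?_ ?_ ?_ ?_
  · intro I hI
    simp only [mem_filter, mem_Ind] at hI ⊢
    obtain ⟨h1, -, h3⟩ := hI
    refine ⟨fun x hx y hy => ?_, mem_insert_self _ _⟩
    rcases mem_insert.1 hx with rfl | hx' <;> rcases mem_insert.1 hy with rfl | hy'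
    · exact G.irrefl
    · exact h3 y hy'
    · exact fun e => h3 x hx' e.symm
    · exact h1 x hx' y hy'
  · intro I hI
    simp only [mem_filter, mem_Ind] at hI ⊢
    exact ⟨fun x hx y hy => hI.1 x (mem_of_mem_erase hx) y (mem_of_mem_erase hy),
      notMem_erase _ _, fun x hx => hI.1 v hI.2 x (mem_of_mem_erase hx)⟩
  · intro I hI
    simp only [mem_filter] at hI
    exact erase_insert hI.2.1
  · intro I hI
    simp only [mem_filter] at hI
    exact insert_erase hI.2
  · intro I hI
    simp only [mem_filter] at hI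
    rw [card_insert_of_notMem hI.2.1, pow_succ, mul_comm]

noncomputable def B (u w : V) : ℝ :=
  ∑ I ∈ (Ind G).filter (fun I => u ∈ I ∧ ∀ x ∈ I, G.Adj w x → x = u), t ^ I.card

theorem swap_mem {u w : V} (h : G.Adj u w) {I : Finset V}
    (hI : I ∈ (Ind G).filter (fun I => u ∈ I ∧ ∀ x ∈ I, G.Adj w x → x = u)) :
    insert w (I.erase u) ∈ (Ind G).filter (fun I => w ∈ I ∧ ∀ x ∈ I, G.Adj u x → x = w) ∧
      w ∉ I.erase u ∧ u ∈ I := by
  simp only [mem_filter, mem_Ind] at hI ⊢
  obtain ⟨h1, h2, h3⟩ := hI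
  have k : ∀ y ∈ I.erase u, ¬ G.Adj w y := fun y hy e =>
    (mem_erase.1 hy).1 (h3 y (mem_of_mem_erase hy) e)
  refine ⟨⟨fun x hx y hy => ?_, mem_insert_self _ _, fun x hx e => ?_⟩,
    fun hw => h1 u h2 w (mem_of_mem_erase hw) h, h2⟩
  · rcases mem_insert.1 hx with rfl | hx' <;> rcases mem_insert.1 hy with rfl | hy'
    · exact G.irrefl
    · exact k y hy'
    · exact fun e => k x hx' e.symm
    · exact h1 x (mem_of_mem_erase hx') y (mem_of_mem_erase hy')
  · rcases mem_insert.1 hx with rfl | hx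
    · rfl
    · exact (h1 u h2 x (mem_of_mem_erase hx) e).elim

theorem B_symm {u w : V} (h : G.Adj u w) : B G t u w = B G t w u := by
  refine Finset.sum_nbij' (fun I => insert w (I.erase u)) (fun I => insert u (I.erase w))
    (fun I hI => (swap_mem G h hI).1) (fun I hI => (swap_mem G h.symm hI).1) ?_ ?_ ?_
  · intro I hI
    obtain ⟨-, h2, h3⟩ := swap_mem G h hI
    show insert u ((insert w (I.erase u)).erase w) = I
    rw [erase_insert h2, insert_erase h3]
  · intro I hI
    obtain ⟨-, h2, h3⟩ := swap_mem G h.symm hI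
    show insert w ((insert u (I.erase w)).erase u) = I
    rw [erase_insert h2, insert_erase h3]
  · intro I hI
    obtain ⟨-, h2, h3⟩ := swap_mem G h hI
    rw [card_insert_of_notMem h2, card_erase_add_one h3]

theorem pointwise (c : V → ℝ) (hc : ∀ v, 0 ≤ c v)
    (H : ∀ w u u', G.Adj w u → G.Adj w u' → u ≠ u' → ¬ G.Adj u u' → c w ≤ c u + c u')
    {I : Finset V} (hI : I ∈ Ind G) (w : V) :
    c w ≤ (if w ∉ I ∧ ∀ x ∈ I, ¬ G.Adj w x then c w else 0) + (if w ∈ I then c w else 0) +
      ∑ u ∈ G.neighborFinset w, ((if u ∈ I then c u else 0) +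
        if u ∈ I ∧ ∀ x ∈ I, G.Adj w x → x = u then c w - c u else 0) := by
  rw [mem_Ind] at hI
  have nn : ∀ u, 0 ≤ (if u ∈ I then c u else 0) +
      if u ∈ I ∧ ∀ x ∈ I, G.Adj w x → x = u then c w - c u else 0 := by
    intro u
    by_cases h1 : u ∈ I
    · rw [if_pos h1]
      split_ifs
      · linarith [hc w]
      · linarith [hc u]
    · simp [h1]
  have n1 : 0 ≤ (if w ∉ I ∧ ∀ x ∈ I, ¬ G.Adj w x then c w else 0) := by
    split_ifs
    exacts [hc w, le_rfl]
  have n2 : 0 ≤ (if w ∈ I then c w else 0) := by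
    split_ifs
    exacts [hc w, le_rfl]
  have n3 := Finset.sum_nonneg (s := G.neighborFinset w) fun u _ => nn u
  by_cases hw : w ∈ I
  · rw [if_pos hw]; linarith
  by_cases hf : ∀ x ∈ I, ¬ G.Adj w x
  · rw [if_pos ⟨hw, hf⟩]; linarith
  push Not at hf
  obtain ⟨u, hu, hwu⟩ := hf
  have hun : u ∈ G.neighborFinset w := by simpa using hwu
  by_cases hs : ∀ x ∈ I, G.Adj w x → x = u
  · have := Finset.single_le_sum (s := G.neighborFinset w) (fun u _ => nn u) hun
    rw [if_pos hu, if_pos ⟨hu, hs⟩] at this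
    linarith
  · push Not at hs
    obtain ⟨u', hu', hwu', hne⟩ := hs
    have hun' : u' ∈ G.neighborFinset w := by simpa using hwu'
    have := Finset.sum_le_sum_of_subset_of_nonneg (s := {u, u'}) (t := G.neighborFinset w)
      (by intro x hx; rcases mem_insert.1 hx with rfl | hx
          · exact hun
          · rw [mem_singleton.1 hx]; exact hun') (fun u _ _ => nn u)
    rw [Finset.sum_pair hne.symm, if_pos hu, if_pos hu', if_neg (fun h => hne (h.2 u' hu' hwu')),
      if_neg (fun h => hne (h.2 u hu hwu).symm)] at this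
    have := H w u u' hwu hwu' hne.symm (hI u hu u' hu')
    linarith

theorem main (ht : 0 < t)
    (H : ∀ w u u', G.Adj w u → G.Adj w u' → u ≠ u' → ¬ G.Adj u u' →
      1 / (1 + ((G.degree w : ℝ) + 1) * t) ≤
        1 / (1 + ((G.degree u : ℝ) + 1) * t) + 1 / (1 + ((G.degree u' : ℝ) + 1) * t)) :
    (∑ v : V, t / (1 + ((G.degree v : ℝ) + 1) * t)) ≤
      (∑ I ∈ Ind G, ((Finset.card I : ℕ) : ℝ) * t ^ (Finset.card I)) /
        (∑ I ∈ Ind G, t ^ (Finset.card I)) := by
  have hZ : 0 < ∑ I ∈ Ind G, t ^ (Finset.card I) :=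
    Finset.sum_pos (fun _ _ => pow_pos ht _) ⟨∅, by simp [mem_Ind]⟩
  rw [le_div_iff₀ hZ]
  set c : V → ℝ := fun v => 1 / (1 + ((G.degree v : ℝ) + 1) * t) with hcd
  have hD : ∀ v, 0 < 1 + ((G.degree v : ℝ) + 1) * t := fun v => by positivity
  have hc : ∀ v, 0 ≤ c v := fun v => (one_div_pos.2 (hD v)).le
  let P : V → ℝ := fun v => ∑ I ∈ (Ind G).filter (fun I => v ∈ I), t ^ I.card
  have hM : ∑ I ∈ Ind G, ((Finset.card I : ℕ) : ℝ) * t ^ (Finset.card I) = ∑ v, P v := by
    simp only [P, Finset.sum_filter]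
    rw [Finset.sum_comm]
    refine Finset.sum_congr rfl fun I _ => ?_
    rw [← Finset.sum_filter]
    simp
  have step : ∀ w, t / (1 + ((G.degree w : ℝ) + 1) * t) * ∑ I ∈ Ind G, t ^ (Finset.card I) ≤
      c w * P w + t * (c w * P w) + ∑ u ∈ G.neighborFinset w, t * (c u * P u) +
        ∑ u ∈ G.neighborFinset w, t * ((c w - c u) * B G t u w) := by
    intro w
    have e1 : c w * P w = ∑ I ∈ Ind G, t * t ^ I.card *
        (if w ∉ I ∧ ∀ x ∈ I, ¬ G.Adj w x then c w else 0) := by
      simp only [P]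
      rw [← free_eq, Finset.sum_filter, Finset.mul_sum]
      refine Finset.sum_congr rfl fun I _ => ?_
      split_ifs <;> ring
    have e2 : ∀ u, t * (c u * P u) = ∑ I ∈ Ind G, t * t ^ I.card * (if u ∈ I then c u else 0) := by
      intro u
      simp only [P]
      rw [Finset.sum_filter, Finset.mul_sum, Finset.mul_sum]
      refine Finset.sum_congr rfl fun I _ => ?_
      split_ifs <;> ring
    have e3 : ∀ u, t * ((c w - c u) * B G t u w) = ∑ I ∈ Ind G, t * t ^ I.card *
        (if u ∈ I ∧ ∀ x ∈ I, G.Adj w x → x = u then c w - c u else 0) := by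
      intro u
      rw [B, Finset.sum_filter, Finset.mul_sum, Finset.mul_sum]
      refine Finset.sum_congr rfl fun I _ => ?_
      split_ifs <;> ring
    rw [e2 w, e1, add_assoc, ← Finset.sum_add_distrib (s := G.neighborFinset w)]
    simp only [e2, e3, ← Finset.sum_add_distrib]
    rw [Finset.sum_comm, ← Finset.sum_add_distrib, Finset.mul_sum]
    refine Finset.sum_le_sum fun I hI => ?_
    have := mul_le_mul_of_nonneg_left (pointwise G c hc H hI w)
      (mul_pos ht (pow_pos ht I.card)).le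
    rw [mul_add, mul_add, Finset.mul_sum] at this
    simp only [mul_add] at this
    refine le_trans (le_of_eq ?_) this
    simp only [c]
    ring
  have swap : ∀ F : V → V → ℝ, ∑ w, ∑ u ∈ G.neighborFinset w, F u w =
      ∑ u, ∑ w ∈ G.neighborFinset u, F u w := by
    intro F
    refine Finset.sum_comm' ?_
    intro x y
    simp [G.adj_comm]
  have z : ∑ w, ∑ u ∈ G.neighborFinset w, t * ((c w - c u) * B G t u w) = 0 := by
    have h1 := swap fun u w => t * ((c w - c u) * B G t u w)
    have h2 : ∑ u, ∑ w ∈ G.neighborFinset u, t * ((c w - c u) * B G t u w) =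
        -∑ w, ∑ u ∈ G.neighborFinset w, t * ((c w - c u) * B G t u w) := by
      rw [← Finset.sum_neg_distrib]
      refine Finset.sum_congr rfl fun u _ => ?_
      rw [← Finset.sum_neg_distrib]
      refine Finset.sum_congr rfl fun w hw => ?_
      rw [B_symm G t (by simpa using hw : G.Adj u w)]
      ring
    linarith
  rw [Finset.sum_mul, hM]
  refine (Finset.sum_le_sum fun w _ => step w).trans (le_of_eq ?_)
  rw [Finset.sum_add_distrib, z, add_zero, Finset.sum_add_distrib,
    swap fun u _ => t * (c u * P u), ← Finset.sum_add_distrib]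
  refine Finset.sum_congr rfl fun v _ => ?_
  rw [Finset.sum_const, SimpleGraph.card_neighborFinset_eq_degree, nsmul_eq_mul]
  have := hD v
  simp only [c]
  field_simp
  ring

theorem local_of_deg (ht : 0 < t) (Δ : ℕ) (hΔ : ∀ v, G.degree v ≤ Δ) (h : ((Δ : ℝ) - 5) * t ≤ 1) :
    ∀ w u u', G.Adj w u → G.Adj w u' → u ≠ u' → ¬ G.Adj u u' →
      1 / (1 + ((G.degree w : ℝ) + 1) * t) ≤
        1 / (1 + ((G.degree u : ℝ) + 1) * t) + 1 / (1 + ((G.degree u' : ℝ) + 1) * t) := by
  intro w u u' h1 h2 hne _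
  have hw : 2 ≤ G.degree w := by
    rw [← SimpleGraph.card_neighborFinset_eq_degree]
    exact Finset.one_lt_card.2 ⟨u, by simpa using h1, u', by simpa using h2, hne⟩
  have hw' : (2 : ℝ) ≤ G.degree w := by exact_mod_cast hw
  have k : ∀ v, 1 / (2 * (1 + ((G.degree w : ℝ) + 1) * t)) ≤
      1 / (1 + ((G.degree v : ℝ) + 1) * t) := by
    intro v
    have hv : (G.degree v : ℝ) ≤ Δ := by exact_mod_cast hΔ v
    refine one_div_le_one_div_of_le (by positivity) ?_
    nlinarith
  have e : 1 / (1 + ((G.degree w : ℝ) + 1) * t) = 1 / (2 * (1 + ((G.degree w : ℝ) + 1) * t)) +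
      1 / (2 * (1 + ((G.degree w : ℝ) + 1) * t)) := by
    field_simp
    ring
  rw [e]
  exact add_le_add (k u) (k u')

end Pool.Agent.H434Z.HC
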