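import Mathlib

/-!
Bergman spaces of domains in `ℂⁿ` and Hilbert-Schmidt Hankel operators.
-/

set_option autoImplicit false

open MeasureTheory

namespace Pool.Agent.H434Z.Hankel

variable {n : ℕ}

/-- `Ω` is invariant under rotations of each coordinate. -/
def IsReinhardt (Ω : Set (Fin n → ℂ)) : Prop :=
  ∀ z ∈ Ω, ∀ θ : Fin n → ℝ, (fun j => Complex.exp (θ j * Complex.I) * z j) ∈ Ω

/-- Lebesgue measure on `Ω`. -/
noncomputable def leb (Ω : Set (Fin n → ℂ)) : Measure (Fin n → ℂ) := volume.restrict Ω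

/-- The space `L²(Ω)`. -/
abbrev L2 (Ω : Set (Fin n → ℂ)) : Type := Lp ℂ 2 (leb Ω)

/-- The function (defined almost everywhere) represented by an element of `L²(Ω)`. -/
noncomputable def fn {Ω : Set (Fin n → ℂ)} (g : L2 Ω) : (Fin n → ℂ) → ℂ := g

/-- The Bergman space `A²(Ω)`: the elements of `L²(Ω)` represented by a holomorphic function. -/
noncomputable def Bergman (Ω : Set (Fin n → ℂ)) : Submodule ℂ (L2 Ω) where
  carrier := {g | ∃ h : (Fin n → ℂ) → ℂ, DifferentiableOn ℂ h Ω ∧ fn g =ᵐ[leb Ω] h}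
  add_mem' := by
    rintro a b ⟨h, h1, h2⟩ ⟨k, k1, k2⟩
    exact ⟨h + k, h1.add k1, (Lp.coeFn_add a b).trans (h2.add k2)⟩
  zero_mem' := ⟨0, differentiableOn_const 0, Lp.coeFn_zero _ _ _⟩
  smul_mem' := by
    rintro c a ⟨h, h1, h2⟩
    exact ⟨c • h, h1.const_smul c, (Lp.coeFn_smul c a).trans (h2.const_smul c)⟩

/-- The Bergman space as a type. -/
abbrev A2 (Ω : Set (Fin n → ℂ)) : Type := Bergman Ω

/-- The inclusion of `A²(Ω)` in `L²(Ω)`. -/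
def incl {Ω : Set (Fin n → ℂ)} (g : A2 Ω) : L2 Ω := g.1

/-- The domain of the Hankel operator with symbol `φ`: the `g ∈ A²(Ω)` with `φ g ∈ L²(Ω)`. -/
def hankelDom (Ω : Set (Fin n → ℂ)) (φ : (Fin n → ℂ) → ℂ) : Set (A2 Ω) :=
  {g | MemLp (fun z => φ z * fn (incl g) z) 2 (leb Ω)}

/-- `u = (I - P) w`, where `P` is the orthogonal projection of `L²(Ω)` onto `A²(Ω)`:
`w - u ∈ A²(Ω)` and `u` is orthogonal to `A²(Ω)`. -/
def IsCoproj {Ω : Set (Fin n → ℂ)} (w u : L2 Ω) : Prop :=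
  w - u ∈ Bergman Ω ∧ u ∈ (Bergman Ω).orthogonal

/-- `u = H_φ g = (I - P) (φ g)`. -/
def IsHankelValue {Ω : Set (Fin n → ℂ)} (φ : (Fin n → ℂ) → ℂ) (g : A2 Ω) (u : L2 Ω) : Prop :=
  ∃ w : L2 Ω, fn w =ᵐ[leb Ω] (fun z => φ z * fn (incl g) z) ∧ IsCoproj w u

/-- Bounded linear operators `A²(Ω) → L²(Ω)`. -/
abbrev Op (Ω : Set (Fin n → ℂ)) : Type := A2 Ω →L[ℂ] L2 Ω

/-- The value of an operator. -/
noncomputable def app {Ω : Set (Fin n → ℂ)} (T : Op Ω) (g : A2 Ω) : L2 Ω := T g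

/-- Orthonormal bases of `A²(Ω)` indexed by `ι`. -/
abbrev ONB (Ω : Set (Fin n → ℂ)) (ι : Type) : Type := HilbertBasis ι ℂ (A2 Ω)

/-- The `k`-th vector of an orthonormal basis. -/
noncomputable def vec {Ω : Set (Fin n → ℂ)} {ι : Type} (b : ONB Ω ι) (k : ι) : A2 Ω := b k

/-- `T` is Hilbert-Schmidt: `∑ ‖T e_k‖² < ∞` for an orthonormal basis `(e_k)` of `A²(Ω)`. -/
def IsHS {Ω : Set (Fin n → ℂ)} (T : Op Ω) : Prop :=
  ∃ (ι : Type) (b : ONB Ω ι), Summable fun k => ‖app T (vec b k)‖ ^ 2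

/-- The Hankel operator `H_φ` is densely defined and `T` is a Hilbert-Schmidt extension of it. -/
def IsHSHankel {Ω : Set (Fin n → ℂ)} (φ : (Fin n → ℂ) → ℂ) (T : Op Ω) : Prop :=
  Dense (hankelDom Ω φ) ∧ (∀ g ∈ hankelDom Ω φ, IsHankelValue φ g (app T g)) ∧ IsHS T

end Pool.Agent.H434Z.Hankel
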