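import Pool.Agent.H434Z.HankelTorus

set_option autoImplicit false

open MeasureTheory Filter Topology Set Function
open scoped ComplexConjugate InnerProductSpace

namespace Pool.Agent.H434Z.Hankel

variable {n : ℕ}

theorem mp_act (t : Tn n) : MeasurePreserving (act t) volume volume :=
  measurePreserving_pi (fun _ : Fin n => (volume : Measure ℂ)) (fun _ => volume)
    (f := fun j w => fourier 1 (t j) * w)
    fun j => (rotation (AddCircle.toCircle ((1 : ℤ) • t j))).measurePreserving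

def Inv (S : Set (Fin n → ℂ)) : Prop := ∀ (t : Tn n) z, act t z ∈ S ↔ z ∈ S

theorem mp_act_restrict {S : Set (Fin n → ℂ)} (hm : MeasurableSet S) (hS : Inv S) (t : Tn n) :
    MeasurePreserving (act t) (volume.restrict S) (volume.restrict S) := by
  have h := (mp_act t).restrict_preimage hm
  have e : act t ⁻¹' S = S := Set.ext fun z => hS t z
  rwa [e] at h

theorem mp_prod {S : Set (Fin n → ℂ)} (hm : MeasurableSet S) (hS : Inv S) :
    MeasurePreserving (fun p : Tn n × (Fin n → ℂ) => act p.1 p.2)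
      ((nu n).prod (volume.restrict S)) (volume.restrict S) := by
  have h1 := MeasurePreserving.skew_product (μc := volume.restrict S) (μd := volume.restrict S)
    (MeasurePreserving.id (nu n)) (g := act) continuous_act.measurable
    (Eventually.of_forall fun t => (mp_act_restrict hm hS t).map_eq)
  exact (measurePreserving_snd (μ := nu n) (ν := volume.restrict S)).comp h1

theorem integral_avg {S : Set (Fin n → ℂ)} (hm : MeasurableSet S) (hS : Inv S)
    {F : (Fin n → ℂ) → ℂ} (hF : IntegrableOn F S) : ∫ z in S, F z = ∫ z in S, Avg F z := by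
  have h := mp_prod hm hS
  have h1 : ∫ z in S, F z = ∫ p : Tn n × (Fin n → ℂ), F (act p.1 p.2)
      ∂(nu n).prod (volume.restrict S) := by
    conv_lhs => rw [← h.map_eq]
    exact integral_map h.measurable.aemeasurable (by rw [h.map_eq]; exact hF.aestronglyMeasurable)
  rw [h1]
  exact integral_prod_symm _ (h.integrable_comp_of_integrable hF)

theorem ae_star : ∀ᵐ z : Fin n → ℂ, Star z :=
  ae_all_iff.2 fun j => Measure.ae_eval_ne (fun _ : Fin n => (volume : Measure ℂ)) j 0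

theorem setIntegral_cf {Ω S : Set (Fin n → ℂ)} (hm : MeasurableSet S) (hS : Inv S) (hsub : S ⊆ Ω)
    {h : (Fin n → ℂ) → ℂ} {β : Fin n → ℤ} {c : ℂ} (hc : ∀ z ∈ Ω, Star z → cf h β z = c)
    {G : (Fin n → ℂ) → ℝ} (hG : ∀ t z, G (act t z) = G z)
    (hi : IntegrableOn (fun z => h z * mono (-β) z * G z) S) :
    ∫ z in S, h z * mono (-β) z * G z = c * ((∫ z in S, G z : ℝ) : ℂ) := by
  rw [integral_avg hm hS hi, ← integral_complex_ofReal, ← integral_const_mul]
  refine setIntegral_congr_ae hm ?_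
  filter_upwards [ae_star] with z hz hzS
  rw [← hc z (hsub hzS) hz, cf, Avg, Avg, ← integral_mul_const]
  simp only [hG]

/-- compact invariant sets away from the axes -/
structure Good (Ω K : Set (Fin n → ℂ)) : Prop where
  cpt : IsCompact K
  sub : K ⊆ Ω
  star : ∀ z ∈ K, Star z
  inv : Inv K

section Ind

variable {Ω K : Set (Fin n → ℂ)}

theorem Good.restrict (hK : Good Ω K) : (leb Ω).restrict K = volume.restrict K :=
  Measure.restrict_restrict_of_subset hK.sub

theorem Good.memLp (hK : Good Ω K) {F : (Fin n → ℂ) → ℂ} (hF : ContinuousOn F K) :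
    MemLp (K.indicator F) 2 (leb Ω) := by
  rw [memLp_indicator_iff_restrict hK.cpt.measurableSet, hK.restrict]
  obtain ⟨C, hC⟩ := hK.cpt.exists_bound_of_continuousOn hF
  have : IsFiniteMeasure ((volume : Measure (Fin n → ℂ)).restrict K) :=
    ⟨by rw [Measure.restrict_apply_univ]; exact hK.cpt.measure_lt_top⟩
  exact MemLp.of_bound (hF.aestronglyMeasurable hK.cpt.measurableSet) C
    (ae_restrict_of_forall_mem hK.cpt.measurableSet hC)

noncomputable def Good.ind (hK : Good Ω K) {F : (Fin n → ℂ) → ℂ} (hF : ContinuousOn F K) : L2 Ω :=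
  (hK.memLp hF).toLp _

theorem Good.inner_ind (hK : Good Ω K) {F : (Fin n → ℂ) → ℂ} (hF : ContinuousOn F K) (u : L2 Ω)
    {h : (Fin n → ℂ) → ℂ} (hu : fn u =ᵐ[leb Ω] h) :
    ⟪hK.ind hF, u⟫_ℂ = ∫ z in K, conj (F z) * h z := by
  rw [L2.inner_def, ← hK.restrict, ← integral_indicator hK.cpt.measurableSet]
  refine integral_congr_ae ?_
  filter_upwards [(hK.memLp hF).coeFn_toLp, hu] with z h1 h2
  have h3 : (hK.ind hF) z = K.indicator F z := h1
  have h4 : u z = h z := h2
  rw [h3, h4]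
  by_cases hz : z ∈ K
  · simp [hz, mul_comm]
  · simp [hz]

theorem Good.norm_ind (hK : Good Ω K) {F : (Fin n → ℂ) → ℂ} (hF : ContinuousOn F K) :
    ‖hK.ind hF‖ ^ 2 = ∫ z in K, ‖F z‖ ^ 2 := by
  have h := hK.inner_ind hF (hK.ind hF) (hK.memLp hF).coeFn_toLp
  rw [inner_self_eq_norm_sq_to_K, setIntegral_congr_fun hK.cpt.measurableSet
    (g := fun z => ((‖F z‖ ^ 2 : ℝ) : ℂ)), integral_complex_ofReal] at h
  · exact Complex.ofReal_injective (by rw [← h]; push_cast; rfl)
  · intro z hz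
    simp only [indicator_of_mem hz]
    rw [Complex.conj_mul']
    push_cast
    rfl

theorem cs_aux {H : Type} [NormedAddCommGroup H] [InnerProductSpace ℂ H] (ψ u : H) (c : ℂ) (X : ℝ)
    (h1 : ‖ψ‖ ^ 2 = X) (h2 : ⟪ψ, u⟫_ℂ = c * X) : ‖c‖ ^ 2 * X ≤ ‖u‖ ^ 2 := by
  have h3 := norm_inner_le_norm (𝕜 := ℂ) ψ u
  rw [h2, norm_mul, ← h1, Complex.norm_real, Real.norm_of_nonneg (by positivity)] at h3
  rw [← h1, ← mul_pow]
  rcases (norm_nonneg ψ).eq_or_lt with h0 | h0
  · rw [← h0]; simp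
  · have : ‖c‖ * ‖ψ‖ ≤ ‖u‖ := by
      refine le_of_mul_le_mul_left ?_ h0
      calc ‖ψ‖ * (‖c‖ * ‖ψ‖) = ‖c‖ * ‖ψ‖ ^ 2 := by ring
        _ ≤ _ := h3
    gcongr

end Ind

/-- the exhaustion -/
def Kset (Ω : Set (Fin n → ℂ)) (m : ℕ) : Set (Fin n → ℂ) :=
  {z | Metric.ball z (1 / (m + 1 : ℝ)) ⊆ Ω ∧ ∀ j, 1 / (m + 1 : ℝ) ≤ ‖z j‖}

theorem act_neg_act (t : Tn n) (z : Fin n → ℂ) : act (-t) (act t z) = z := by
  funext j
  simp only [act, Pi.neg_apply, ← mul_assoc, fourier_apply, one_zsmul]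
  rw [← Circle.coe_mul, ← AddCircle.toCircle_add]
  simp

theorem inv_of {S : Set (Fin n → ℂ)} (h : ∀ (t : Tn n) z, z ∈ S → act t z ∈ S) : Inv S :=
  fun t z => ⟨fun hz => act_neg_act t z ▸ h (-t) _ hz, h t z⟩

theorem good_Kset {Ω : Set (Fin n → ℂ)} (hb : Bornology.IsBounded Ω) (hR : IsReinhardt Ω) (m : ℕ) :
    Good Ω (Kset Ω m) := by
  have hr : (0 : ℝ) < 1 / (m + 1 : ℝ) := Nat.one_div_pos_of_nat
  have hsub : Kset Ω m ⊆ Ω := fun z hz => hz.1 (Metric.mem_ball_self hr)
  refine ⟨Metric.isCompact_of_isClosed_isBounded ?_ (hb.subset hsub), hsub,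
    fun z hz j => norm_pos_iff.1 (hr.trans_le (hz.2 j)), inv_of fun t z hz => ⟨?_, ?_⟩⟩
  · have e : Kset Ω m = (⋂ w ∈ Ωᶜ, {z | 1 / (m + 1 : ℝ) ≤ dist w z}) ∩
        ⋂ j, {z | 1 / (m + 1 : ℝ) ≤ ‖z j‖} := by
      ext z
      simp only [Kset, mem_ofPred_eq, mem_inter_iff, mem_iInter, mem_compl_iff]
      refine and_congr_left fun _ => ⟨fun h w hw => ?_, fun h w hw => ?_⟩
      · by_contra hc
        exact hw (h (not_le.1 hc))
      · by_contra hc
        exact absurd (h w hc) (not_le.2 hw)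
    rw [e]
    exact (isClosed_biInter fun w _ => isClosed_le continuous_const (by fun_prop)).inter
      (isClosed_iInter fun j => isClosed_le continuous_const (by fun_prop))
  · intro w hw
    rw [← hR.act_mem (-t)]
    apply hz.1
    rw [Metric.mem_ball, dist_pi_lt_iff hr] at hw ⊢
    intro j
    have h1 := hw j
    have h2 : dist (act (-t) w j) (act (-t) (act t z) j) = dist (w j) (act t z j) := by
      have h3 := norm_act (-t) (w - act t z) j
      rw [dist_eq_norm, dist_eq_norm]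
      simpa only [act, Pi.sub_apply, mul_sub] using h3
    rw [act_neg_act] at h2
    rwa [h2]
  · intro j
    rw [norm_act]; exact hz.2 j

theorem aecover_Kset {Ω : Set (Fin n → ℂ)} (ho : IsOpen Ω) (hb : Bornology.IsBounded Ω)
    (hR : IsReinhardt Ω) : AECover (leb Ω) atTop (Kset Ω) := by
  refine ⟨?_, fun m => (good_Kset hb hR m).cpt.measurableSet⟩
  have h0 : Tendsto (fun m : ℕ => 1 / (m + 1 : ℝ)) atTop (𝓝 0) :=
    tendsto_one_div_add_atTop_nhds_zero_nat
  filter_upwards [ae_restrict_mem ho.measurableSet, ae_restrict_of_ae (s := Ω) ae_star]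
    with z hz hs
  obtain ⟨ε, hε, hb⟩ := Metric.isOpen_iff.1 ho z hz
  have h1 : ∀ᶠ m : ℕ in atTop, ∀ j, 1 / (m + 1 : ℝ) ≤ ‖z j‖ :=
    eventually_all.2 fun j => h0.eventually (ge_mem_nhds (norm_pos_iff.2 (hs j)))
  filter_upwards [h1, h0.eventually (ge_mem_nhds hε)] with m h2 h3
  exact ⟨(Metric.ball_subset_ball h3).trans hb, h2⟩

/-- squared modulus of a monomial -/
noncomputable def W (β : Fin n → ℤ) (z : Fin n → ℂ) : ℝ := ‖mono β z‖ ^ 2

theorem W_act (β : Fin n → ℤ) (t : Tn n) (z : Fin n → ℂ) : W β (act t z) = W β z := by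
  rw [W, W, norm_mono_act]

theorem W_add {z : Fin n → ℂ} (hz : Star z) (β γ : Fin n → ℤ) : W (β + γ) z = W β z * W γ z := by
  rw [W, mono_add hz, norm_mul, mul_pow, W, W]

theorem W_nonneg (β : Fin n → ℤ) (z : Fin n → ℂ) : 0 ≤ W β z := sq_nonneg _

theorem W_pos {z : Fin n → ℂ} (hz : Star z) (β : Fin n → ℤ) : 0 < W β z :=
  pow_pos (norm_pos_iff.2 (mono_ne_zero hz β)) 2

theorem continuousAt_mono {z : Fin n → ℂ} (hz : Star z) (β : Fin n → ℤ) :
    ContinuousAt (mono β) z := (differentiableAt_mono fun j => Or.inl (hz j)).continuousAt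

theorem continuousAt_W {z : Fin n → ℂ} (hz : Star z) (β : Fin n → ℤ) :
    ContinuousAt (W β) z := (continuousAt_mono hz β).norm.pow 2

theorem Good.cont_mono {Ω K : Set (Fin n → ℂ)} (hK : Good Ω K) (β : Fin n → ℤ) :
    ContinuousOn (mono β) K := fun z hz => (continuousAt_mono (hK.star z hz) β).continuousWithinAt

theorem Good.cont_W {Ω K : Set (Fin n → ℂ)} (hK : Good Ω K) (β : Fin n → ℤ) :
    ContinuousOn (W β) K := fun z hz => (continuousAt_W (hK.star z hz) β).continuousWithinAt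

theorem Good.int_W {Ω K : Set (Fin n → ℂ)} (hK : Good Ω K) (β : Fin n → ℤ) :
    IntegrableOn (W β) K := (hK.cont_W β).integrableOn_compact hK.cpt

/-- exponents of monomials in the Bergman space -/
def Gam (Ω : Set (Fin n → ℂ)) (β : Fin n → ℤ) : Prop := Adm Ω β ∧ IntegrableOn (W β) Ω

theorem Gam.memLp {Ω : Set (Fin n → ℂ)} {β : Fin n → ℤ} (h : Gam Ω β) :
    MemLp (mono β) 2 (leb Ω) :=
  (memLp_two_iff_integrable_sq_norm (measurable_mono β).aestronglyMeasurable).2 h.2

theorem Adm.diffOn {Ω : Set (Fin n → ℂ)} {β : Fin n → ℤ} (h : Adm Ω β) :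
    DifferentiableOn ℂ (mono β) Ω :=
  fun z hz => (differentiableAt_mono (h z hz)).differentiableWithinAt

noncomputable def Gam.emb {Ω : Set (Fin n → ℂ)} {β : Fin n → ℤ} (h : Gam Ω β) : A2 Ω :=
  ⟨h.memLp.toLp _, mono β, h.1.diffOn, h.memLp.coeFn_toLp⟩

theorem Gam.fn_emb {Ω : Set (Fin n → ℂ)} {β : Fin n → ℤ} (h : Gam Ω β) :
    fn (incl h.emb) =ᵐ[leb Ω] mono β := h.memLp.coeFn_toLp

section Key

variable {Ω : Set (Fin n → ℂ)} (ho : IsOpen Ω) (hb : Bornology.IsBounded Ω) (hR : IsReinhardt Ω)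

include ho hb hR in
theorem integrableOn_W_of_bound {β : Fin n → ℤ} (B : ℝ)
    (h : ∀ᶠ m in atTop, ∫ z in Kset Ω m, W β z ≤ B) : IntegrableOn (W β) Ω := by
  refine (aecover_Kset ho hb hR).integrable_of_integral_bounded_of_nonneg_ae B (fun m => ?_)
    (Eventually.of_forall (W_nonneg β)) ?_
  · rw [IntegrableOn, (good_Kset hb hR m).restrict]
    exact (good_Kset hb hR m).int_W β
  · filter_upwards [h] with m hm
    rwa [(good_Kset hb hR m).restrict]

include ho hb hR in
theorem tendsto_W {β : Fin n → ℤ} (h : IntegrableOn (W β) Ω) :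
    Tendsto (fun m => ∫ z in Kset Ω m, W β z) atTop (𝓝 (∫ z in Ω, W β z)) := by
  have h1 := (aecover_Kset ho hb hR).integral_tendsto_of_countably_generated (f := W β) h
  refine h1.congr fun m => ?_
  rw [(good_Kset hb hR m).restrict]

theorem Good.pair {K : Set (Fin n → ℂ)} (hK : Good Ω K) {h : (Fin n → ℂ) → ℂ}
    (hh : DifferentiableOn ℂ h Ω) {β : Fin n → ℤ} {c : ℂ} (hc : ∀ z ∈ Ω, Star z → cf h β z = c)
    {G : (Fin n → ℂ) → ℝ} (hG : ∀ t z, G (act t z) = G z) (hG2 : ContinuousOn G K) :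
    ∫ z in K, h z * mono (-β) z * G z = c * ((∫ z in K, G z : ℝ) : ℂ) :=
  setIntegral_cf hK.cpt.measurableSet hK.inv hK.sub hc hG
    ((((hh.continuousOn.mono hK.sub).mul (hK.cont_mono _)).mul
      (Complex.continuous_ofReal.comp_continuousOn hG2)).integrableOn_compact hK.cpt)

include ho hb hR in
theorem gam_of_cf {h : (Fin n → ℂ) → ℂ} (hh : DifferentiableOn ℂ h Ω) {u : L2 Ω}
    (hu : fn u =ᵐ[leb Ω] h) {β : Fin n → ℤ} {c : ℂ} (hc : ∀ z ∈ Ω, Star z → cf h β z = c)
    (h0 : c ≠ 0) : Gam Ω β := by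
  refine ⟨adm_of_cf ho hR hh hc h0, integrableOn_W_of_bound ho hb hR (‖u‖ ^ 2 / ‖c‖ ^ 2)
    (Eventually.of_forall fun m => ?_)⟩
  have hK := good_Kset hb hR m
  have h1 := cs_aux (hK.ind (hK.cont_mono β)) u c _ (hK.norm_ind _) (by
    rw [hK.inner_ind _ u hu]
    refine Eq.trans ?_ (hK.pair hh hc (W_act β) (hK.cont_W β))
    refine setIntegral_congr_fun hK.cpt.measurableSet fun z hz => ?_
    simp only [conj_mono (hK.star z hz)]
    ring)
  rw [le_div_iff₀ (pow_pos (norm_pos_iff.2 h0) 2), mul_comm]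
  exact h1

include ho hb hR in
theorem key_ineq (hcon : IsConnected Ω) {f : (Fin n → ℂ) → ℂ} (hf : DifferentiableOn ℂ f Ω)
    {T : Op Ω} (hd : Dense (hankelDom Ω fun z => conj (f z)))
    (hT : ∀ g ∈ hankelDom Ω fun z => conj (f z), IsHankelValue (fun z => conj (f z)) g (app T g))
    {γ : Fin n → ℤ} {c : ℂ} (hc : ∀ z ∈ Ω, Star z → cf f γ z = c)
    {α : Fin n → ℤ} (hα : Gam Ω α) {K : Set (Fin n → ℂ)} (hK : Good Ω K) (s : ℝ)
    (hs : (¬ Gam Ω (α - γ) ∧ s = 0) ∨ s * ∫ z in K, W (α - γ) z = ∫ z in K, W α z) :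
    ‖c‖ ^ 2 * ((∫ z in K, W (α + γ) z) - s * ∫ z in K, W α z) ≤ ‖T hα.emb‖ ^ 2 := by
  have hm := hK.cpt.measurableSet
  have cρ : ContinuousOn (fun z => W γ z - s) K := (hK.cont_W γ).sub continuousOn_const
  have hF : ContinuousOn (fun z => mono (α - γ) z * ((W γ z - s : ℝ) : ℂ)) K :=
    (hK.cont_mono _).mul (Complex.continuous_ofReal.comp_continuousOn cρ)
  have hfF : ContinuousOn (fun z => f z * (mono (α - γ) z * ((W γ z - s : ℝ) : ℂ))) K :=
    (hf.continuousOn.mono hK.sub).mul hF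
  have w1 : ∀ z ∈ K, W α z = W (α - γ) z * W γ z := fun z hz => by
    rw [← W_add (hK.star z hz), sub_add_cancel]
  have w2 : ∀ z ∈ K, W (α + γ) z = W α z * W γ z := fun z hz => W_add (hK.star z hz) _ _
  have orth : ∀ v ∈ Bergman Ω, ⟪hK.ind hF, v⟫_ℂ = 0 := by
    rintro v ⟨h, hh, hv⟩
    obtain ⟨c', hc'⟩ := cf_const ho hcon hR hh (α - γ)
    have h1 := hK.pair hh hc' (G := fun z => W (α - γ) z * (W γ z - s))
      (fun t z => by simp only [W_act]) ((hK.cont_W _).mul cρ)
    have h2 : ∫ z in K, W (α - γ) z * (W γ z - s) =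
        (∫ z in K, W α z) - s * ∫ z in K, W (α - γ) z := by
      rw [← integral_const_mul, ← integral_sub (hK.int_W _) ((hK.int_W _).const_mul s)]
      refine setIntegral_congr_fun hm fun z hz => ?_
      simp only [w1 z hz]
      ring
    rw [hK.inner_ind hF v hv]
    refine Eq.trans ?_ (h1.trans ?_)
    · refine setIntegral_congr_fun hm fun z hz => ?_
      simp only [map_mul, conj_mono (hK.star z hz), Complex.conj_ofReal, W]
      push_cast
      ring
    · rcases hs with hs | hs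
      · have : c' = 0 := by
          by_contra h0
          exact hs.1 (gam_of_cf ho hb hR hh hv hc' h0)
        rw [this, zero_mul]
      · rw [h2, hs]; simp
  have pair : ∀ g : A2 Ω, ⟪hK.ind hF, T g⟫_ℂ = ⟪hK.ind hfF, incl g⟫_ℂ := by
    intro g
    have hcl : IsClosed {g : A2 Ω | ⟪hK.ind hF, T g⟫_ℂ = ⟪hK.ind hfF, incl g⟫_ℂ} :=
      isClosed_eq (continuous_const.inner T.continuous)
        (continuous_const.inner continuous_subtype_val)
    refine (closure_minimal ?_ hcl) (hd g)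
    · intro g hg
      obtain ⟨w, hw1, hw2, -⟩ := hT g hg
      have h1 := orth _ hw2
      rw [inner_sub_right, sub_eq_zero] at h1
      change ⟪hK.ind hF, app T g⟫_ℂ = _
      rw [← h1, hK.inner_ind hF w hw1, hK.inner_ind hfF _ (EventuallyEq.refl _ _)]
      refine setIntegral_congr_fun hm fun z _ => ?_
      simp only [map_mul]
      ring
  have h3 : ∫ z in K, W α z * (W γ z - s) = (∫ z in K, W (α + γ) z) - s * ∫ z in K, W α z := by
    rw [← integral_const_mul, ← integral_sub (hK.int_W _) ((hK.int_W _).const_mul s)]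
    refine setIntegral_congr_fun hm fun z hz => ?_
    simp only [w2 z hz]
    ring
  rw [← Complex.norm_conj c]
  refine cs_aux (hK.ind hF) _ _ _ ?_ ?_
  · rw [hK.norm_ind]
    have h4 : ∫ z in K, ‖mono (α - γ) z * ((W γ z - s : ℝ) : ℂ)‖ ^ 2 =
        ((∫ z in K, W (α + γ) z) - s * ∫ z in K, W α z) -
          s * ((∫ z in K, W α z) - s * ∫ z in K, W (α - γ) z) := by
      have i1 : IntegrableOn (fun z => W (α + γ) z - s * W α z) K :=
        (hK.int_W (α + γ)).sub ((hK.int_W α).const_mul s)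
      have i2 : IntegrableOn (fun z => W α z - s * W (α - γ) z) K :=
        (hK.int_W α).sub ((hK.int_W (α - γ)).const_mul s)
      rw [← integral_const_mul, ← integral_const_mul,
        ← integral_sub (hK.int_W _) ((hK.int_W _).const_mul s),
        ← integral_sub (hK.int_W _) ((hK.int_W _).const_mul s), ← integral_const_mul,
        ← integral_sub i1 (i2.const_mul s)]
      refine setIntegral_congr_fun hm fun z hz => ?_
      simp only [norm_mul, mul_pow, Complex.norm_real, Real.norm_eq_abs, sq_abs, w2 z hz, w1 z hz]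
      rw [← W]
      ring
    rw [h4]
    rcases hs with hs | hs
    · rw [hs.2]; ring
    · rw [hs]; ring
  · rw [pair, hK.inner_ind hfF _ hα.fn_emb, ← h3, ← Complex.conj_ofReal, ← map_mul,
      ← hK.pair hf hc (G := fun z => W α z * (W γ z - s)) (fun t z => by simp only [W_act])
        ((hK.cont_W _).mul cρ), ← integral_conj]
    refine setIntegral_congr_fun hm fun z hz => ?_
    have hz' := hK.star z hz
    have e1 : mono (α - γ) z = mono α z * mono (-γ) z := by rw [← mono_add hz', sub_eq_add_neg]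
    have e2 : ((W α z : ℝ) : ℂ) = conj (mono α z) * mono α z := by
      rw [Complex.conj_mul', W]; push_cast; rfl
    simp only [e1, map_mul, Complex.conj_ofReal, Complex.ofReal_mul]
    rw [e2]
    ring

end Key

end Pool.Agent.H434Z.Hankel
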