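import Pool.Agent.H434Z.HankelInt

set_option autoImplicit false

open MeasureTheory Filter Topology Set Function
open scoped ComplexConjugate InnerProductSpace ENNReal

namespace Pool.Agent.H434Z.Hankel

variable {n : ℕ}

theorem ofReal_norm_sq_eq {H ι : Type} [NormedAddCommGroup H] [InnerProductSpace ℂ H]
    (b : HilbertBasis ι ℂ H) (x : H) :
    ENNReal.ofReal (‖x‖ ^ 2) = ∑' k, ENNReal.ofReal (‖⟪b k, x⟫_ℂ‖ ^ 2) := by
  have h1 := lp.hasSum_norm (p := 2) (by simp) (b.repr x)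
  simp only [ENNReal.toReal_ofNat, Real.rpow_ofNat, LinearIsometryEquiv.norm_map,
    HilbertBasis.repr_apply_apply] at h1
  rw [← h1.tsum_eq, ENNReal.ofReal_tsum_of_nonneg (fun _ => sq_nonneg _) h1.summable]

theorem summable_of_HS {A H ι κ : Type} [NormedAddCommGroup A] [InnerProductSpace ℂ A]
    [NormedAddCommGroup H] [InnerProductSpace ℂ H] [CompleteSpace H] (b : HilbertBasis ι ℂ A)
    (T : A →L[ℂ] H) (hT : Summable fun k => ‖T (b k)‖ ^ 2) {v : κ → A} (hv : Orthonormal ℂ v) :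
    Summable fun i => ‖T (v i)‖ ^ 2 := by
  have : CompleteSpace A := b.repr.toIsometryEquiv.completeSpace
  obtain ⟨w, c, -⟩ := exists_hilbertBasis ℂ H
  have h1 : ∑' i, ENNReal.ofReal (‖T (v i)‖ ^ 2) ≤ ∑' k, ENNReal.ofReal (‖T (b k)‖ ^ 2) := by
    simp only [ofReal_norm_sq_eq c]
    rw [ENNReal.tsum_comm, ENNReal.tsum_comm (f := fun k l => ENNReal.ofReal (‖⟪c l, T (b k)⟫_ℂ‖ ^ 2))]
    refine ENNReal.tsum_le_tsum fun l => ?_
    have e : ∀ x, ‖⟪c l, T x⟫_ℂ‖ = ‖⟪x, T.adjoint (c l)⟫_ℂ‖ := fun x => by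
      rw [ContinuousLinearMap.adjoint_inner_right, norm_inner_symm]
    simp only [e]
    rw [← ofReal_norm_sq_eq b, ← ENNReal.ofReal_tsum_of_nonneg (fun _ => sq_nonneg _)
      (hv.inner_products_summable _)]
    exact ENNReal.ofReal_le_ofReal (hv.tsum_inner_products_le _)
  rw [← ENNReal.ofReal_tsum_of_nonneg (fun _ => sq_nonneg _) hT] at h1
  have h2 := ENNReal.summable_toReal (h1.trans_lt ENNReal.ofReal_lt_top).ne
  simpa only [ENNReal.toReal_ofReal (sq_nonneg _)] using h2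

theorem inner_smul_smul_zero {H : Type} [NormedAddCommGroup H] [InnerProductSpace ℂ H]
    (a b : ℂ) (x y : H) (h : ⟪x, y⟫_ℂ = 0) : ⟪a • x, b • y⟫_ℂ = 0 := by
  rw [inner_smul_left, inner_smul_right, h]; simp

theorem eventually_star {q : Fin n → ℂ} (hq : Star q) : ∀ᶠ z in 𝓝 q, Star z :=
  eventually_all.2 fun j => (continuous_apply j).continuousAt.eventually_ne (hq j)

theorem setIntegral_W_pos {V : Set (Fin n → ℂ)} (hV : IsOpen V) (hne : V.Nonempty)
    {β : Fin n → ℤ} (hi : IntegrableOn (W β) V) : 0 < ∫ z in V, W β z := by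
  rw [setIntegral_pos_iff_support_of_nonneg_ae (Eventually.of_forall (W_nonneg β)) hi]
  obtain ⟨q, hq1, hq2⟩ := dense_star.exists_mem_open hV hne
  refine Measure.measure_pos_of_mem_nhds volume (x := q) ?_
  filter_upwards [eventually_star hq1, hV.mem_nhds hq2] with z h1 h2
  exact ⟨(W_pos h1 β).ne', h2⟩

/-- squared norm of a monomial -/
noncomputable def AA (Ω : Set (Fin n → ℂ)) (β : Fin n → ℤ) : ℝ := ∫ z in Ω, W β z

theorem Gam.inner_emb {Ω : Set (Fin n → ℂ)} {α β : Fin n → ℤ} (hα : Gam Ω α) (hβ : Gam Ω β) :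
    ⟪hα.emb, hβ.emb⟫_ℂ = ∫ z in Ω, conj (mono α z) * mono β z := by
  change ⟪incl hα.emb, incl hβ.emb⟫_ℂ = _
  rw [L2.inner_def]
  refine integral_congr_ae ?_
  filter_upwards [hα.fn_emb, hβ.fn_emb] with z h1 h2
  have h3 : (incl hα.emb) z = mono α z := h1
  have h4 : (incl hβ.emb) z = mono β z := h2
  rw [h3, h4]
  simp [mul_comm]

theorem Gam.norm_emb {Ω : Set (Fin n → ℂ)} {α : Fin n → ℤ} (hα : Gam Ω α) :
    ‖hα.emb‖ ^ 2 = AA Ω α := by
  have h := hα.inner_emb hα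
  have e : ∀ z, conj (mono α z) * mono α z = ((W α z : ℝ) : ℂ) := fun z => by
    rw [Complex.conj_mul', W]; push_cast; rfl
  simp only [e] at h
  rw [integral_complex_ofReal] at h
  have h2 := (inner_self_eq_norm_sq_to_K (𝕜 := ℂ) hα.emb).symm.trans h
  exact Complex.ofReal_injective (by rw [AA, ← h2]; push_cast; rfl)

theorem Gam.inner_emb_ne {Ω : Set (Fin n → ℂ)} (ho : IsOpen Ω) (hR : IsReinhardt Ω)
    {α β : Fin n → ℤ} (hα : Gam Ω α) (hβ : Gam Ω β) (hne : α ≠ β) : ⟪hα.emb, hβ.emb⟫_ℂ = 0 := by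
  rw [hα.inner_emb hβ]
  obtain ⟨i, hi⟩ := Function.ne_iff.1 hne
  have hk : (-α + β) i ≠ 0 := by simp only [Pi.add_apply, Pi.neg_apply]; omega
  let t : Tn n := Pi.single i (((1 : ℝ) / 2 / ((-α + β) i : ℤ) : ℝ) : UnitAddCircle)
  have ht : UnitAddTorus.mFourier (-α + β) t = -1 := by
    change ∏ j, fourier ((-α + β) j) (t j) = -1
    rw [Finset.prod_eq_single i]
    · have := fourier_add_half_inv_index hk one_pos (0 : UnitAddCircle)
      rw [zero_add, fourier_eval_zero] at this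
      simpa only [t, Pi.single_eq_same] using this
    · intro j _ hj
      simp only [t, Pi.single_eq_of_ne hj, fourier_eval_zero]
    · simp
  have hmp := mp_act_restrict ho.measurableSet (fun t z => hR.act_mem t) t
  have hmeas : Measurable fun z => conj (mono α z) * mono β z :=
    (Complex.continuous_conj.measurable.comp (measurable_mono α)).mul (measurable_mono β)
  have h1 : ∫ z in Ω, conj (mono α z) * mono β z =
      ∫ z in Ω, conj (mono α (act t z)) * mono β (act t z) := by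
    conv_lhs => rw [← hmp.map_eq]
    exact integral_map hmp.measurable.aemeasurable hmeas.aestronglyMeasurable
  have h2 : ∀ z, conj (mono α (act t z)) * mono β (act t z) = -(conj (mono α z) * mono β z) := by
    intro z
    rw [UnitAddTorus.mFourier_add, UnitAddTorus.mFourier_neg] at ht
    rw [mono_act, mono_act, map_mul]
    linear_combination (conj (mono α z) * mono β z) * ht
  simp only [h2, integral_neg] at h1
  linear_combination (1 / 2 : ℂ) * h1

theorem W_add_nsmul {z : Fin n → ℂ} (hz : Star z) (α δ : Fin n → ℤ) (b : ℕ) :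
    W (α + (b : ℤ) • δ) z = W α z * W δ z ^ b := by
  induction b with
  | zero => simp
  | succ b ih =>
    rw [Nat.cast_succ, add_smul, one_smul, ← add_assoc, W_add hz, ih, pow_succ, mul_assoc]

theorem growth {Ω : Set (Fin n → ℂ)} (ho : IsOpen Ω) {α δ : Fin n → ℤ}
    (hg : ∀ k : ℕ, Gam Ω (α + (k : ℤ) • δ)) {q : Fin n → ℂ} (hq : q ∈ Ω) (hs : Star q) {τ : ℝ}
    (h0 : 0 < τ) (hτ : τ < W δ q) :
    ∃ b : ℕ, τ * AA Ω (α + (b : ℤ) • δ) < AA Ω (α + (b : ℤ) • δ + δ) := by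
  by_contra hcon
  push Not at hcon
  have h1 : ∀ b : ℕ, AA Ω (α + (b : ℤ) • δ) ≤ τ ^ b * AA Ω α := by
    intro b
    induction b with
    | zero => simp
    | succ b ih =>
      rw [Nat.cast_succ, add_smul, one_smul, ← add_assoc, pow_succ', mul_assoc]
      exact (hcon b).trans (mul_le_mul_of_nonneg_left ih h0.le)
  obtain ⟨σ, hσ1, hσ2⟩ := exists_between hτ
  have h2 : ∀ᶠ z in 𝓝 q, z ∈ Ω ∧ Star z ∧ σ < W δ z :=
    (show ∀ᶠ z in 𝓝 q, z ∈ Ω from ho.mem_nhds hq).and ((eventually_star hs).and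
      ((continuousAt_W hs δ).eventually (lt_mem_nhds hσ2)))
  obtain ⟨V, hV1, hV2, hV3⟩ := mem_nhds_iff.1 h2
  have hVΩ : V ⊆ Ω := fun z hz => (hV1 hz).1
  have hα : Gam Ω α := by simpa using hg 0
  have hκ := setIntegral_W_pos hV2 ⟨q, hV3⟩ (hα.2.mono_set hVΩ)
  have h3 : ∀ b : ℕ, σ ^ b * ∫ z in V, W α z ≤ AA Ω (α + (b : ℤ) • δ) := by
    intro b
    rw [← integral_const_mul]
    refine le_trans (setIntegral_mono_on ((hα.2.mono_set hVΩ).const_mul _)
      ((hg b).2.mono_set hVΩ) hV2.measurableSet fun z hz => ?_)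
      (setIntegral_mono_set (hg b).2 (Eventually.of_forall (W_nonneg _)) hVΩ.eventuallyLE)
    rw [W_add_nsmul (hV1 hz).2.1, mul_comm]
    exact mul_le_mul_of_nonneg_left
      (pow_le_pow_left₀ (h0.trans hσ1).le (hV1 hz).2.2.le b) (W_nonneg _ _)
  obtain ⟨b, hb⟩ := pow_unbounded_of_one_lt (AA Ω α / ∫ z in V, W α z)
    ((one_lt_div h0).2 hσ1)
  rw [div_pow, div_lt_div_iff₀ hκ (pow_pos h0 b)] at hb
  have := (h3 b).trans (h1 b)
  linarith

theorem exists_lt_W {Ω : Set (Fin n → ℂ)} (ho : IsOpen Ω) (hne : Ω.Nonempty) {γ : Fin n → ℤ}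
    {i : Fin n} (hi : γ i ≠ 0) :
    ∃ p ∈ Ω, ∃ q ∈ Ω, Star p ∧ Star q ∧ W γ p < W γ q := by
  obtain ⟨z, hs, hz⟩ := dense_star.exists_mem_open ho hne
  have hc : Continuous fun x : ℝ => update z i ((x : ℂ) * z i) :=
    continuous_const.update i (by fun_prop)
  have h1 : ∀ᶠ x : ℝ in 𝓝 1, update z i ((x : ℂ) * z i) ∈ Ω :=
    hc.continuousAt.eventually (ho.mem_nhds (by simpa using hz))
  obtain ⟨x, hx1, hx2⟩ := ((h1.filter_mono (nhdsWithin_le_nhds (s := Ioi 1))).and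
    self_mem_nhdsWithin).exists
  have hx : (1 : ℝ) < x := hx2
  have hs' : Star (update z i ((x : ℂ) * z i)) := by
    intro j
    by_cases hj : j = i
    · subst hj
      rw [update_self]
      exact mul_ne_zero (by exact_mod_cast (by linarith : x ≠ 0)) (hs j)
    · rw [update_of_ne hj]; exact hs j
  have e : mono γ (update z i ((x : ℂ) * z i)) = (x : ℂ) ^ γ i * mono γ z := by
    rw [mono, mono, ← Finset.mul_prod_erase _ _ (Finset.mem_univ i),
      ← Finset.mul_prod_erase _ _ (Finset.mem_univ i), update_self, mul_zpow, mul_assoc]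
    congr 2
    exact Finset.prod_congr rfl fun j hj => by rw [update_of_ne (Finset.ne_of_mem_erase hj)]
  have hne' : W γ (update z i ((x : ℂ) * z i)) ≠ W γ z := by
    intro h
    rw [W, e, norm_mul, mul_pow, ← W, norm_zpow, Complex.norm_real,
      Real.norm_of_nonneg (by linarith)] at h
    have h2 : (x ^ γ i) ^ 2 = 1 := mul_right_cancel₀ (W_pos hs γ).ne' (h.trans (one_mul _).symm)
    have h3 : x ^ γ i = 1 := by
      have : 0 < x ^ γ i := zpow_pos (by linarith) _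
      nlinarith
    exact hi ((zpow_eq_one_iff_right₀ (by linarith) hx.ne').1 h3)
  rcases lt_or_gt_of_ne hne' with h | h
  · exact ⟨_, hx1, z, hz, hs', hs, h⟩
  · exact ⟨z, hz, _, hx1, hs, hs', h⟩

theorem gam_of_nonneg {Ω : Set (Fin n → ℂ)} (hb : Bornology.IsBounded Ω) {β : Fin n → ℤ}
    (h : ∀ j, 0 ≤ β j) : Gam Ω β := by
  refine ⟨fun z _ j => Or.inr (h j), ?_⟩
  have hc : Continuous (W β) := continuous_iff_continuousAt.2 fun z =>
    (differentiableAt_mono fun j => Or.inr (h j)).continuousAt.norm.pow 2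
  exact (hc.continuousOn.integrableOn_compact hb.isCompact_closure).mono_set subset_closure

open Classical in
/-- the ratio of consecutive norms -/
noncomputable def rr (Ω : Set (Fin n → ℂ)) (γ β : Fin n → ℤ) : ℝ :=
  if Gam Ω β then AA Ω (β + γ) / AA Ω β else 0

section Final

variable {Ω : Set (Fin n → ℂ)} (ho : IsOpen Ω) (hcon : IsConnected Ω) (hb : Bornology.IsBounded Ω)
  (hR : IsReinhardt Ω) {f : (Fin n → ℂ) → ℂ} (hf : DifferentiableOn ℂ f Ω)
  {T : Op Ω} (hd : Dense (hankelDom Ω fun z => conj (f z)))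
  (hT : ∀ g ∈ hankelDom Ω fun z => conj (f z), IsHankelValue (fun z => conj (f z)) g (app T g))
  {γ : Fin n → ℤ} {c : ℂ} (hc : ∀ z ∈ Ω, Star z → cf f γ z = c) (h0 : c ≠ 0)

include ho hcon in
theorem AA_pos {β : Fin n → ℤ} (h : Gam Ω β) : 0 < AA Ω β :=
  setIntegral_W_pos ho hcon.nonempty h.2

include ho hcon hb hR hf hd hT hc h0 in
theorem step {α : Fin n → ℤ} (hα : Gam Ω α) :
    Gam Ω (α + γ) ∧ ‖c‖ ^ 2 * (rr Ω γ α - rr Ω γ (α - γ)) * AA Ω α ≤ ‖T hα.emb‖ ^ 2 := by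
  have hadm : Adm Ω (α + γ) := fun z hz j => by
    rcases hα.1 z hz j with h | h
    · exact Or.inl h
    · rcases adm_of_cf ho hR hf hc h0 z hz j with h' | h'
      · exact Or.inl h'
      · exact Or.inr (add_nonneg h h')
  have hc2 : 0 < ‖c‖ ^ 2 := pow_pos (norm_pos_iff.2 h0) 2
  have hA := AA_pos ho hcon hα
  obtain ⟨u, L, hu, hL, hk⟩ : ∃ (u : ℕ → ℝ) (L : ℝ), Tendsto u atTop (𝓝 L) ∧
      L = rr Ω γ (α - γ) * AA Ω α ∧
      ∀ᶠ m in atTop, ‖c‖ ^ 2 * ((∫ z in Kset Ω m, W (α + γ) z) - u m) ≤ ‖T hα.emb‖ ^ 2 := by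
    by_cases hg : Gam Ω (α - γ)
    · have t1 := tendsto_W ho hb hR hα.2
      have t2 := tendsto_W ho hb hR hg.2
      have p2 := AA_pos ho hcon hg
      refine ⟨_, _, (t1.div t2 p2.ne').mul t1, ?_, ?_⟩
      · rw [rr, if_pos hg, sub_add_cancel]; rfl
      · filter_upwards [t2.eventually (lt_mem_nhds p2)] with m hm
        exact key_ineq ho hb hR hcon hf hd hT hc hα (good_Kset hb hR m) _
          (Or.inr (div_mul_cancel₀ _ hm.ne'))
    · refine ⟨fun _ => 0, 0, tendsto_const_nhds, by rw [rr, if_neg hg, zero_mul],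
        Eventually.of_forall fun m => ?_⟩
      simpa using key_ineq ho hb hR hcon hf hd hT hc hα (good_Kset hb hR m) 0 (Or.inl ⟨hg, rfl⟩)
  have hint : IntegrableOn (W (α + γ)) Ω := by
    refine integrableOn_W_of_bound ho hb hR (‖T hα.emb‖ ^ 2 / ‖c‖ ^ 2 + (L + 1)) ?_
    filter_upwards [hk, hu.eventually (gt_mem_nhds (lt_add_one L))] with m h1 h2
    rw [mul_comm, ← le_div_iff₀ hc2] at h1
    linarith
  refine ⟨⟨hadm, hint⟩, ?_⟩
  have t3 := ((tendsto_W ho hb hR hint).sub hu).const_mul (‖c‖ ^ 2)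
  have h4 := le_of_tendsto t3 hk
  rw [mul_assoc, sub_mul, ← hL, rr, if_pos hα, div_mul_cancel₀ _ hA.ne']
  exact h4

include ho hcon hb hR hf hd hT hc h0 in
theorem line_sum {p q : Fin n → ℂ} (hp : p ∈ Ω) (hq : q ∈ Ω) (sp : Star p) (sq : Star q)
    {s t : ℝ} (h1 : W γ p < s) (h2 : s < t) (h3 : t < W γ q) {α : Fin n → ℤ} (hα : Gam Ω α) :
    ∃ (β : Fin n → ℤ) (a : ℤ) (N : ℕ), β = α + a • γ ∧
      (∀ k < N, Gam Ω (β + ((k + 1 : ℕ) : ℤ) • γ)) ∧
      t - s ≤ rr Ω γ (β + (N : ℤ) • γ) - rr Ω γ β := by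
  classical
  have hs0 : 0 < s := (W_pos sp γ).trans h1
  have up : ∀ k : ℕ, Gam Ω (α + (k : ℤ) • γ) := by
    intro k
    induction k with
    | zero => simpa using hα
    | succ k ih =>
      rw [Nat.cast_succ, add_smul, one_smul, ← add_assoc]
      exact (step ho hcon hb hR hf hd hT hc h0 ih).1
  obtain ⟨b, hb1⟩ := growth ho up hq sq (hs0.trans h2) h3
  have hb2 : t < rr Ω γ (α + (b : ℤ) • γ) := by
    rw [rr, if_pos (up b), lt_div_iff₀ (AA_pos ho hcon (up b))]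
    exact hb1
  obtain ⟨a, ha1, ha2⟩ : ∃ a : ℕ, (∀ k < a, Gam Ω (α + (k : ℤ) • (-γ))) ∧
      rr Ω γ (α + (a : ℤ) • (-γ)) < s := by
    by_cases hall : ∀ k : ℕ, Gam Ω (α + (k : ℤ) • (-γ))
    · have e : W (-γ) p * W γ p = 1 := by
        rw [← W_add sp, neg_add_cancel, W, mono_zero]; simp
      have h4 : s⁻¹ < W (-γ) p := by
        rw [eq_inv_of_mul_eq_one_left e]
        exact inv_strictAnti₀ (W_pos sp γ) h1
      obtain ⟨a, ha⟩ := growth ho hall hp sp (inv_pos.2 hs0) h4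
      refine ⟨a + 1, fun k _ => hall k, ?_⟩
      have e2 : α + ((a + 1 : ℕ) : ℤ) • (-γ) = α + (a : ℤ) • (-γ) + -γ := by
        rw [Nat.cast_succ, add_smul, one_smul, add_assoc]
      have h5 := hall (a + 1)
      rw [e2] at h5 ⊢
      rw [rr, if_pos h5, neg_add_cancel_right, div_lt_iff₀ (AA_pos ho hcon h5)]
      rwa [inv_mul_lt_iff₀ hs0] at ha
    · push Not at hall
      refine ⟨Nat.find hall, fun k hk => not_not.1 (Nat.find_min hall hk), ?_⟩
      rw [rr, if_neg (Nat.find_spec hall)]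
      exact hs0
  refine ⟨α + (a : ℤ) • (-γ), -a, a + b, by simp, fun k hk => ?_, ?_⟩
  · rcases le_or_gt a (k + 1) with h | h
    · obtain ⟨l, hl⟩ := Nat.exists_eq_add_of_le h
      have : α + (a : ℤ) • (-γ) + ((k + 1 : ℕ) : ℤ) • γ = α + (l : ℤ) • γ := by
        rw [hl]; push_cast; module
      rw [this]; exact up l
    · obtain ⟨l, hl⟩ := Nat.exists_eq_add_of_le h.le
      have : α + (a : ℤ) • (-γ) + ((k + 1 : ℕ) : ℤ) • γ = α + (l : ℤ) • (-γ) := by
        rw [hl]; push_cast; module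
      rw [this]; exact ha1 l (by omega)
  · have : α + (a : ℤ) • (-γ) + ((a + b : ℕ) : ℤ) • γ = α + (b : ℤ) • γ := by
      push_cast; module
    rw [this]
    linarith

/-- normalised monomials -/
noncomputable def Gam.unit {β : Fin n → ℤ} (h : Gam Ω β) : A2 Ω :=
  ((‖h.emb‖⁻¹ : ℝ) : ℂ) • h.emb

include ho hcon hb hR hf hd hT hc h0 in
theorem not_HS (hn : 2 ≤ n) (hγ : γ ≠ 0) (hHS : IsHS T) : False := by
  classical
  obtain ⟨ι, b, hsum⟩ := hHS
  have npos : ∀ {β : Fin n → ℤ} (h : Gam Ω β), 0 < ‖h.emb‖ := fun h => by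
    have h1 := AA_pos ho hcon h
    rw [← h.norm_emb] at h1
    exact lt_of_le_of_ne (norm_nonneg _) fun h2 => by rw [← h2] at h1; simp at h1
  have hon : Orthonormal ℂ fun β : {β // Gam Ω β} => β.2.unit := by
    refine ⟨fun β => ?_, fun α β hne => ?_⟩
    · simp only [Gam.unit]
      rw [norm_smul, Complex.norm_real, norm_inv, norm_norm, inv_mul_cancel₀ (npos β.2).ne']
    · exact inner_smul_smul_zero _ _ _ _ (α.2.inner_emb_ne ho hR β.2 fun h => hne (Subtype.ext h))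
  have hs1 := summable_of_HS b T hsum hon
  let G : (Fin n → ℤ) → ℝ := fun β => if h : Gam Ω β then ‖T h.unit‖ ^ 2 else 0
  have hs2 : Summable G := by
    refine (Subtype.val_injective (p := Gam Ω)).summable_iff (fun β hβ => ?_) |>.1 ?_
    · exact dif_neg fun h => hβ ⟨⟨β, h⟩, rfl⟩
    · refine hs1.congr fun β => ?_
      simp only [G, Function.comp, dif_pos β.2]
  have hG : ∀ β, Gam Ω β → ‖c‖ ^ 2 * (rr Ω γ β - rr Ω γ (β - γ)) ≤ G β := by
    intro β h
    have h1 := (step ho hcon hb hR hf hd hT hc h0 h).2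
    simp only [G, dif_pos h, Gam.unit, map_smul, norm_smul, Complex.norm_real, norm_inv, norm_norm,
      mul_pow, inv_pow, h.norm_emb]
    rw [inv_mul_eq_div, le_div_iff₀ (AA_pos ho hcon h)]
    exact h1
  obtain ⟨i, hi⟩ := Function.ne_iff.1 hγ
  have hi' : γ i ≠ 0 := hi
  obtain ⟨j, hj⟩ : ∃ j : Fin n, j ≠ i := by
    have : Nontrivial (Fin n) := Fin.nontrivial_iff_two_le.2 hn
    exact exists_ne i
  obtain ⟨p, hp, q, hq, sp, sq, hpq⟩ := exists_lt_W ho hcon.nonempty hi'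
  obtain ⟨s, h1, h⟩ := exists_between hpq
  obtain ⟨t, h2, h3⟩ := exists_between h
  have hc2 : 0 < ‖c‖ ^ 2 := pow_pos (norm_pos_iff.2 h0) 2
  obtain ⟨S, hS⟩ := summable_iff_vanishing_norm.1 hs2 (‖c‖ ^ 2 * (t - s))
    (mul_pos hc2 (sub_pos.2 h2))
  let l : (Fin n → ℤ) → ℤ := fun β => β j * γ i - β i * γ j
  let m : ℤ := ∑ β ∈ S, |l β| + 1
  have hm0 : 0 ≤ ∑ β ∈ S, |l β| := Finset.sum_nonneg fun _ _ => abs_nonneg _
  have hα : Gam Ω (Pi.single j m) := gam_of_nonneg hb fun k => by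
    by_cases hk : k = j
    · subst hk; simp only [Pi.single_eq_same, m]; omega
    · simp [hk]
  obtain ⟨β, a, N, hβ, hN, hle⟩ := line_sum ho hcon hb hR hf hd hT hc h0 hp hq sp sq h1 h2 h3 hα
  have hinj : Function.Injective fun k : ℕ => β + ((k + 1 : ℕ) : ℤ) • γ := by
    intro k k' h
    have h4 := congrFun h i
    simp only [Pi.add_apply, Pi.smul_apply, smul_eq_mul, add_right_inj] at h4
    have := mul_right_cancel₀ hi' h4
    omega
  have h5 := hS ((Finset.range N).image fun k : ℕ => β + ((k + 1 : ℕ) : ℤ) • γ) (by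
    rw [Finset.disjoint_left]
    intro x hx hxS
    obtain ⟨k, -, rfl⟩ := Finset.mem_image.1 hx
    have e : l (β + ((k + 1 : ℕ) : ℤ) • γ) = m * γ i := by
      simp only [l, hβ, Pi.add_apply, Pi.smul_apply, smul_eq_mul, Pi.single_eq_same,
        Pi.single_eq_of_ne hj.symm]
      ring
    have h6 := Finset.single_le_sum (f := fun β => |l β|) (fun _ _ => abs_nonneg _) hxS
    rw [e, abs_mul, abs_of_nonneg (show 0 ≤ m by omega)] at h6
    have h7 : 1 ≤ |γ i| := Int.one_le_abs hi'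
    have h8 : m * 1 ≤ m * |γ i| := mul_le_mul_of_nonneg_left h7 (by omega)
    omega)
  rw [Finset.sum_image fun x _ y _ h => hinj h] at h5
  have h9 : ∑ k ∈ Finset.range N, ‖c‖ ^ 2 * (rr Ω γ (β + ((k + 1 : ℕ) : ℤ) • γ) -
      rr Ω γ (β + (k : ℤ) • γ)) ≤ ∑ k ∈ Finset.range N, G (β + ((k + 1 : ℕ) : ℤ) • γ) := by
    refine Finset.sum_le_sum fun k hk => ?_
    have h10 := hG _ (hN k (Finset.mem_range.1 hk))
    have e : β + ((k + 1 : ℕ) : ℤ) • γ - γ = β + (k : ℤ) • γ := by push_cast; module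
    rwa [e] at h10
  rw [← Finset.mul_sum, Finset.sum_range_sub (fun k : ℕ => rr Ω γ (β + (k : ℤ) • γ))] at h9
  simp only [Nat.cast_zero, zero_smul, add_zero] at h9
  have h11 := mul_le_mul_of_nonneg_left hle hc2.le
  have h12 := (le_abs_self _).trans_lt h5
  linarith

end Final

theorem main (hn : 2 ≤ n) {Ω : Set (Fin n → ℂ)} (ho : IsOpen Ω) (hcon : IsConnected Ω)
    (hb : Bornology.IsBounded Ω) (hR : IsReinhardt Ω) {f : (Fin n → ℂ) → ℂ}
    (hf : DifferentiableOn ℂ f Ω) (T : Op Ω) (hT : IsHSHankel (fun z => conj (f z)) T) :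
    T = 0 := by
  obtain ⟨hd, hT, hHS⟩ := hT
  have h1 : ∀ γ ≠ 0, ∀ z ∈ Ω, Star z → cf f γ z = 0 := by
    intro γ hγ
    obtain ⟨c, hc⟩ := cf_const ho hcon hR hf γ
    by_cases h0 : c = 0
    · subst h0; exact hc
    · exact (not_HS ho hcon hb hR hf hd hT hc h0 hn hγ hHS).elim
  obtain ⟨c, hc⟩ := cf_const ho hcon hR hf 0
  have h2 : ∀ᵐ z ∂leb Ω, f z = c := by
    filter_upwards [ae_restrict_mem ho.measurableSet, ae_restrict_of_ae (s := Ω) ae_star]
      with z hz hs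
    rw [const_of_cf ho hR hf hz hs fun β hβ => h1 β hβ z hz hs, hc z hz hs]
  ext1 g
  refine hd.induction (P := fun g => T g = (0 : Op Ω) g) (fun g hg => ?_)
    (isClosed_eq T.continuous (0 : Op Ω).continuous) g
  obtain ⟨w, hw1, hw2, hw3⟩ := hT g hg
  have h3 : w = conj c • incl g := by
    refine Lp.ext ?_
    filter_upwards [hw1, h2, Lp.coeFn_smul (conj c) (incl g)] with z e1 e2 e3
    rw [e3]
    exact e1.trans (by rw [e2]; rfl)
  have h4 : app T g ∈ Bergman Ω := by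
    have h5 : w ∈ Bergman Ω := h3 ▸ (Bergman Ω).smul_mem _ g.2
    simpa using (Bergman Ω).sub_mem h5 hw2
  exact inner_self_eq_zero.1 (hw3 _ h4)

end Pool.Agent.H434Z.Hankel
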