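import Pool.Agent.H434Z.HankelDefs

set_option autoImplicit false

open MeasureTheory Filter Topology Set Function
open scoped ComplexConjugate

namespace Pool.Agent.H434Z.Hankel

variable {n : ℕ}

abbrev Tn (n : ℕ) : Type := UnitAddTorus (Fin n)

noncomputable def nu (n : ℕ) : Measure (Tn n) := Measure.pi fun _ => AddCircle.haarAddCircle

instance nu_prob : IsProbabilityMeasure (nu n) := by unfold nu; infer_instance
instance nu_inv : (nu n).IsAddRightInvariant := by unfold nu; infer_instance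

noncomputable def act (t : Tn n) (z : Fin n → ℂ) : Fin n → ℂ := fun j => fourier 1 (t j) * z j

noncomputable def mono (β : Fin n → ℤ) (z : Fin n → ℂ) : ℂ := ∏ j, z j ^ β j

def Star (z : Fin n → ℂ) : Prop := ∀ j, z j ≠ 0

theorem norm_fourier (k : ℤ) (x : UnitAddCircle) : ‖fourier k x‖ = 1 := Circle.norm_coe _

theorem norm_act (t : Tn n) (z : Fin n → ℂ) (j : Fin n) : ‖act t z j‖ = ‖z j‖ := by
  rw [act, norm_mul, norm_fourier, one_mul]

theorem IsReinhardt.of_norm {Ω : Set (Fin n → ℂ)} (h : IsReinhardt Ω) {z w : Fin n → ℂ}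
    (hz : z ∈ Ω) (hw : ∀ j, ‖w j‖ = ‖z j‖) : w ∈ Ω := by
  have h1 := h z hz fun j => Complex.arg (w j) - Complex.arg (z j)
  convert h1 using 1
  funext j
  have e1 := Complex.norm_mul_exp_arg_mul_I (w j)
  have e2 := Complex.norm_mul_exp_arg_mul_I (z j)
  calc w j = ‖w j‖ * Complex.exp (Complex.arg (w j) * Complex.I) := e1.symm
    _ = Complex.exp (((Complex.arg (w j) - Complex.arg (z j) : ℝ) : ℂ) * Complex.I) *
        (‖z j‖ * Complex.exp (Complex.arg (z j) * Complex.I)) := by
      rw [hw j, mul_left_comm, ← Complex.exp_add]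
      congr 2
      push_cast
      ring
    _ = _ := by rw [e2]

theorem IsReinhardt.act_mem {Ω : Set (Fin n → ℂ)} (h : IsReinhardt Ω) (t : Tn n)
    {z : Fin n → ℂ} : act t z ∈ Ω ↔ z ∈ Ω :=
  ⟨fun hz => h.of_norm hz fun j => (norm_act t z j).symm, fun hz => h.of_norm hz (norm_act t z)⟩

theorem Star.act {z : Fin n → ℂ} (hz : Star z) (t : Tn n) : Star (act t z) := fun j h => by
  have := norm_act t z j
  rw [h, norm_zero] at this
  exact hz j (norm_eq_zero.1 this.symm)

theorem act_zero (z : Fin n → ℂ) : act 0 z = z := by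
  funext j; simp [act]

theorem fourier_zpow (k : ℤ) (x : UnitAddCircle) : (fourier 1 x) ^ k = fourier k x := by
  simp [fourier_apply, AddCircle.toCircle_zsmul]

theorem mono_act (β : Fin n → ℤ) (t : Tn n) (z : Fin n → ℂ) :
    mono β (act t z) = UnitAddTorus.mFourier β t * mono β z := by
  simp only [mono, act, mul_zpow, fourier_zpow, Finset.prod_mul_distrib]
  rfl

theorem norm_mono_act (β : Fin n → ℤ) (t : Tn n) (z : Fin n → ℂ) :
    ‖mono β (act t z)‖ = ‖mono β z‖ := by
  simp only [mono, norm_prod, norm_zpow, norm_act]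

theorem mono_add {z : Fin n → ℂ} (hz : Star z) (β γ : Fin n → ℤ) :
    mono (β + γ) z = mono β z * mono γ z := by
  simp only [mono, Pi.add_apply, ← Finset.prod_mul_distrib]
  exact Finset.prod_congr rfl fun j _ => zpow_add₀ (hz j) _ _

theorem mono_zero (z : Fin n → ℂ) : mono 0 z = 1 := by simp [mono]

theorem mono_ne_zero {z : Fin n → ℂ} (hz : Star z) (β : Fin n → ℤ) : mono β z ≠ 0 :=
  Finset.prod_ne_zero_iff.2 fun j _ => zpow_ne_zero _ (hz j)

theorem mono_neg_mul {z : Fin n → ℂ} (hz : Star z) (β : Fin n → ℤ) :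
    mono (-β) z * mono β z = 1 := by
  rw [← mono_add hz, neg_add_cancel, mono_zero]

theorem conj_mono {z : Fin n → ℂ} (hz : Star z) (β : Fin n → ℤ) :
    conj (mono β z) = mono (-β) z * ((‖mono β z‖ ^ 2 : ℝ) : ℂ) := by
  push_cast
  rw [← Complex.mul_conj', ← mul_assoc, mono_neg_mul hz, one_mul]

theorem differentiableAt_mono {β : Fin n → ℤ} {z : Fin n → ℂ} (h : ∀ j, z j ≠ 0 ∨ 0 ≤ β j) :
    DifferentiableAt ℂ (mono β) z := by
  unfold mono
  have h1 : ∀ j ∈ (Finset.univ : Finset (Fin n)),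
      DifferentiableAt ℂ (fun z : Fin n → ℂ => z j ^ β j) z := fun j _ =>
    DifferentiableAt.zpow (f := fun z : Fin n → ℂ => z j) (differentiableAt_apply j z) (h j)
  exact (HasFDerivAt.finsetProd fun j hj => (h1 j hj).hasFDerivAt).differentiableAt

theorem measurable_mono (β : Fin n → ℤ) : Measurable (mono β) := by
  unfold mono
  exact Finset.measurable_prod _ fun j _ => (measurable_pi_apply j).pow_const _

theorem continuous_act : Continuous fun p : Tn n × (Fin n → ℂ) => act p.1 p.2 := by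
  unfold act
  fun_prop

theorem avg_circle (ψ : ℂ → ℂ) (w : ℂ) :
    ∫ s : UnitAddCircle, ψ (fourier 1 s * w) ∂AddCircle.haarAddCircle =
      Real.circleAverage ψ 0 ‖w‖ := by
  rw [AddCircle.integral_haarAddCircle, inv_one, one_smul,
    ← AddCircle.intervalIntegral_preimage 1 0, Real.circleAverage_eq_integral_add (Complex.arg w)]
  have h := intervalIntegral.integral_comp_mul_left
    (fun θ => ψ (circleMap 0 ‖w‖ (θ + Complex.arg w))) (a := 0) (b := 1)
    (c := 2 * Real.pi) (by positivity)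
  rw [mul_zero, mul_one] at h
  rw [← h, zero_add]
  refine intervalIntegral.integral_congr fun x _ => ?_
  congr 1
  rw [fourier_coe_apply, circleMap, zero_add]
  conv_lhs => rw [← Complex.norm_mul_exp_arg_mul_I w]
  rw [mul_left_comm, ← Complex.exp_add]
  congr 2
  push_cast
  ring

/-- average over the torus orbit -/
noncomputable def Avg (H : (Fin n → ℂ) → ℂ) (z : Fin n → ℂ) : ℂ := ∫ t, H (act t z) ∂nu n

theorem act_single (t : Tn n) (j : Fin n) (s : UnitAddCircle) (z : Fin n → ℂ) :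
    act (t + Pi.single j s) z = update (act t z) j (fourier 1 s * act t z j) := by
  funext i
  by_cases h : i = j
  · subst h
    simp [act, AddCircle.toCircle_add]
    ring
  · simp [act, h]

theorem avg_single (G : Tn n → ℂ) (hG : Continuous G) (j : Fin n) :
    ∫ t, G t ∂nu n =
      ∫ t, ∫ s : UnitAddCircle, G (t + Pi.single j s) ∂AddCircle.haarAddCircle ∂nu n := by
  have h1 : ∀ s : UnitAddCircle, ∫ t, G (t + Pi.single j s) ∂nu n = ∫ t, G t ∂nu n := fun s =>
    integral_add_right_eq_self G _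
  have h0 : Continuous fun s : UnitAddCircle => (Pi.single j s : Tn n) :=
    continuous_single (A := fun _ : Fin n => UnitAddCircle) j
  have h0' : Continuous fun p : UnitAddCircle × Tn n => p.2 + (Pi.single j p.1 : Tn n) :=
    continuous_snd.add (h0.comp continuous_fst)
  have h2 : Continuous fun p : UnitAddCircle × Tn n => G (p.2 + Pi.single j p.1) :=
    hG.comp h0'
  have h3 : Integrable (uncurry fun (s : UnitAddCircle) (t : Tn n) =>
      G (t + Pi.single j s)) (AddCircle.haarAddCircle.prod (nu n)) :=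
    h2.integrable_of_hasCompactSupport (HasCompactSupport.of_compactSpace _)
  rw [← integral_integral_swap h3]
  simp only [h1]
  simp

theorem Avg_eq {H : (Fin n → ℂ) → ℂ} {z : Fin n → ℂ}
    (hH : Continuous fun t : Tn n => H (act t z)) (j : Fin n) :
    Avg H z = ∫ t, Real.circleAverage (fun ζ => H (update (act t z) j ζ)) 0 ‖z j‖ ∂nu n := by
  rw [Avg, avg_single _ hH j]
  refine integral_congr_ae (Eventually.of_forall fun t => ?_)
  simp only [act_single]
  rw [avg_circle (fun ζ => H (update (act t z) j ζ)), norm_act]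

theorem circleAverage_annulus {ψ : ℂ → ℂ} {r R : ℝ} (hr : 0 < r) (hR : 0 < R)
    (h : ∀ ζ : ℂ, ‖ζ‖ ∈ uIcc r R → DifferentiableAt ℂ ψ ζ) :
    Real.circleAverage ψ 0 r = Real.circleAverage ψ 0 R := by
  wlog hle : r ≤ R generalizing r R
  · exact (this hR hr (fun ζ hζ => h ζ (by rwa [uIcc_comm])) (not_le.1 hle).le).symm
  rw [uIcc_of_le hle] at h
  rw [Real.circleAverage_eq_circleIntegral hr.ne', Real.circleAverage_eq_circleIntegral hR.ne',
    Complex.circleIntegral_sub_center_inv_smul_eq_of_differentiable_on_annulus_off_countable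
      hr hle countable_empty]
  · intro ζ hζ
    refine (h ζ ?_).continuousAt.continuousWithinAt
    simpa [and_comm] using hζ
  · intro ζ hζ
    have h1 : ‖ζ‖ < R ∧ r < ‖ζ‖ := by simpa using hζ
    exact h ζ ⟨h1.2.le, h1.1.le⟩

/-- the `β`-th Laurent coefficient computed on the torus through `z` -/
noncomputable def cf (h : (Fin n → ℂ) → ℂ) (β : Fin n → ℤ) (z : Fin n → ℂ) : ℂ :=
  Avg (fun y => h y * mono (-β) y) z

section Coeff

variable {Ω : Set (Fin n → ℂ)} {h : (Fin n → ℂ) → ℂ}

theorem diffAt_aux (ho : IsOpen Ω) (hh : DifferentiableOn ℂ h Ω) {β : Fin n → ℤ}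
    {y : Fin n → ℂ} (hy : y ∈ Ω) (hs : ∀ j, y j ≠ 0 ∨ 0 ≤ β j) :
    DifferentiableAt ℂ (fun y => h y * mono β y) y :=
  ((hh y hy).differentiableAt (ho.mem_nhds hy)).mul (differentiableAt_mono hs)

theorem cont_aux (ho : IsOpen Ω) (hR : IsReinhardt Ω) (hh : DifferentiableOn ℂ h Ω)
    (β : Fin n → ℤ) {y : Fin n → ℂ} (hy : y ∈ Ω) (hs : Star y) :
    Continuous fun t : Tn n => h (act t y) * mono β (act t y) := by
  rw [continuous_iff_continuousAt]
  intro t
  have h1 : ContinuousAt (fun t : Tn n => act t y) t :=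
    (continuous_act.comp (f := fun t : Tn n => (t, y)) (by fun_prop)).continuousAt
  exact ContinuousAt.comp (f := fun t : Tn n => act t y) (g := fun y => h y * mono β y)
    (diffAt_aux ho hh ((hR.act_mem t).2 hy) fun j => Or.inl (hs.act t j)).continuousAt h1

theorem differentiableAt_update (y : Fin n → ℂ) (j : Fin n) (ζ : ℂ) :
    DifferentiableAt ℂ (fun ζ : ℂ => update y j ζ) ζ :=
  (hasFDerivAt_update y ζ).differentiableAt

theorem update_mem (hR : IsReinhardt Ω) {p y : Fin n → ℂ} {ε : ℝ} (hp : Metric.ball p ε ⊆ Ω)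
    (hy : y ∈ Metric.ball p ε) (j : Fin n) {a b : ℂ} (ha : a ∈ Metric.ball (p j) ε)
    (hb : b ∈ Metric.ball (p j) ε) (t : Tn n) {ζ : ℂ} (hζ : ‖ζ‖ ∈ uIcc ‖a‖ ‖b‖) :
    update (act t y) j ζ ∈ Ω := by
  have hε : 0 < ε := Metric.pos_of_mem_ball hy
  have h1 : (norm '' Metric.ball (p j) ε).OrdConnected :=
    ((convex_ball (p j) ε).isPreconnected.image _ continuous_norm.continuousOn).ordConnected
  obtain ⟨w, hw, hw2⟩ := h1.uIcc_subset ⟨a, ha, rfl⟩ ⟨b, hb, rfl⟩ hζ
  have h2 : update y j w ∈ Metric.ball p ε := by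
    rw [Metric.mem_ball, dist_pi_lt_iff hε] at hy ⊢
    intro i
    by_cases hi : i = j
    · subst hi; simpa using hw
    · simpa [hi] using hy i
  refine hR.of_norm (hp h2) fun i => ?_
  by_cases hi : i = j
  · subst hi; simpa using hw2.symm
  · simp [hi, norm_act]

theorem cf_update (ho : IsOpen Ω) (hR : IsReinhardt Ω) (hh : DifferentiableOn ℂ h Ω)
    (β : Fin n → ℤ) {p y : Fin n → ℂ} {ε : ℝ} (hp : Metric.ball p ε ⊆ Ω)
    (hy : y ∈ Metric.ball p ε) (hs : Star y) (j : Fin n) {w : ℂ}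
    (hy' : update y j w ∈ Metric.ball p ε) (hs' : Star (update y j w)) :
    cf h β (update y j w) = cf h β y := by
  have hε : 0 < ε := Metric.pos_of_mem_ball hy
  have hw0 : w ≠ 0 := by simpa using hs' j
  have ha : y j ∈ Metric.ball (p j) ε := (dist_pi_lt_iff hε).1 hy j
  have hb : w ∈ Metric.ball (p j) ε := by simpa using (dist_pi_lt_iff hε).1 hy' j
  rw [cf, cf, Avg_eq (cont_aux ho hR hh _ (hp hy') hs') j, Avg_eq (cont_aux ho hR hh _ (hp hy) hs) j]
  refine integral_congr_ae (Eventually.of_forall fun t => ?_)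
  have e : ∀ ζ, update (act t (update y j w)) j ζ = update (act t y) j ζ := by
    intro ζ
    funext i
    by_cases hi : i = j
    · subst hi; simp
    · simp [hi, act]
  simp only [e, update_self]
  refine circleAverage_annulus (norm_pos_iff.2 hw0) (norm_pos_iff.2 (hs j)) fun ζ hζ => ?_
  have h1 := update_mem hR hp hy j hb ha t hζ
  refine (diffAt_aux ho hh h1 fun i => Or.inl ?_).comp ζ (differentiableAt_update _ j ζ)
  by_cases hi : i = j
  · subst hi
    have : 0 < ‖ζ‖ := lt_of_lt_of_le (lt_min (norm_pos_iff.2 hw0) (norm_pos_iff.2 (hs i))) hζ.1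
    simpa using norm_pos_iff.1 this
  · simpa [hi] using hs.act t i

theorem cf_ball (ho : IsOpen Ω) (hR : IsReinhardt Ω) (hh : DifferentiableOn ℂ h Ω)
    (β : Fin n → ℤ) {p y y' : Fin n → ℂ} {ε : ℝ} (hp : Metric.ball p ε ⊆ Ω)
    (hy : y ∈ Metric.ball p ε) (hs : Star y) (hy' : y' ∈ Metric.ball p ε) (hs' : Star y') :
    cf h β y' = cf h β y := by
  have hε : 0 < ε := Metric.pos_of_mem_ball hy
  have m1 : ∀ s : Finset (Fin n), s.piecewise y' y ∈ Metric.ball p ε := by
    intro s
    rw [Metric.mem_ball, dist_pi_lt_iff hε] at hy hy' ⊢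
    intro i
    by_cases hi : i ∈ s
    · rw [Finset.piecewise_eq_of_mem _ _ _ hi]; exact hy' i
    · rw [Finset.piecewise_eq_of_notMem _ _ _ hi]; exact hy i
  have m2 : ∀ s : Finset (Fin n), Star (s.piecewise y' y) := by
    intro s i
    by_cases hi : i ∈ s
    · rw [Finset.piecewise_eq_of_mem _ _ _ hi]; exact hs' i
    · rw [Finset.piecewise_eq_of_notMem _ _ _ hi]; exact hs i
  have key : ∀ s : Finset (Fin n), cf h β (s.piecewise y' y) = cf h β y := by
    intro s
    induction s using Finset.induction_on with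
    | empty => rw [Finset.piecewise_empty]
    | insert j s _ ih =>
      have a1 := m1 (insert j s)
      have a2 := m2 (insert j s)
      rw [Finset.piecewise_insert] at a1 a2 ⊢
      rw [cf_update ho hR hh β hp (m1 s) (m2 s) j a1 a2, ih]
  simpa using key Finset.univ

theorem dense_star : Dense {z : Fin n → ℂ | Star z} := by
  have h := dense_pi (α := fun _ : Fin n => ℂ) (s := fun _ => ({0}ᶜ : Set ℂ)) univ
    fun _ _ => dense_compl_singleton 0
  refine h.mono fun z hz j => ?_
  simpa using hz j (mem_univ j)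

theorem cf_const (ho : IsOpen Ω) (hc : IsConnected Ω) (hR : IsReinhardt Ω)
    (hh : DifferentiableOn ℂ h Ω) (β : Fin n → ℤ) :
    ∃ c, ∀ z ∈ Ω, Star z → cf h β z = c := by
  have h1 : ∀ p ∈ Ω, ∃ c, ∀ᶠ z in 𝓝 p, Star z → cf h β z = c := by
    intro p hp
    obtain ⟨ε, hε, hb⟩ := Metric.isOpen_iff.1 ho p hp
    obtain ⟨y, hy1, hy2⟩ := dense_star.exists_mem_open Metric.isOpen_ball
      (Metric.nonempty_ball.2 hε : (Metric.ball p ε).Nonempty)
    refine ⟨cf h β y, ?_⟩
    filter_upwards [Metric.ball_mem_nhds p hε] with z hz hs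
    exact cf_ball ho hR hh β hb hy2 hy1 hz hs
  obtain ⟨p0, hp0⟩ := hc.nonempty
  obtain ⟨c0, hc0⟩ := h1 p0 hp0
  have h2 : Ω ⊆ {p | ∀ᶠ z in 𝓝 p, Star z → cf h β z = c0} := by
    refine IsPreconnected.subset_left_of_subset_union
      (v := ⋃ c ∈ ({c0}ᶜ : Set ℂ), {p | ∀ᶠ z in 𝓝 p, Star z → cf h β z = c})
      isOpen_setOfPred_eventually_nhds (isOpen_biUnion fun c _ => isOpen_setOfPred_eventually_nhds)
      ?_ ?_ ⟨p0, hp0, hc0⟩ hc.isPreconnected
    · rw [Set.disjoint_left]
      intro p hp1 hp2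
      obtain ⟨c, hc1, hc2⟩ := mem_iUnion₂.1 hp2
      have h3 : ∃ᶠ z in 𝓝 p, Star z := mem_closure_iff_frequently.1 (dense_star p)
      obtain ⟨z, hz1, hz2, hz3⟩ := (h3.and_eventually (Eventually.and hp1 hc2)).exists
      exact hc1 ((hz3 hz1).symm.trans (hz2 hz1))
    · intro p hp
      obtain ⟨c, hc1⟩ := h1 p hp
      by_cases h4 : c = c0
      · left; subst h4; exact hc1
      · right; exact mem_iUnion₂.2 ⟨c, h4, hc1⟩
  exact ⟨c0, fun z hz hs => (h2 hz).self_of_nhds hs⟩

/-- admissible exponents -/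
def Adm (Ω : Set (Fin n → ℂ)) (β : Fin n → ℤ) : Prop := ∀ z ∈ Ω, ∀ j, z j ≠ 0 ∨ 0 ≤ β j

theorem adm_of_cf (ho : IsOpen Ω) (hR : IsReinhardt Ω) (hh : DifferentiableOn ℂ h Ω)
    {β : Fin n → ℤ} {c : ℂ} (hc : ∀ z ∈ Ω, Star z → cf h β z = c) (h0 : c ≠ 0) : Adm Ω β := by
  intro p hp j
  by_contra hcon
  push Not at hcon
  obtain ⟨hpj, hβ⟩ := hcon
  obtain ⟨ε, hε, hb⟩ := Metric.isOpen_iff.1 ho p hp
  obtain ⟨y, hs, hy⟩ := dense_star.exists_mem_open Metric.isOpen_ball
    (Metric.nonempty_ball.2 hε : (Metric.ball p ε).Nonempty)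
  apply h0
  rw [← hc y (hb hy) hs, cf, Avg_eq (cont_aux ho hR hh _ (hb hy) hs) j]
  refine (integral_congr_ae (Eventually.of_forall fun t => ?_)).trans (integral_zero _ _)
  have ha : y j ∈ Metric.ball (p j) ε := (dist_pi_lt_iff hε).1 hy j
  have h1 : ∀ ζ : ℂ, ‖ζ‖ ≤ ‖y j‖ → DifferentiableAt ℂ
      (fun ζ => h (update (act t y) j ζ) * mono (-β) (update (act t y) j ζ)) ζ := by
    intro ζ hζ
    have h2 : update (act t y) j ζ ∈ Ω :=
      update_mem hR hb hy j (Metric.mem_ball_self hε) ha t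
        (by rw [hpj, norm_zero, uIcc_of_le (norm_nonneg _)]; exact ⟨norm_nonneg _, hζ⟩)
    refine (diffAt_aux ho hh h2 fun i => ?_).comp ζ (differentiableAt_update _ j ζ)
    by_cases hi : i = j
    · subst hi; right; simp only [Pi.neg_apply]; omega
    · left; simpa [hi] using Star.act hs t i
  rw [circleAverage_of_differentiable_on_off_countable countable_empty]
  · have : mono (-β) (update (act t y) j 0) = 0 := by
      refine Finset.prod_eq_zero (Finset.mem_univ j) ?_
      rw [update_self]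
      exact zero_zpow _ (by simp only [Pi.neg_apply]; omega)
    rw [this, mul_zero]
  · intro ζ hζ
    exact (h1 ζ (by simpa using hζ)).continuousAt.continuousWithinAt
  · intro ζ hζ
    have : ‖ζ‖ < ‖y j‖ := by simpa using hζ
    exact h1 ζ this.le

theorem const_of_cf (ho : IsOpen Ω) (hR : IsReinhardt Ω) (hh : DifferentiableOn ℂ h Ω)
    {z : Fin n → ℂ} (hz : z ∈ Ω) (hs : Star z) (h0 : ∀ β ≠ 0, cf h β z = 0) :
    h z = cf h 0 z := by
  have hc : Continuous fun t : Tn n => h (act t z) := by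
    simpa [mono_zero] using cont_aux ho hR hh 0 hz hs
  let F : C(Tn n, ℂ) := ⟨_, hc⟩
  have h1 : ∀ β, UnitAddTorus.mFourierCoeff F β = cf h β z * mono β z := by
    intro β
    change ∫ t, UnitAddTorus.mFourier (-β) t • h (act t z) ∂nu n = _
    rw [cf, Avg, ← integral_mul_const]
    refine integral_congr_ae (Eventually.of_forall fun t => ?_)
    simp only [mono_act, smul_eq_mul]
    linear_combination (-(UnitAddTorus.mFourier (-β) t * h (act t z))) * mono_neg_mul hs β
  have h2 : ∀ β ≠ 0, UnitAddTorus.mFourierCoeff F β = 0 := fun β hβ => by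
    rw [h1, h0 β hβ, zero_mul]
  have h3 := UnitAddTorus.hasSum_mFourier_series_apply_of_summable (f := F)
    (hasSum_single 0 h2).summable 0
  have h4 := hasSum_single (f := fun β => UnitAddTorus.mFourierCoeff F β •
    UnitAddTorus.mFourier β (0 : Tn n)) 0 fun β hβ => by rw [h2 β hβ, zero_smul]
  have h5 := h3.unique h4
  rw [h1, mono_zero, UnitAddTorus.mFourier_zero] at h5
  simpa [F, act_zero] using h5

end Coeff

end Pool.Agent.H434Z.Hankel
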