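import Mathlib

/-!
A 3-diregular oriented graph on 13 vertices without a Hamilton cycle (a splice of two Heawood
graphs: all its cycle factors are odd permutations).
-/

set_option autoImplicit false

namespace Pool.Agent.H434Z.Jackson

def outs : ℕ → List ℕ
  | 0 => [4, 8, 9]
  | 1 => [0, 5, 8]
  | 2 => [0, 4, 10]
  | 3 => [4, 5, 7]
  | 4 => [5, 9, 10]
  | 5 => [7, 8, 10]
  | 6 => [1, 2, 12]
  | 7 => [2, 6, 11]
  | 8 => [3, 11, 12]
  | 9 => [6, 7, 12]
  | 10 => [1, 3, 6]
  | 11 => [2, 3, 9]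
  | 12 => [0, 1, 11]
  | _ => []

def G : Digraph (Fin 13) := ⟨fun u v => v.val ∈ outs u.val⟩

instance : DecidableRel G.Adj := fun u v => inferInstanceAs (Decidable (v.val ∈ outs u.val))

def ext (s : ℕ) : ℕ → ℕ → ℕ → Bool
  | 0, v, _ => (outs v).any fun w => Nat.beq w s
  | k + 1, v, m => (outs v).any fun w => !(m.testBit w) && ext s k w (m ||| 2 ^ w)

theorem check : ∀ s : Fin 13, ext s.val 12 s.val (2 ^ s.val) = false := by decide +kernel

theorem ext_of (g : ℕ → ℕ) (hadj : ∀ i, i < 12 → g (i + 1) ∈ outs (g i)) (hlast : g 0 ∈ outs (g 12))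
    (hinj : ∀ i j, i ≤ 12 → j ≤ 12 → g i = g j → i = j) :
    ∀ k i m, i + k = 12 → (∀ w, m.testBit w = true → ∃ j, j ≤ i ∧ g j = w) →
      ext (g 0) k (g i) m = true := by
  intro k
  induction k with
  | zero =>
    intro i m hi _
    obtain rfl : i = 12 := by omega
    exact List.any_eq_true.2 ⟨_, hlast, by simp⟩
  | succ k ih =>
    intro i m hi hm
    refine List.any_eq_true.2 ⟨_, hadj i (by omega), ?_⟩
    rw [Bool.and_eq_true]
    refine ⟨?_, ih (i + 1) _ (by omega) fun w hw => ?_⟩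
    · cases h : m.testBit (g (i + 1))
      · rfl
      · obtain ⟨j, h1, h2⟩ := hm _ h
        have := hinj j (i + 1) (by omega) (by omega) h2
        omega
    · rw [Nat.testBit_or, Bool.or_eq_true] at hw
      rcases hw with hw | hw
      · obtain ⟨j, h1, h2⟩ := hm _ hw
        exact ⟨j, by omega, h2⟩
      · rw [Nat.testBit_two_pow] at hw
        exact ⟨i + 1, le_rfl, by simpa using hw⟩

theorem no_ham : ¬ ∃ f : Fin 13 → Fin 13, Function.Bijective f ∧
    ∀ i j : Fin 13, j.val = (i.val + 1) % 13 → G.Adj (f i) (f j) := by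
  rintro ⟨f, hf, h⟩
  let g : ℕ → ℕ := fun i => (f ⟨i % 13, Nat.mod_lt _ (by norm_num)⟩).val
  have := ext_of g (fun i hi => h _ _ (by show (i + 1) % 13 = (i % 13 + 1) % 13; omega))
    (h _ _ (by norm_num)) (fun i j hi hj e => by
      have := congrArg Fin.val (hf.1 (Fin.ext e))
      simp only at this
      omega) 12 0 (2 ^ g 0) rfl (fun w hw => by
      rw [Nat.testBit_two_pow] at hw
      exact ⟨0, le_rfl, by simpa using hw⟩)
  rw [check] at this
  exact absurd this (by simp)

theorem oriented : ∀ u v : Fin 13, G.Adj u v → ¬ G.Adj v u := by decide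

theorem outdeg (v : Fin 13) : Set.ncard {u : Fin 13 | G.Adj v u} = 3 := by
  rw [← Finset.coe_filter_univ, Set.ncard_coe_finset]
  revert v
  decide

theorem indeg (v : Fin 13) : Set.ncard {u : Fin 13 | G.Adj u v} = 3 := by
  rw [← Finset.coe_filter_univ, Set.ncard_coe_finset]
  revert v
  decide

end Pool.Agent.H434Z.Jackson
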