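import Mathlib

/-!
The lattices of local clones, local monoids and local permutation groups.
-/

set_option autoImplicit false

namespace Pool.Agent.H434Z.Loc

/-- Sets of finitary operations on `X`; the component `n` consists of `(n+1)`-ary operations. -/
abbrev Ops (X : Type) : Type := ∀ n : ℕ, Set ((Fin (n + 1) → X) → X)

/-- `C` contains the projections and is closed under composition. -/
def IsClone {X : Type} (C : Ops X) : Prop :=
  (∀ (n : ℕ) (i : Fin (n + 1)), (fun x : Fin (n + 1) → X => x i) ∈ C n) ∧
  ∀ (n m : ℕ) (f : (Fin (n + 1) → X) → X) (g : Fin (n + 1) → (Fin (m + 1) → X) → X),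
    f ∈ C n → (∀ i, g i ∈ C m) → (fun x : Fin (m + 1) → X => f (fun i => g i x)) ∈ C m

/-- Local clones (closed in each arity in the product topology), ordered by inclusion. -/
abbrev ClLoc (X : Type) [TopologicalSpace X] : Type :=
  {C : Ops X // IsClone C ∧ ∀ n, IsClosed (C n)}

/-- Transformation monoids closed in the product topology, ordered by inclusion. -/
abbrev MonLoc (X : Type) [TopologicalSpace X] : Type :=
  {M : Set (X → X) // id ∈ M ∧ (∀ f ∈ M, ∀ g ∈ M, f ∘ g ∈ M) ∧ IsClosed M}

/-- The topology on the permutations of `X` induced from the product topology on `X → X`. -/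
abbrev permTop (X : Type) [TopologicalSpace X] : TopologicalSpace (Equiv.Perm X) :=
  TopologicalSpace.induced (fun g : Equiv.Perm X => (g : X → X)) inferInstance

/-- Permutation groups closed in the space of all permutations, ordered by inclusion. -/
abbrev GrLoc (X : Type) [TopologicalSpace X] : Type :=
  {G : Subgroup (Equiv.Perm X) // @IsClosed _ (permTop X) (G : Set (Equiv.Perm X))}

/-- An injective map preserving binary meets and binary joins. -/
def IsLatticeEmb {L K : Type} [PartialOrder L] [PartialOrder K] (Φ : L → K) : Prop :=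
  Function.Injective Φ ∧ (∀ a b c : L, IsGLB {a, b} c → IsGLB {Φ a, Φ b} (Φ c)) ∧
    ∀ a b c : L, IsLUB {a, b} c → IsLUB {Φ a, Φ b} (Φ c)

end Pool.Agent.H434Z.Loc
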