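import Pool.Agent.H434Z.LocMon

/-!
Local monoids embed into local groups.
-/

set_option autoImplicit false

namespace Pool.Agent.H434Z.Loc

abbrev HH : Type := (ℕ × List ℕ) →₀ ℤ

noncomputable def bb (p : ℕ × List ℕ) : HH := Finsupp.single p 1

noncomputable def WW (M : Set (ℕ → ℕ)) : AddSubgroup (List ℕ → HH) :=
  AddSubgroup.closure {w | ∃ j, ∃ f ∈ M, w = fun a => bb (j, a.map f)}

def LocA (M : Set (ℕ → ℕ)) (T : HH → HH) : Prop :=
  (∀ x y, T (x + y) = T x + T y) ∧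
    ∀ (i : ℕ) (A : Set (List ℕ)), A.Finite → ∃ w ∈ WW M, ∀ a ∈ A, T (bb (i, a)) = w a

theorem gen_mem {M : Set (ℕ → ℕ)} (j : ℕ) {f : ℕ → ℕ} (hf : f ∈ M) :
    (fun a : List ℕ => bb (j, a.map f)) ∈ WW M := AddSubgroup.subset_closure ⟨j, f, hf, rfl⟩

theorem WW_mono {M N : Set (ℕ → ℕ)} (h : M ⊆ N) : WW M ≤ WW N :=
  AddSubgroup.closure_mono (by rintro _ ⟨j, f, hf, rfl⟩; exact ⟨j, f, h hf, rfl⟩)

theorem WW_ind {M : Set (ℕ → ℕ)} (P : (List ℕ → HH) → Prop)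
    (h1 : ∀ j, ∀ f ∈ M, P (fun a => bb (j, a.map f))) (h0 : P 0)
    (ha : ∀ w w', P w → P w' → P (w + w')) (hn : ∀ w, P w → P (-w)) {w : List ℕ → HH}
    (hw : w ∈ WW M) : P w := by
  induction hw using AddSubgroup.closure_induction with
  | mem w hw => obtain ⟨j, f, hf, rfl⟩ := hw; exact h1 j f hf
  | zero => exact h0
  | add w w' _ _ k1 k2 => exact ha w w' k1 k2
  | neg w _ k => exact hn w k

theorem ext_on (φ ψ : HH →+ HH) (x : HH) (h : ∀ p ∈ x.support, φ (bb p) = ψ (bb p)) :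
    φ x = ψ x := by
  have e : x = ∑ p ∈ x.support, x p • bb p := by
    conv_lhs => rw [← Finsupp.sum_single x]
    refine Finset.sum_congr rfl fun p _ => ?_
    rw [bb, Finsupp.smul_single, smul_eq_mul, mul_one]
  rw [e, map_sum, map_sum]
  refine Finset.sum_congr rfl fun p hp => ?_
  rw [map_zsmul, map_zsmul, h p hp]

theorem WW_pre {M : Set (ℕ → ℕ)} (hM : ∀ f ∈ M, ∀ g ∈ M, f ∘ g ∈ M) {f : ℕ → ℕ} (hf : f ∈ M)
    {w : List ℕ → HH} (hw : w ∈ WW M) : (fun a => w (a.map f)) ∈ WW M := by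
  refine WW_ind (fun w => (fun a : List ℕ => w (a.map f)) ∈ WW M) (fun j g hg => ?_) (WW M).zero_mem
    (fun w w' k1 k2 => (WW M).add_mem k1 k2) (fun w k => (WW M).neg_mem k) hw
  simp only [List.map_map]
  exact gen_mem j (hM g hg f hf)

theorem WW_post {M : Set (ℕ → ℕ)} (hM : ∀ f ∈ M, ∀ g ∈ M, f ∘ g ∈ M) {T : HH → HH}
    (hT : LocA M T) (A : Set (List ℕ)) (hA : A.Finite) {w : List ℕ → HH} (hw : w ∈ WW M) :
    ∃ w' ∈ WW M, ∀ a ∈ A, T (w a) = w' a := by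
  let T' : HH →+ HH := AddMonoidHom.mk' T hT.1
  refine WW_ind (fun w => ∃ w' ∈ WW M, ∀ a ∈ A, T (w a) = w' a) (fun j f hf => ?_)
    ⟨0, (WW M).zero_mem, fun a _ => T'.map_zero⟩ ?_ ?_ hw
  · obtain ⟨w, k1, k2⟩ := hT.2 j _ (hA.image (List.map f))
    exact ⟨_, WW_pre hM hf k1, fun a ha => k2 _ ⟨a, ha, rfl⟩⟩
  · rintro w w' ⟨u, k1, k2⟩ ⟨u', k3, k4⟩
    exact ⟨u + u', (WW M).add_mem k1 k3, fun a ha => by
      rw [Pi.add_apply, Pi.add_apply, hT.1, k2 a ha, k4 a ha]⟩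
  · rintro w ⟨u, k1, k2⟩
    exact ⟨-u, (WW M).neg_mem k1, fun a ha => by
      rw [Pi.neg_apply, Pi.neg_apply, ← k2 a ha]; exact T'.map_neg _⟩

theorem WW_supp {M : Set (ℕ → ℕ)} {w : List ℕ → HH} (hw : w ∈ WW M) (a : List ℕ) :
    ∀ p ∈ (w a).support, ∃ f ∈ M, p.2 = a.map f := by
  classical
  refine WW_ind (fun w => ∀ p ∈ (w a).support, ∃ f ∈ M, p.2 = a.map f) (fun j f hf p hp => ?_)
    (fun p hp => by simp at hp) (fun w w' k1 k2 p hp => ?_) (fun w k p hp => ?_) hw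
  · have := Finsupp.support_single_subset hp
    rw [Finset.mem_singleton] at this
    exact ⟨f, hf, by rw [this]⟩
  · rcases Finset.mem_union.1 (Finsupp.support_add hp) with h | h
    · exact k1 p h
    · exact k2 p h
  · rw [Pi.neg_apply, Finsupp.support_neg] at hp
    exact k p hp

def sel (a : List ℕ) (p : ℕ × List ℕ) : ℕ × List ℕ := (p.1, a.map (fun x => p.2.getD x 0))

theorem getD_range (f : ℕ → ℕ) {n x : ℕ} (hx : x < n) : ((List.range n).map f).getD x 0 = f x := by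
  simp [List.getD_eq_getElem?_getD, hx]

theorem WW_nat {M : Set (ℕ → ℕ)} {w : List ℕ → HH} (hw : w ∈ WW M) {n : ℕ} {a : List ℕ}
    (ha : ∀ x ∈ a, x < n) : w a = Finsupp.mapDomain (sel a) (w (List.range n)) := by
  refine WW_ind (fun w => w a = Finsupp.mapDomain (sel a) (w (List.range n))) (fun j f _ => ?_)
    (by simp) (fun w w' k1 k2 => ?_) (fun w k => ?_) hw
  · simp only [bb, Finsupp.mapDomain_single, sel]
    congr 2
    exact List.map_congr_left fun x hx => (getD_range f (ha x hx)).symm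
  · rw [Pi.add_apply, Pi.add_apply, Finsupp.mapDomain_add, ← k1, ← k2]
  · rw [Pi.neg_apply, Pi.neg_apply, k]
    exact ((Finsupp.mapDomain.addMonoidHom (sel a) : HH →+ HH).map_neg _).symm

theorem WW_of_supp {M : Set (ℕ → ℕ)} (x : HH) (a : List ℕ)
    (hx : ∀ p ∈ x.support, ∃ f ∈ M, p.2 = a.map f) : ∃ w ∈ WW M, w a = x := by
  choose! F hF1 hF2 using hx
  refine ⟨∑ p ∈ x.support, x p • (fun l : List ℕ => bb (p.1, l.map (F p))),
    (WW M).sum_mem fun p hp => (WW M).zsmul_mem (gen_mem _ (hF1 p hp)) _, ?_⟩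
  conv_rhs => rw [← Finsupp.sum_single x]
  rw [Finset.sum_apply]
  refine Finset.sum_congr rfl fun p hp => ?_
  rw [Pi.smul_apply, ← hF2 p hp, bb, Finsupp.smul_single, smul_eq_mul, mul_one]

theorem LocA.mono {M N : Set (ℕ → ℕ)} (h : M ⊆ N) {T : HH → HH} (hT : LocA M T) : LocA N T :=
  ⟨hT.1, fun i A hA => by
    obtain ⟨w, k1, k2⟩ := hT.2 i A hA
    exact ⟨w, WW_mono h k1, k2⟩⟩

theorem LocA.id {M : Set (ℕ → ℕ)} (h : id ∈ M) : LocA M (fun x => x) :=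
  ⟨fun _ _ => rfl, fun i _ _ => ⟨_, gen_mem i h, fun a _ => by simp⟩⟩

theorem LocA.comp {M : Set (ℕ → ℕ)} (hM : ∀ f ∈ M, ∀ g ∈ M, f ∘ g ∈ M) {T T' : HH → HH}
    (hT : LocA M T) (hT' : LocA M T') : LocA M (fun x => T (T' x)) :=
  ⟨fun x y => (congrArg T (hT'.1 x y)).trans (hT.1 _ _), fun i A hA => by
    obtain ⟨w, k1, k2⟩ := hT'.2 i A hA
    obtain ⟨w', k3, k4⟩ := WW_post hM hT A hA k1
    exact ⟨w', k3, fun a ha => (congrArg T (k2 a ha)).trans (k4 a ha)⟩⟩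

theorem LocA.closed {M : Set (ℕ → ℕ)} {T : HH → HH}
    (h : ∀ S : Set HH, S.Finite → ∃ T', LocA M T' ∧ ∀ x ∈ S, T' x = T x) : LocA M T := by
  refine ⟨fun x y => ?_, fun i A hA => ?_⟩
  · obtain ⟨T', k1, k2⟩ := h {x, y, x + y} (Set.toFinite _)
    rw [← k2 x (by simp), ← k2 y (by simp), ← k2 (x + y) (by simp), k1.1]
  · obtain ⟨T', k1, k2⟩ := h _ (hA.image fun a => bb (i, a))
    obtain ⟨w, k3, k4⟩ := k1.2 i A hA
    exact ⟨w, k3, fun a ha => by rw [← k2 _ ⟨a, ha, rfl⟩, k4 a ha]⟩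

theorem LocA.nat {M : Set (ℕ → ℕ)} {T : HH → HH} (hT : LocA M T) (i : ℕ) {n : ℕ} {a : List ℕ}
    (ha : ∀ x ∈ a, x < n) :
    T (bb (i, a)) = Finsupp.mapDomain (sel a) (T (bb (i, List.range n))) := by
  obtain ⟨w, k1, k2⟩ := hT.2 i {a, List.range n} (Set.toFinite _)
  rw [k2 a (by simp), k2 _ (by simp)]
  exact WW_nat k1 ha

theorem LocA.supp {M : Set (ℕ → ℕ)} {T : HH → HH} (hT : LocA M T) (i : ℕ) (a : List ℕ) :
    ∀ p ∈ (T (bb (i, a))).support, ∃ f ∈ M, p.2 = a.map f := by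
  obtain ⟨w, k1, k2⟩ := hT.2 i {a} (Set.toFinite _)
  rw [k2 a rfl]
  exact WW_supp k1 a

theorem bound_list (A : Set (List ℕ)) (hA : A.Finite) : ∃ n, ∀ a ∈ A, ∀ x ∈ a, x < n := by
  have : (⋃ a ∈ A, {x | x ∈ a}).Finite := hA.biUnion fun a _ => List.finite_toSet a
  obtain ⟨n, hn⟩ := this.bddAbove
  exact ⟨n + 1, fun a ha x hx => Nat.lt_succ_of_le (hn (Set.mem_biUnion ha hx))⟩

theorem LocA.branch {M : Set (ℕ → ℕ)} {T : HH → HH} (hT : LocA M T) (i n : ℕ) (p : ℕ × List ℕ)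
    (hp : p ∈ (T (bb (i, List.range n))).support) : ∃ h : ℕ → ℕ, p.2 = (List.range n).map h ∧
      ∀ m, ∃ k, m ≤ k ∧ ∃ q ∈ (T (bb (i, List.range k))).support, q.2 = (List.range k).map h := by
  classical
  have step : ∀ m (q : ℕ × List ℕ), q ∈ (T (bb (i, List.range m))).support →
      ∃ q' ∈ (T (bb (i, List.range (m + 1)))).support, sel (List.range m) q' = q := by
    intro m q hq
    rw [hT.nat i (n := m + 1) (fun x hx => by rw [List.mem_range] at hx; omega)] at hq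
    obtain ⟨q', k1, k2⟩ := Finset.mem_image.1 (Finsupp.mapDomain_support hq)
    exact ⟨q', k1, k2⟩
  choose nx hnx1 hnx2 using step
  let s : ∀ k : ℕ, {q : ℕ × List ℕ // q ∈ (T (bb (i, List.range (n + k)))).support} := fun k =>
    Nat.rec ⟨p, hp⟩ (fun k q => ⟨nx (n + k) q.1 q.2, hnx1 _ _ _⟩) k
  have hs : ∀ k, sel (List.range (n + k)) (s (k + 1)).1 = (s k).1 := fun k => hnx2 _ _ (s k).2
  have hs1 : ∀ k x, x < n + k → (s k).1.2.getD x 0 = (s (k + 1)).1.2.getD x 0 := by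
    intro k x hx
    rw [← hs k]
    exact getD_range _ hx
  have hs2 : ∀ k d x, x < n + k → (s k).1.2.getD x 0 = (s (k + d)).1.2.getD x 0 := by
    intro k d x hx
    induction d with
    | zero => rfl
    | succ d ih => rw [ih, hs1 (k + d) x (by omega)]; rfl
  have hs3 : ∀ k, (s k).1.2 = (List.range (n + k)).map (fun x => (s (x + 1)).1.2.getD x 0) := by
    intro k
    rw [← hs k]
    refine List.map_congr_left fun x hx => ?_
    rw [List.mem_range] at hx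
    rw [hs2 (k + 1) (x + 1) x (by omega), hs2 (x + 1) (k + 1) x (by omega)]
    exact congrArg (fun t => (s t).1.2.getD x 0) (Nat.add_comm (k + 1) (x + 1))
  exact ⟨_, hs3 0, fun m => ⟨n + m, by omega, (s m).1, (s m).2, hs3 m⟩⟩

theorem mem_of_branch {M : Set (ℕ → ℕ)} (hM : LocClosed M) {T : HH → HH} (hT : LocA M T) (i : ℕ)
    {h : ℕ → ℕ} (hh : ∀ m, ∃ k, m ≤ k ∧ ∃ q ∈ (T (bb (i, List.range k))).support,
      q.2 = (List.range k).map h) : h ∈ M := by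
  refine hM h fun S hS => ?_
  obtain ⟨m, hm⟩ := hS.bddAbove
  obtain ⟨k, hk, q, k1, k2⟩ := hh (m + 1)
  obtain ⟨f, k3, k4⟩ := hT.supp i _ q k1
  refine ⟨f, k3, fun x hx => ?_⟩
  have : x < k := by have := hm hx; omega
  rw [← getD_range f this, ← k4, k2, getD_range h this]

theorem LocA.inter {M N : Set (ℕ → ℕ)} (hM : LocClosed M) (hN : LocClosed N) {T : HH → HH}
    (h1 : LocA M T) (h2 : LocA N T) : LocA (M ∩ N) T := by
  refine ⟨h1.1, fun i A hA => ?_⟩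
  obtain ⟨n, hn⟩ := bound_list A hA
  obtain ⟨w, k1, k2⟩ := WW_of_supp (M := M ∩ N) (T (bb (i, List.range n))) (List.range n) (by
    intro p hp
    obtain ⟨h, e1, e2⟩ := h1.branch i n p hp
    exact ⟨h, ⟨mem_of_branch hM h1 i e2, mem_of_branch hN h2 i e2⟩, e1⟩)
  exact ⟨w, k1, fun a ha => by rw [h1.nat i (hn a ha), WW_nat k1 (hn a ha), k2]⟩

def grOf (M : MonL ℕ) : GrL HH :=
  ⟨{ carrier := {g | LocA M.1 g ∧ LocA M.1 (g⁻¹ : Equiv.Perm HH)}
     one_mem' := ⟨LocA.id M.2.1, LocA.id M.2.1⟩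
     mul_mem' := fun {a b} ha hb => ⟨LocA.comp (T := a) (T' := b) M.2.2.1 ha.1 hb.1, by
       rw [mul_inv_rev]
       exact LocA.comp (T := (b⁻¹ : Equiv.Perm HH)) (T' := (a⁻¹ : Equiv.Perm HH)) M.2.2.1 hb.2 ha.2⟩
     inv_mem' := fun {a} ha => ⟨ha.2, by rw [inv_inv]; exact ha.1⟩ }, by
    intro g hg
    refine ⟨LocA.closed fun S hS => ?_, LocA.closed fun S hS => ?_⟩
    · obtain ⟨h, k1, k2⟩ := hg S hS
      exact ⟨h, k1.1, k2⟩
    · obtain ⟨h, k1, k2⟩ := hg _ (hS.image (g⁻¹ : Equiv.Perm HH))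
      refine ⟨_, k1.2, fun x hx => ?_⟩
      have := k2 _ ⟨x, hx, rfl⟩
      rw [Equiv.Perm.inv_eq_iff_eq]
      exact (this.trans (g.apply_symm_apply x)).symm⟩

/-! ### Gates -/

open Classical in
noncomputable def EE (i j : ℕ) (f : ℕ → ℕ) : HH →+ HH :=
  Finsupp.liftAddHom fun p => (zmultiplesHom HH) (if p.1 = i then bb (j, p.2.map f) else 0)

theorem EE_bb (i j : ℕ) (f : ℕ → ℕ) (p : ℕ × List ℕ) :
    EE i j f (bb p) = if p.1 = i then bb (j, p.2.map f) else 0 := by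
  simp [EE, bb]

theorem EE_EE (i j k : ℕ) (f g : ℕ → ℕ) (x : HH) : EE k j f (EE i k g x) = EE i j (f ∘ g) x := by
  refine ext_on ((EE k j f).comp (EE i k g)) _ x fun p _ => ?_
  rw [AddMonoidHom.comp_apply, EE_bb, EE_bb]
  split_ifs
  · rw [EE_bb, if_pos rfl, List.map_map]
  · exact map_zero _

theorem EE_EE_ne {i j k k' : ℕ} (h : k' ≠ k) (f g : ℕ → ℕ) (x : HH) :
    EE k j f (EE i k' g x) = 0 := by
  refine ext_on ((EE k j f).comp (EE i k' g)) 0 x fun p _ => ?_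
  rw [AddMonoidHom.comp_apply, EE_bb]
  split_ifs
  · rw [EE_bb, if_neg h]; rfl
  · exact map_zero _

noncomputable def gateP {i j : ℕ} (h : i ≠ j) (f : ℕ → ℕ) : Equiv.Perm HH where
  toFun x := x + EE i j f x
  invFun x := x - EE i j f x
  left_inv x := by simp [EE_EE_ne h.symm]
  right_inv x := by simp [EE_EE_ne h.symm]

theorem gate_mem (M : MonL ℕ) {i j : ℕ} (h : i ≠ j) {f : ℕ → ℕ} (hf : f ∈ M.1) :
    gateP h f ∈ (grOf M).1 := by
  have key : ∀ k, ∃ w ∈ WW M.1, ∀ a, EE i j f (bb (k, a)) = w a := by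
    intro k
    by_cases hk : k = i
    · exact ⟨_, gen_mem j hf, fun a => by rw [EE_bb, if_pos hk]⟩
    · exact ⟨0, (WW M.1).zero_mem, fun a => by rw [EE_bb, if_neg hk]; rfl⟩
  constructor
  · refine ⟨fun x y => ?_, fun k A _ => ?_⟩
    · show x + y + EE i j f (x + y) = x + EE i j f x + (y + EE i j f y)
      rw [map_add]; abel
    · obtain ⟨w, k1, k2⟩ := key k
      refine ⟨_, (WW M.1).add_mem (gen_mem k M.2.1) k1, fun a _ => ?_⟩
      show bb (k, a) + EE i j f (bb (k, a)) = bb (k, a.map id) + w a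
      rw [k2, List.map_id]
  · refine ⟨fun x y => ?_, fun k A _ => ?_⟩
    · show x + y - EE i j f (x + y) = x - EE i j f x + (y - EE i j f y)
      rw [map_add]; abel
    · obtain ⟨w, k1, k2⟩ := key k
      refine ⟨_, (WW M.1).sub_mem (gen_mem k M.2.1) k1, fun a _ => ?_⟩
      show bb (k, a) - EE i j f (bb (k, a)) = bb (k, a.map id) - w a
      rw [k2, List.map_id]

theorem mem_of_gate (M : MonL ℕ) {f : ℕ → ℕ}
    (hf : gateP (show (0 : ℕ) ≠ 1 from by decide) f ∈ (grOf M).1) : f ∈ M.1 := by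
  refine M.2.2.2 f fun S hS => ?_
  obtain ⟨m, hm⟩ := hS.bddAbove
  obtain ⟨g, k1, k2⟩ := hf.1.supp 0 (List.range (m + 1)) (1, (List.range (m + 1)).map f) (by
    show _ ∈ (bb _ + EE 0 1 f (bb _)).support
    rw [EE_bb, if_pos rfl, Finsupp.mem_support_iff]
    simp [bb])
  refine ⟨g, k1, fun x hx => ?_⟩
  have : x < m + 1 := Nat.lt_succ_of_le (hm hx)
  rw [← getD_range g this, ← k2, getD_range f this]

def psiG (G : Subgroup (Equiv.Perm HH)) : Set (ℕ → ℕ) :=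
  {f | ∀ (i j : ℕ) (h : i ≠ j), gateP h f ∈ G}

def psiM (G : GrL HH) (hG : id ∈ psiG G.1) : MonL ℕ :=
  ⟨psiG G.1, hG, by
    intro f hf g hg i j h
    have h1 : i + j + 1 ≠ j := by omega
    have h2 : i ≠ i + j + 1 := by omega
    have := G.1.mul_mem (G.1.mul_mem (G.1.mul_mem (hf _ _ h1) (hg _ _ h2)) (G.1.inv_mem (hf _ _ h1)))
      (G.1.inv_mem (hg _ _ h2))
    convert this using 1
    ext1 x
    show x + EE i j (f ∘ g) x = gateP h1 f (gateP h2 g ((gateP h1 f).symm ((gateP h2 g).symm x)))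
    simp only [gateP, Equiv.coe_fn_mk, Equiv.coe_fn_symm_mk, map_add, map_sub, EE_EE,
      EE_EE_ne h1.symm, EE_EE_ne h2.symm, EE_EE_ne h.symm]
    abel, by
    intro f hf i j h
    refine G.2 _ fun S hS => ?_
    have h1 : (⋃ x ∈ S, ⋃ p ∈ (x.support : Set (ℕ × List ℕ)), {y | y ∈ p.2}).Finite :=
      hS.biUnion fun x _ => x.support.finite_toSet.biUnion fun p _ => List.finite_toSet _
    obtain ⟨g, k1, k2⟩ := hf _ h1
    refine ⟨_, k1 i j h, fun x hx => ?_⟩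
    show x + EE i j g x = x + EE i j f x
    congr 1
    refine ext_on _ _ x fun p hp => ?_
    rw [EE_bb, EE_bb, List.map_congr_left fun y hy => k2 y ?_]
    exact Set.mem_biUnion hx (Set.mem_biUnion (Finset.mem_coe.2 hp) hy)⟩

def Out (U : Set ℕ) (x : HH) : Prop := ∀ p ∈ x.support, p.1 ∉ U

def QQ (G : Subgroup (Equiv.Perm HH)) (U : Set ℕ) (R : HH →+ HH) : Prop :=
  (∀ x, Out U (R x)) ∧ (∀ x, Out U x → R x = 0) ∧ ∃ g ∈ G, ∀ x, g x = x + R x

theorem QQ.zero (G : Subgroup (Equiv.Perm HH)) (U : Set ℕ) : QQ G U 0 :=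
  ⟨fun x p hp => by simp at hp, fun _ _ => rfl, 1, G.one_mem, fun x => by simp⟩

theorem QQ.add {G : Subgroup (Equiv.Perm HH)} {U : Set ℕ} {R R' : HH →+ HH} (h : QQ G U R)
    (h' : QQ G U R') : QQ G U (R + R') := by
  classical
  obtain ⟨a1, a2, g, a3, a4⟩ := h
  obtain ⟨b1, b2, g', b3, b4⟩ := h'
  refine ⟨fun x p hp => ?_, fun x hx => by rw [AddMonoidHom.add_apply, a2 x hx, b2 x hx, add_zero],
    g * g', G.mul_mem a3 b3, fun x => ?_⟩
  · rcases Finset.mem_union.1 (Finsupp.support_add hp) with h | h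
    · exact a1 x p h
    · exact b1 x p h
  · rw [Equiv.Perm.mul_apply, a4, b4, map_add, a2 _ (b1 x), AddMonoidHom.add_apply]
    abel

theorem QQ.neg {G : Subgroup (Equiv.Perm HH)} {U : Set ℕ} {R : HH →+ HH} (h : QQ G U R) :
    QQ G U (-R) := by
  obtain ⟨a1, a2, g, a3, a4⟩ := h
  refine ⟨fun x p hp => ?_, fun x hx => by rw [AddMonoidHom.neg_apply, a2 x hx, neg_zero],
    g⁻¹, G.inv_mem a3, fun x => ?_⟩
  · rw [AddMonoidHom.neg_apply, Finsupp.support_neg] at hp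
    exact a1 x p hp
  · rw [Equiv.Perm.inv_eq_iff_eq, a4, AddMonoidHom.neg_apply, map_add, map_neg, a2 _ (a1 x)]
    abel

theorem QQ.gate {G : Subgroup (Equiv.Perm HH)} {U : Set ℕ} {i j : ℕ} (hi : i ∈ U) (hj : j ∉ U)
    {f : ℕ → ℕ} (hf : f ∈ psiG G) : QQ G U (EE i j f) := by
  classical
  have h : i ≠ j := fun e => hj (e ▸ hi)
  refine ⟨fun x => ?_, fun x hx => ext_on _ 0 x fun p hp => ?_, gateP h f, hf i j h, fun _ => rfl⟩
  · induction x using Finsupp.induction_linear with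
    | zero => intro p hp; simp at hp
    | add x y k1 k2 =>
      intro p hp
      rw [map_add] at hp
      rcases Finset.mem_union.1 (Finsupp.support_add hp) with h | h
      · exact k1 p h
      · exact k2 p h
    | single q c =>
      intro p hp
      have e : Finsupp.single q c = c • bb q := by
        rw [bb, Finsupp.smul_single, smul_eq_mul, mul_one]
      rw [e, map_zsmul, EE_bb] at hp
      have hp2 := Finsupp.support_smul hp
      split_ifs at hp2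
      · have := Finsupp.support_single_subset hp2
        rw [Finset.mem_singleton] at this
        rw [this]
        exact hj
      · simp at hp2
  · rw [EE_bb, if_neg (fun e => hx p hp (by rw [e]; exact hi))]
    rfl

noncomputable def md (s : ℕ → ℕ) : HH →+ HH :=
  Finsupp.mapDomain.addMonoidHom (fun p : ℕ × List ℕ => (s p.1, p.2))

theorem md_bb (s : ℕ → ℕ) (p : ℕ × List ℕ) : md s (bb p) = bb (s p.1, p.2) :=
  Finsupp.mapDomain_single

theorem md_eq (s : ℕ → ℕ) (x : HH) (h : ∀ p ∈ x.support, s p.1 = p.1) : md s x = x :=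
  ext_on (md s) (AddMonoidHom.id HH) x fun p hp => by rw [md_bb, h p hp]; rfl

theorem md_out (s : ℕ → ℕ) (U : Set ℕ) (h : ∀ j, s j ∉ U) (x : HH) : Out U (md s x) := by
  classical
  intro p hp
  obtain ⟨q, -, rfl⟩ := Finset.mem_image.1 (Finsupp.mapDomain_support hp)
  exact h _

theorem block1 {G : Subgroup (Equiv.Perm HH)} {M : Set (ℕ → ℕ)} (hM : M ⊆ psiG G) {U : Set ℕ}
    {i : ℕ} (hi : i ∈ U) {s : ℕ → ℕ} (hs : ∀ j, s j ∉ U) {w : List ℕ → HH} (hw : w ∈ WW M) :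
    ∃ R, QQ G U R ∧ ∀ p, R (bb p) = if p.1 = i then md s (w p.2) else 0 := by
  refine WW_ind (fun w => ∃ R, QQ G U R ∧ ∀ p, R (bb p) = if p.1 = i then md s (w p.2) else 0)
    (fun j f hf => ⟨_, QQ.gate hi (hs j) (hM hf), fun p => ?_⟩)
    ⟨0, QQ.zero G U, fun p => by simp⟩ ?_ ?_ hw
  · rw [EE_bb, md_bb]
  · rintro w w' ⟨R, k1, k2⟩ ⟨R', k3, k4⟩
    refine ⟨_, k1.add k3, fun p => ?_⟩
    rw [AddMonoidHom.add_apply, k2, k4]
    split_ifs <;> simp
  · rintro w ⟨R, k1, k2⟩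
    refine ⟨_, k1.neg, fun p => ?_⟩
    rw [AddMonoidHom.neg_apply, k2]
    split_ifs <;> simp

theorem block {G : Subgroup (Equiv.Perm HH)} {M : Set (ℕ → ℕ)} (hM : M ⊆ psiG G) {U : Set ℕ}
    {T : HH → HH} (hT : LocA M T) (N : ℕ) (A : Set (List ℕ)) (hA : A.Finite) {σ : ℕ → ℕ}
    (hσ : Function.Injective σ) (hσU : ∀ i < N, σ i ∈ U) {s : ℕ → ℕ} (hs : ∀ j, s j ∉ U) :
    ∃ R, QQ G U R ∧ ∀ x : HH, (∀ p ∈ x.support, p.1 < N ∧ p.2 ∈ A) → R (md σ x) = md s (T x) := by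
  have key : ∀ n ≤ N, ∃ R, QQ G U R ∧ ∀ i, ∀ a ∈ A,
      R (bb (σ i, a)) = if i < n then md s (T (bb (i, a))) else 0 := by
    intro n
    induction n with
    | zero => exact fun _ => ⟨0, QQ.zero G U, fun i a _ => by simp⟩
    | succ n ih =>
      intro hn
      obtain ⟨R, k1, k2⟩ := ih (by omega)
      obtain ⟨w, k3, k4⟩ := hT.2 n A hA
      obtain ⟨R', k5, k6⟩ := block1 hM (hσU n (by omega)) hs k3
      refine ⟨_, k1.add k5, fun i a ha => ?_⟩
      rw [AddMonoidHom.add_apply, k2 i a ha, k6]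
      rcases lt_trichotomy i n with h | h | h
      · rw [if_pos h, if_neg (fun e => h.ne (hσ e)), if_pos (by omega), add_zero]
      · subst h
        rw [if_neg (lt_irrefl _), if_pos rfl, if_pos (by omega), zero_add, k4 a ha]
      · rw [if_neg (by omega), if_neg (fun e => h.ne' (hσ e)), if_neg (by omega), add_zero]
  obtain ⟨R, k1, k2⟩ := key N le_rfl
  refine ⟨R, k1, fun x hx => ?_⟩
  refine ext_on (R.comp (md σ)) ((md s).comp (AddMonoidHom.mk' T hT.1)) x fun p hp => ?_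
  rw [AddMonoidHom.comp_apply, md_bb, k2 _ _ (hx p hp).2, if_pos (hx p hp).1]
  rfl

theorem grOf_le (c : MonL ℕ) (G : GrL HH) (h : c.1 ⊆ psiG G.1) : grOf c ≤ G := by
  intro g hg
  refine G.2 g fun S hS => ?_
  have hP : (⋃ x ∈ S, ((x.support : Set (ℕ × List ℕ)) ∪ (g x).support)).Finite :=
    hS.biUnion fun x _ => x.support.finite_toSet.union (g x).support.finite_toSet
  obtain ⟨m, hm⟩ := (hP.image Prod.fst).bddAbove
  have hA := hP.image Prod.snd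
  set A := Prod.snd '' (⋃ x ∈ S, ((x.support : Set (ℕ × List ℕ)) ∪ (g x).support)) with hAdef
  have hx1 : ∀ x ∈ S, ∀ p ∈ x.support, p.1 < m + 1 ∧ p.2 ∈ A := fun x hx p hp =>
    ⟨Nat.lt_succ_of_le (hm ⟨p, Set.mem_biUnion hx (Or.inl hp), rfl⟩),
      ⟨p, Set.mem_biUnion hx (Or.inl hp), rfl⟩⟩
  have hx2 : ∀ x ∈ S, ∀ p ∈ (g x).support, p.1 < m + 1 ∧ p.2 ∈ A := fun x hx p hp =>
    ⟨Nat.lt_succ_of_le (hm ⟨p, Set.mem_biUnion hx (Or.inr hp), rfl⟩),
      ⟨p, Set.mem_biUnion hx (Or.inr hp), rfl⟩⟩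
  let up : ℕ → ℕ := fun j => j + (m + 1)
  let cut : ℕ → ℕ := fun j => if j < m + 1 then j else 0
  have hup : Function.Injective up := fun a b e => by simpa [up] using e
  have hupU : ∀ j, up j ∉ {j | j < m + 1} := fun j => by
    show ¬ j + (m + 1) < m + 1
    omega
  have hupV : ∀ j < m + 1, up j ∈ {j | m + 1 ≤ j} := fun j _ => by
    show m + 1 ≤ j + (m + 1)
    omega
  have hcut : ∀ j, cut j ∉ {j | m + 1 ≤ j} := fun j => by
    simp only [cut, Set.mem_ofPred_eq, not_le]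
    split_ifs <;> omega
  obtain ⟨R1, q1, r1⟩ := block h (U := {j | j < m + 1}) hg.1 (m + 1) A hA Function.injective_id
    (fun i hi => hi) hupU
  obtain ⟨R2, q2, r2⟩ := block h (U := {j | m + 1 ≤ j}) hg.2 (m + 1) A hA hup hupV hcut
  obtain ⟨R3, q3, r3⟩ := block h (U := {j | m + 1 ≤ j}) (LocA.id c.2.1) (m + 1) A hA hup hupV hcut
  obtain ⟨R4, q4, r4⟩ := block h (U := {j | j < m + 1}) (LocA.id c.2.1) (m + 1) A hA
    Function.injective_id (fun i hi => hi) hupU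
  obtain ⟨g1, m1, e1⟩ := q1.2.2
  obtain ⟨g2, m2, e2⟩ := q2.neg.2.2
  obtain ⟨g3, m3, e3⟩ := q3.2.2
  obtain ⟨g4, m4, e4⟩ := q4.neg.2.2
  refine ⟨g4 * g3 * g2 * g1, G.1.mul_mem (G.1.mul_mem (G.1.mul_mem m4 m3) m2) m1, fun x hx => ?_⟩
  have c1 : md cut x = x := md_eq _ _ fun p hp => if_pos (hx1 x hx p hp).1
  have c2 : md cut (g x) = g x := md_eq _ _ fun p hp => if_pos (hx2 x hx p hp).1
  have s1 : R1 x = md up (g x) := by
    rw [← r1 x (hx1 x hx), md_eq id x fun _ _ => rfl]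
  have s2 : R2 (md up (g x)) = x := by
    rw [r2 _ (hx2 x hx)]
    exact (congrArg (md cut) (g.symm_apply_apply x)).trans c1
  have s2' : R2 x = 0 := q2.2.1 x fun p hp => not_le.2 (hx1 x hx p hp).1
  have s3 : R3 (md up (g x)) = g x := by rw [r3 _ (hx2 x hx), c2]
  have s4 : R4 (g x) = md up (g x) := by
    rw [← r4 _ (hx2 x hx), md_eq id _ fun _ _ => rfl]
  have s4' : R4 (md up (g x)) = 0 := q4.2.1 _ (md_out _ _ hupU _)
  have t2 : g2 (g1 x) = md up (g x) := by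
    rw [e2, e1, s1, AddMonoidHom.neg_apply, map_add, s2, s2']
    abel
  rw [Equiv.Perm.mul_apply, Equiv.Perm.mul_apply, Equiv.Perm.mul_apply, t2, e4, e3, s3,
    AddMonoidHom.neg_apply, map_add, s4, s4']
  abel

theorem grOf_emb : IsLatticeEmb grOf := by
  refine emb_of (fun a b => ⟨fun h f hf => mem_of_gate b (h (gate_mem a _ hf)),
    fun h g hg => ⟨hg.1.mono h, hg.2.mono h⟩⟩) (fun a b => ?_) (fun a b k ha hb => ?_)
  · refine ⟨⟨a.1 ∩ b.1, ⟨a.2.1, b.2.1⟩, fun f hf g hg => ⟨a.2.2.1 f hf.1 g hg.1,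
      b.2.2.1 f hf.2 g hg.2⟩, fun f hf => ⟨a.2.2.2 f fun S hS => ?_, b.2.2.2 f fun S hS => ?_⟩⟩,
      fun f hf => hf.1, fun f hf => hf.2, fun k h1 h2 g hg =>
        ⟨LocA.inter a.2.2.2 b.2.2.2 (h1 hg).1 (h2 hg).1,
          LocA.inter a.2.2.2 b.2.2.2 (h1 hg).2 (h2 hg).2⟩⟩
    · obtain ⟨g, k1, k2⟩ := hf S hS
      exact ⟨g, k1.1, k2⟩
    · obtain ⟨g, k1, k2⟩ := hf S hS
      exact ⟨g, k1.2, k2⟩
  · have key : ∀ c : MonL ℕ, grOf c ≤ k → c.1 ⊆ psiG k.1 :=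
      fun c hc f hf i j h => hc (gate_mem c h hf)
    exact ⟨psiM k (key a ha a.2.1), key a ha, key b hb, fun c hc => grOf_le c k hc⟩

/-! ### Conclusion -/

section Final

variable (X : Type) [Countable X] [Infinite X] [TopologicalSpace X] [DiscreteTopology X]

instance : Infinite (YY X) :=
  Infinite.of_injective (fun x : X => (some ⟨0, fun _ => x⟩ : YY X)) fun _ _ h =>
    congrFun (eq_of_heq (Sigma.mk.inj (Option.some.inj h)).2) 0

theorem cl_emb : ∃ Φ : ClLoc X → ClL X, IsLatticeEmb Φ :=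
  ⟨fun C => ⟨C.1, C.2.1, fun n => (isClosed_iff_loc _).1 (C.2.2 n)⟩, emb_of_surj (fun _ _ => Iff.rfl)
    fun C => ⟨⟨C.1, C.2.1, fun n => (isClosed_iff_loc _).2 (C.2.2 n)⟩, rfl⟩⟩

theorem mon_emb : ∃ Φ : MonL X → MonLoc X, IsLatticeEmb Φ :=
  ⟨fun M => ⟨M.1, M.2.1, M.2.2.1, (isClosed_iff_loc _).2 M.2.2.2⟩, emb_of_surj (fun _ _ => Iff.rfl)
    fun M => ⟨⟨M.1, M.2.1, M.2.2.1, (isClosed_iff_loc _).1 M.2.2.2⟩, rfl⟩⟩

theorem gr_emb : ∃ Φ : GrL X → GrLoc X, IsLatticeEmb Φ :=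
  ⟨fun G => ⟨G.1, (isClosed_iff_gr _).2 G.2⟩, emb_of_surj (fun _ _ => Iff.rfl)
    fun G => ⟨⟨G.1, (isClosed_iff_gr _).1 G.2⟩, rfl⟩⟩

theorem main_mon : ∃ Φ : ClLoc X → MonLoc X, IsLatticeEmb Φ := by
  obtain ⟨Φ1, h1⟩ := cl_emb X
  obtain ⟨Φ2, h2⟩ := mon_emb X
  obtain ⟨e⟩ : Nonempty (YY X ≃ X) := nonempty_equiv_of_countable
  exact ⟨_, ((h1.comp monOf_emb).comp (monT_emb e)).comp h2⟩

theorem main_gr : ∃ Φ : ClLoc X → GrLoc X, IsLatticeEmb Φ := by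
  obtain ⟨Φ1, h1⟩ := cl_emb X
  obtain ⟨Φ2, h2⟩ := gr_emb X
  obtain ⟨e⟩ : Nonempty (YY X ≃ ℕ) := nonempty_equiv_of_countable
  obtain ⟨e'⟩ : Nonempty (HH ≃ X) := nonempty_equiv_of_countable
  exact ⟨_, ((((h1.comp monOf_emb).comp (monT_emb e)).comp grOf_emb).comp (grT_emb e')).comp h2⟩

end Final

end Pool.Agent.H434Z.Loc
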