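import Pool.Agent.H434Z.LocDefs

/-!
Local clones embed into local monoids.
-/

set_option autoImplicit false

namespace Pool.Agent.H434Z.Loc

def LocClosed {A B : Type} (M : Set (A → B)) : Prop :=
  ∀ f : A → B, (∀ S : Set A, S.Finite → ∃ g ∈ M, ∀ a ∈ S, g a = f a) → f ∈ M

theorem mem_closure_iff_loc {A B : Type} [TopologicalSpace B] [DiscreteTopology B]
    (M : Set (A → B)) (f : A → B) :
    f ∈ closure M ↔ ∀ S : Set A, S.Finite → ∃ g ∈ M, ∀ a ∈ S, g a = f a := by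
  rw [mem_closure_iff_nhds]
  constructor
  · intro h S hS
    obtain ⟨g, hg1, hg2⟩ := h (Set.pi S (fun a => {f a}))
      (set_pi_mem_nhds hS fun a _ => (isOpen_discrete _).mem_nhds rfl)
    exact ⟨g, hg2, fun a ha => hg1 a ha⟩
  · intro h t ht
    rw [nhds_pi, Filter.mem_pi] at ht
    obtain ⟨I, hI, u, hu, hsub⟩ := ht
    obtain ⟨g, hg1, hg2⟩ := h I hI
    refine ⟨g, hsub fun a ha => ?_, hg1⟩
    rw [hg2 a ha]
    exact mem_of_mem_nhds (hu a)

theorem isClosed_iff_loc {A B : Type} [TopologicalSpace B] [DiscreteTopology B]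
    (M : Set (A → B)) : IsClosed M ↔ LocClosed M := by
  rw [← closure_subset_iff_isClosed]
  exact ⟨fun h f hf => h ((mem_closure_iff_loc M f).2 hf),
    fun h f hf => h f ((mem_closure_iff_loc M f).1 hf)⟩

def GrClosed {Z : Type} (G : Subgroup (Equiv.Perm Z)) : Prop :=
  ∀ g : Equiv.Perm Z, (∀ S : Set Z, S.Finite → ∃ h ∈ G, ∀ a ∈ S, h a = g a) → g ∈ G

theorem isClosed_iff_gr {Z : Type} [TopologicalSpace Z] [DiscreteTopology Z]
    (G : Subgroup (Equiv.Perm Z)) :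
    @IsClosed _ (permTop Z) (G : Set (Equiv.Perm Z)) ↔ GrClosed G := by
  let _ := permTop Z
  have hi : Topology.IsInducing (fun g : Equiv.Perm Z => (g : Z → Z)) := ⟨rfl⟩
  rw [← closure_subset_iff_isClosed, hi.closure_eq_preimage_closure_image]
  constructor
  · intro h g hg
    refine h ((mem_closure_iff_loc _ _).2 fun S hS => ?_)
    obtain ⟨k, hk1, hk2⟩ := hg S hS
    exact ⟨k, ⟨k, hk1, rfl⟩, hk2⟩
  · intro h g hg
    refine h g fun S hS => ?_
    obtain ⟨_, ⟨k, hk1, rfl⟩, hk2⟩ := (mem_closure_iff_loc _ _).1 hg S hS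
    exact ⟨k, hk1, hk2⟩

abbrev ClL (X : Type) : Type := {C : Ops X // IsClone C ∧ ∀ n, LocClosed (C n)}

abbrev MonL (X : Type) : Type :=
  {M : Set (X → X) // id ∈ M ∧ (∀ f ∈ M, ∀ g ∈ M, f ∘ g ∈ M) ∧ LocClosed M}

abbrev GrL (X : Type) : Type := {G : Subgroup (Equiv.Perm X) // GrClosed G}

section General

variable {L K J : Type} [PartialOrder L] [PartialOrder K] [PartialOrder J]

theorem IsLatticeEmb.comp {Φ : L → K} {Ψ : K → J} (h1 : IsLatticeEmb Φ) (h2 : IsLatticeEmb Ψ) :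
    IsLatticeEmb (fun a => Ψ (Φ a)) :=
  ⟨h2.1.comp h1.1, fun a b c h => h2.2.1 _ _ _ (h1.2.1 a b c h),
    fun a b c h => h2.2.2 _ _ _ (h1.2.2 a b c h)⟩

theorem emb_of {Φ : L → K} (hm : ∀ a b, Φ a ≤ Φ b ↔ a ≤ b)
    (hinf : ∀ a b, ∃ c, c ≤ a ∧ c ≤ b ∧ ∀ k, k ≤ Φ a → k ≤ Φ b → k ≤ Φ c)
    (hsup : ∀ a b k, Φ a ≤ k → Φ b ≤ k → ∃ d, a ≤ d ∧ b ≤ d ∧ ∀ c, c ≤ d → Φ c ≤ k) :
    IsLatticeEmb Φ := by
  refine ⟨fun a b h => le_antisymm ((hm a b).1 h.le) ((hm b a).1 h.ge), fun a b c h => ⟨?_, ?_⟩,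
    fun a b c h => ⟨?_, ?_⟩⟩
  · rintro _ (rfl | rfl)
    · exact (hm _ _).2 (h.1 (Or.inl rfl))
    · exact (hm _ _).2 (h.1 (Or.inr rfl))
  · intro k hk
    obtain ⟨d, h1, h2, h3⟩ := hinf a b
    refine (h3 k (hk (Or.inl rfl)) (hk (Or.inr rfl))).trans ((hm _ _).2 (h.2 ?_))
    rintro _ (rfl | rfl)
    · exact h1
    · exact h2
  · rintro _ (rfl | rfl)
    · exact (hm _ _).2 (h.1 (Or.inl rfl))
    · exact (hm _ _).2 (h.1 (Or.inr rfl))
  · intro k hk
    obtain ⟨d, h1, h2, h3⟩ := hsup a b k (hk (Or.inl rfl)) (hk (Or.inr rfl))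
    refine h3 c (h.2 ?_)
    rintro _ (rfl | rfl)
    · exact h1
    · exact h2

theorem emb_of_surj {Φ : L → K} (hm : ∀ a b, Φ a ≤ Φ b ↔ a ≤ b) (hs : Function.Surjective Φ) :
    IsLatticeEmb Φ := by
  refine ⟨fun a b h => le_antisymm ((hm a b).1 h.le) ((hm b a).1 h.ge), fun a b c h => ⟨?_, ?_⟩,
    fun a b c h => ⟨?_, ?_⟩⟩
  · rintro _ (rfl | rfl)
    · exact (hm _ _).2 (h.1 (Or.inl rfl))
    · exact (hm _ _).2 (h.1 (Or.inr rfl))
  · intro k hk
    obtain ⟨d, rfl⟩ := hs k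
    refine (hm _ _).2 (h.2 ?_)
    rintro _ (rfl | rfl)
    · exact (hm _ _).1 (hk (Or.inl rfl))
    · exact (hm _ _).1 (hk (Or.inr rfl))
  · rintro _ (rfl | rfl)
    · exact (hm _ _).2 (h.1 (Or.inl rfl))
    · exact (hm _ _).2 (h.1 (Or.inr rfl))
  · intro k hk
    obtain ⟨d, rfl⟩ := hs k
    refine (hm _ _).2 (h.2 ?_)
    rintro _ (rfl | rfl)
    · exact (hm _ _).1 (hk (Or.inl rfl))
    · exact (hm _ _).1 (hk (Or.inr rfl))

end General

/-! ### Transport along bijections -/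

def monT {Y Z : Type} (e : Y ≃ Z) (M : MonL Y) : MonL Z :=
  ⟨{f | (fun y => e.symm (f (e y))) ∈ M.1}, by
    refine ⟨?_, fun f hf g hg => ?_, fun f hf => ?_⟩
    · have : (fun y => e.symm (id (e y))) = id := funext fun y => by simp
      show _ ∈ M.1
      rw [this]
      exact M.2.1
    · have := M.2.2.1 _ hf _ hg
      show _ ∈ M.1
      convert this using 1
      funext y
      simp
    · refine M.2.2.2 _ fun S hS => ?_
      obtain ⟨g, hg1, hg2⟩ := hf (e '' S) (hS.image e)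
      exact ⟨_, hg1, fun a ha => by rw [hg2 _ ⟨a, ha, rfl⟩]⟩⟩

theorem monT_monT {Y Z : Type} (e : Y ≃ Z) (M : MonL Z) : monT e (monT e.symm M) = M := by
  apply Subtype.ext
  ext f
  simp [monT]

theorem monT_emb {Y Z : Type} (e : Y ≃ Z) : IsLatticeEmb (monT e) := by
  refine emb_of_surj (fun a b => ⟨fun h => ?_, fun h f hf => h hf⟩) (fun M => ⟨_, monT_monT e M⟩)
  have h1 : monT e.symm (monT e a) ≤ monT e.symm (monT e b) := fun f hf =>
    @h (fun y => e.symm.symm (f (e.symm y))) hf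
  have h2 := monT_monT e.symm a
  have h3 := monT_monT e.symm b
  rw [Equiv.symm_symm] at h2 h3
  rwa [h2, h3] at h1

def grT {Y Z : Type} (e : Y ≃ Z) (G : GrL Y) : GrL Z :=
  ⟨G.1.comap (e.symm.permCongrHom : Equiv.Perm Z ≃* Equiv.Perm Y).toMonoidHom, by
    intro g hg
    refine G.2 _ fun S hS => ?_
    obtain ⟨h, h1, h2⟩ := hg (e '' S) (hS.image e)
    refine ⟨_, h1, fun a ha => ?_⟩
    show e.symm (h (e a)) = e.symm (g (e a))
    rw [h2 _ ⟨a, ha, rfl⟩]⟩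

theorem grT_grT {Y Z : Type} (e : Y ≃ Z) (G : GrL Z) : grT e (grT e.symm G) = G := by
  apply Subtype.ext
  ext g
  show _ ∈ G.1 ↔ _
  refine iff_of_eq (congrArg (· ∈ G.1) ?_)
  ext z
  show e (e.symm (g (e (e.symm z)))) = g z
  simp

theorem grT_emb {Y Z : Type} (e : Y ≃ Z) : IsLatticeEmb (grT e) := by
  refine emb_of_surj (fun a b => ⟨fun h => ?_, fun h f hf => h hf⟩) (fun M => ⟨_, grT_grT e M⟩)
  have h1 : grT e.symm (grT e a) ≤ grT e.symm (grT e b) := fun f hf => h hf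
  have h2 := grT_grT e.symm a
  have h3 := grT_grT e.symm b
  rw [Equiv.symm_symm] at h2 h3
  rwa [h2, h3] at h1

/-! ### Clones as monoids -/

section Hat

variable {X : Type}

abbrev YY (X : Type) : Type := Option (Σ n : ℕ, Fin (n + 1) → X)

def IsHat {n m : ℕ} (F : Fin (m + 1) → (Fin (n + 1) → X) → X) (φ : YY X → YY X) : Prop :=
  (∀ x, φ (some ⟨n, x⟩) = some ⟨m, fun j => F j x⟩) ∧ ∀ y, y.map Sigma.fst ≠ some n → φ y = none

theorem yy_cases (n : ℕ) (y : YY X) : (∃ x, y = some ⟨n, x⟩) ∨ y.map Sigma.fst ≠ some n := by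
  rcases y with _ | ⟨k, x⟩
  · exact Or.inr (by simp)
  · by_cases h : k = n
    · subst h
      exact Or.inl ⟨x, rfl⟩
    · exact Or.inr (by simpa using h)

theorem exists_hat {n m : ℕ} (F : Fin (m + 1) → (Fin (n + 1) → X) → X) : ∃ φ, IsHat F φ := by
  classical
  refine ⟨fun y => if h : ∃ x, y = some ⟨n, x⟩ then some ⟨m, fun j => F j h.choose⟩ else none,
    fun x => ?_, fun y hy => ?_⟩
  · have h : ∃ x', (some ⟨n, x⟩ : YY X) = some ⟨n, x'⟩ := ⟨x, rfl⟩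
    have h2 : h.choose = x := by
      exact (eq_of_heq (Sigma.mk.inj (Option.some.inj h.choose_spec)).2).symm
    simp only [dif_pos h, h2]
  · refine dif_neg ?_
    rintro ⟨x, rfl⟩
    exact hy rfl

noncomputable def hat {n m : ℕ} (F : Fin (m + 1) → (Fin (n + 1) → X) → X) : YY X → YY X :=
  (exists_hat F).choose

theorem hat_isHat {n m : ℕ} (F : Fin (m + 1) → (Fin (n + 1) → X) → X) : IsHat F (hat F) :=
  (exists_hat F).choose_spec

theorem IsHat.eq {n m : ℕ} {F : Fin (m + 1) → (Fin (n + 1) → X) → X} {φ : YY X → YY X}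
    (h : IsHat F φ) : φ = hat F := by
  funext y
  rcases yy_cases n y with ⟨x, rfl⟩ | hy
  · rw [h.1, (hat_isHat F).1]
  · rw [h.2 y hy, (hat_isHat F).2 y hy]

theorem hat_none {n m : ℕ} (F : Fin (m + 1) → (Fin (n + 1) → X) → X) : hat F none = none :=
  (hat_isHat F).2 none (by simp)

theorem hat_comp {n m k : ℕ} (F : Fin (k + 1) → (Fin (m + 1) → X) → X)
    (G : Fin (m + 1) → (Fin (n + 1) → X) → X) :
    hat F ∘ hat G = hat (fun j x => F j (fun i => G i x)) := by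
  refine IsHat.eq ⟨fun x => ?_, fun y hy => ?_⟩
  · rw [Function.comp_apply, (hat_isHat G).1, (hat_isHat F).1]
  · rw [Function.comp_apply, (hat_isHat G).2 y hy, hat_none]

theorem hat_comp_ne {n m m' k : ℕ} (F : Fin (k + 1) → (Fin (m' + 1) → X) → X)
    (G : Fin (m + 1) → (Fin (n + 1) → X) → X) (h : m ≠ m') : hat F ∘ hat G = fun _ => none := by
  funext y
  rcases yy_cases n y with ⟨x, rfl⟩ | hy
  · rw [Function.comp_apply, (hat_isHat G).1, (hat_isHat F).2 _ (by simpa using h)]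
  · rw [Function.comp_apply, (hat_isHat G).2 y hy, hat_none]

theorem hat_spec {n m n' m' : ℕ} {F : Fin (m' + 1) → (Fin (n' + 1) → X) → X} {x : Fin (n + 1) → X}
    {z : Fin (m + 1) → X} (h : hat F (some ⟨n, x⟩) = some ⟨m, z⟩) : n' = n ∧ m' = m := by
  by_cases hn : n' = n
  · subst hn
    rw [(hat_isHat F).1] at h
    simp only [Option.some.injEq, Sigma.mk.injEq] at h
    exact ⟨rfl, h.1⟩
  · rw [(hat_isHat F).2 _ (by simpa using fun e => hn e.symm)] at h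
    exact absurd h (by simp)

def monSet (C : Ops X) : Set (YY X → YY X) :=
  {φ | φ = id ∨ φ = (fun _ => none) ∨
    ∃ (n m : ℕ) (F : Fin (m + 1) → (Fin (n + 1) → X) → X), (∀ j, F j ∈ C n) ∧ φ = hat F}

theorem hat_mem_iff [Nonempty X] (C : Ops X) {n m : ℕ} (F : Fin (m + 1) → (Fin (n + 1) → X) → X) :
    hat F ∈ monSet C ↔ ∀ j, F j ∈ C n := by
  refine ⟨?_, fun h => Or.inr (Or.inr ⟨n, m, F, h, rfl⟩)⟩
  obtain ⟨x0⟩ : Nonempty X := inferInstance
  rintro (h | h | ⟨n', m', F', h1, h2⟩)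
  · have := (hat_isHat F).2 (some ⟨n + 1, fun _ => x0⟩) (by simp)
    rw [h] at this
    exact absurd this (by simp)
  · have := (hat_isHat F).1 (fun _ => x0)
    rw [h] at this
    exact absurd this (by simp)
  · have h3 := (hat_isHat F).1 (fun _ => x0)
    rw [h2] at h3
    obtain ⟨rfl, rfl⟩ := hat_spec h3
    intro j
    have : F j = F' j := by
      funext x
      have h4 := (hat_isHat F).1 x
      rw [h2, (hat_isHat F').1] at h4
      simp only [Option.some.injEq, Sigma.mk.injEq, heq_eq_eq, true_and] at h4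
      exact (congrFun h4 j).symm
    rw [this]
    exact h1 j

theorem monSet_closed (C : ClL X) : LocClosed (monSet C.1) := by
  intro φ hφ
  by_cases h1 : φ = id
  · exact Or.inl h1
  by_cases h2 : φ = fun _ => none
  · exact Or.inr (Or.inl h2)
  obtain ⟨y1, hy1⟩ := Function.ne_iff.1 h1
  obtain ⟨y2, hy2⟩ := Function.ne_iff.1 h2
  have key : ∀ S : Set (YY X), S.Finite → ∃ (n m : ℕ) (F : Fin (m + 1) → (Fin (n + 1) → X) → X),
      (∀ j, F j ∈ C.1 n) ∧ hat F y2 = φ y2 ∧ ∀ y ∈ S, hat F y = φ y := by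
    intro S hS
    obtain ⟨g, hg1, hg2⟩ := hφ (insert y1 (insert y2 S)) ((hS.insert _).insert _)
    have e1 := hg2 y1 (Or.inl rfl)
    have e2 := hg2 y2 (Or.inr (Or.inl rfl))
    rcases hg1 with rfl | rfl | ⟨n, m, F, k1, rfl⟩
    · exact absurd e1.symm hy1
    · exact absurd e2.symm hy2
    · exact ⟨n, m, F, k1, e2, fun y hy => hg2 y (Or.inr (Or.inr hy))⟩
  obtain ⟨n, m, F0, -, e0, -⟩ := key ∅ Set.finite_empty
  obtain ⟨x2, rfl⟩ : ∃ x, y2 = some ⟨n, x⟩ := by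
    rcases yy_cases n y2 with h | h
    · exact h
    · rw [(hat_isHat F0).2 _ h] at e0
      exact absurd e0.symm hy2
  rw [(hat_isHat F0).1] at e0
  have key2 : ∀ S : Set (YY X), S.Finite → ∃ (F : Fin (m + 1) → (Fin (n + 1) → X) → X),
      (∀ j, F j ∈ C.1 n) ∧ ∀ y ∈ S, hat F y = φ y := by
    intro S hS
    obtain ⟨n', m', F, k1, k2, k3⟩ := key S hS
    obtain ⟨rfl, rfl⟩ := hat_spec (k2.trans e0.symm)
    exact ⟨F, k1, k3⟩
  have k4 : ∀ x, ∃ z, φ (some ⟨n, x⟩) = some ⟨m, z⟩ := by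
    intro x
    obtain ⟨F, -, k⟩ := key2 {some ⟨n, x⟩} (Set.finite_singleton _)
    exact ⟨_, (k _ rfl).symm.trans ((hat_isHat F).1 x)⟩
  choose z hz using k4
  refine Or.inr (Or.inr ⟨n, m, fun j x => z x j, fun j => C.2.2 n _ fun S hS => ?_,
    IsHat.eq ⟨hz, fun y hy => ?_⟩⟩)
  · obtain ⟨F, k1, k2⟩ := key2 ((fun x => some ⟨n, x⟩) '' S) (hS.image _)
    refine ⟨F j, k1 j, fun x hx => ?_⟩
    have := k2 _ ⟨x, hx, rfl⟩
    rw [(hat_isHat F).1, hz] at this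
    simp only [Option.some.injEq, Sigma.mk.injEq, heq_eq_eq, true_and] at this
    exact congrFun this j
  · obtain ⟨F, -, k⟩ := key2 {y} (Set.finite_singleton _)
    rw [← k y rfl, (hat_isHat F).2 y hy]

def monOf (C : ClL X) : MonL (YY X) :=
  ⟨monSet C.1, Or.inl rfl, by
    rintro f (rfl | rfl | ⟨n, m, F, h1, rfl⟩) g hg
    · exact hg
    · exact Or.inr (Or.inl rfl)
    · rcases hg with rfl | rfl | ⟨n', m', F', h2, rfl⟩
      · exact Or.inr (Or.inr ⟨n, m, F, h1, rfl⟩)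
      · exact Or.inr (Or.inl (funext fun _ => hat_none F))
      · by_cases h : m' = n
        · subst h
          exact Or.inr (Or.inr ⟨_, _, _, fun j => C.2.1.2 _ _ _ _ (h1 j) h2, hat_comp F F'⟩)
        · exact Or.inr (Or.inl (hat_comp_ne F F' h)), monSet_closed C⟩

def gate {n : ℕ} (f : (Fin (n + 1) → X) → X) : Fin (n + 2) → (Fin (n + 1) → X) → X :=
  Fin.cons f (fun i x => x i)

def psi (G : Set (YY X → YY X)) : Ops X := fun n =>
  {f | ∀ (n' : ℕ) (π : Fin (n + 1) → Fin (n' + 1)), hat (gate (fun x => f (fun i => x (π i)))) ∈ G}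

section Psi

variable (G : MonL (YY X))
  (hG : ∀ (n m : ℕ) (ρ : Fin (m + 1) → Fin (n + 1)), hat (fun j (x : Fin (n + 1) → X) => x (ρ j)) ∈ G.1)

include hG in
theorem psi_select {n m m' : ℕ} {T : Fin (m + 1) → (Fin (n + 1) → X) → X} (hT : hat T ∈ G.1)
    {F : Fin (m' + 1) → (Fin (n + 1) → X) → X} (hF : ∀ j, ∃ i, T i = F j) : hat F ∈ G.1 := by
  choose ρ hρ using hF
  have := G.2.2.1 _ (hG m m' ρ) _ hT
  rw [hat_comp] at this
  convert this using 2
  funext j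
  exact (hρ j).symm

theorem psi_step {n m k : ℕ} {T : Fin (m + 1) → (Fin (n + 1) → X) → X} (hT : hat T ∈ G.1)
    {f : (Fin (k + 1) → X) → X} (hf : f ∈ psi G.1 k)
    {g : Fin (k + 1) → (Fin (n + 1) → X) → X} (hg : ∀ j, ∃ i, T i = g j) :
    ∃ T' : Fin (m + 2) → (Fin (n + 1) → X) → X, hat T' ∈ G.1 ∧
      T' 0 = (fun x => f (fun j => g j x)) ∧ ∀ i, T' i.succ = T i := by
  choose π hπ using hg
  have := G.2.2.1 _ (hf m π) _ hT
  rw [hat_comp] at this
  refine ⟨_, this, ?_, fun i => rfl⟩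
  funext x
  show f (fun j => T (π j) x) = _
  simp only [hπ]

include hG in
theorem psi_cover {n : ℕ} (s : Set ((Fin (n + 1) → X) → X)) (hs : s.Finite)
    (h : ∀ f ∈ s, f ∈ psi G.1 n) : ∃ (m : ℕ) (T : Fin (m + 1) → (Fin (n + 1) → X) → X),
      hat T ∈ G.1 ∧ (∀ i, ∃ j, T j = fun x => x i) ∧ ∀ f ∈ s, ∃ j, T j = f := by
  induction s, hs using Set.Finite.induction_on with
  | empty => exact ⟨n, _, hG n n (fun i => i), fun i => ⟨i, rfl⟩, fun f hf => hf.elim⟩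
  | insert _ _ ih =>
    rename_i f s _ _
    obtain ⟨m, T, k1, k2, k3⟩ := ih fun g hg => h g (Or.inr hg)
    obtain ⟨T', j1, j2, j3⟩ := psi_step G k1 (h f (Or.inl rfl)) k2
    refine ⟨m + 1, T', j1, fun i => ?_, ?_⟩
    · obtain ⟨j, hj⟩ := k2 i
      exact ⟨j.succ, (j3 j).trans hj⟩
    · rintro g (rfl | hg)
      · exact ⟨0, j2⟩
      · obtain ⟨j, hj⟩ := k3 g hg
        exact ⟨j.succ, (j3 j).trans hj⟩

include hG in
theorem psi_hat {n m : ℕ} {F : Fin (m + 1) → (Fin (n + 1) → X) → X} (hF : ∀ j, F j ∈ psi G.1 n) :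
    hat F ∈ G.1 := by
  obtain ⟨m', T, k1, -, k3⟩ := psi_cover G hG (Set.range F) (Set.finite_range F)
    (by rintro _ ⟨j, rfl⟩; exact hF j)
  exact psi_select G hG k1 fun j => k3 _ ⟨j, rfl⟩

include hG in
theorem psi_clone : IsClone (psi G.1) ∧ ∀ n, LocClosed (psi G.1 n) := by
  refine ⟨⟨fun n i n' π => ?_, fun n m f g hf hg n' π => ?_⟩, fun n f hf n' π => ?_⟩
  · refine psi_select G hG (hG n' n' (fun i => i)) fun j => ?_
    refine Fin.cases ⟨π i, rfl⟩ (fun j => ⟨j, rfl⟩) j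
  · obtain ⟨m', T, k1, k2, k3⟩ := psi_cover G hG
      (Set.range fun i (x : Fin (n' + 1) → X) => g i (fun l => x (π l))) (Set.finite_range _)
      (by rintro _ ⟨j, rfl⟩ n'' π'; exact hg j n'' (fun l => π' (π l)))
    obtain ⟨T', j1, j2, j3⟩ := psi_step G k1 hf (fun j => k3 _ ⟨j, rfl⟩)
    refine psi_select G hG j1 fun j => ?_
    refine Fin.cases ⟨0, j2⟩ (fun j => ?_) j
    obtain ⟨l, hl⟩ := k2 j
    exact ⟨l.succ, (j3 l).trans hl⟩
  · refine G.2.2.2 _ fun S hS => ?_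
    have hinj : Function.Injective (fun x : Fin (n' + 1) → X => (some ⟨n', x⟩ : YY X)) := by
      intro x x' h
      simpa using h
    obtain ⟨g, hg1, hg2⟩ := hf _ ((hS.preimage hinj.injOn).image (fun x i => x (π i)))
    refine ⟨_, hg1 n' π, fun y hy => ?_⟩
    rcases yy_cases n' y with ⟨x, rfl⟩ | h
    · rw [(hat_isHat _).1, (hat_isHat _).1]
      congr 2
      funext j
      refine Fin.cases ?_ (fun j => rfl) j
      exact hg2 _ ⟨x, hy, rfl⟩
    · rw [(hat_isHat _).2 y h, (hat_isHat _).2 y h]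

end Psi

theorem monOf_emb [Nonempty X] : IsLatticeEmb (monOf (X := X)) := by
  refine emb_of (fun a b => ⟨fun h n f hf => ?_, ?_⟩) (fun a b => ?_) (fun a b k ha hb => ?_)
  · exact (hat_mem_iff b.1 (fun _ : Fin 1 => f)).1 (h ((hat_mem_iff a.1 _).2 fun _ => hf)) 0
  · rintro h φ (h1 | h1 | ⟨n, m, F, h1, h2⟩)
    · exact Or.inl h1
    · exact Or.inr (Or.inl h1)
    · exact Or.inr (Or.inr ⟨n, m, F, fun j => h n (h1 j), h2⟩)
  · refine ⟨⟨fun n => a.1 n ∩ b.1 n, ⟨fun n i => ⟨a.2.1.1 n i, b.2.1.1 n i⟩,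
      fun n m f g hf hg => ⟨a.2.1.2 n m f g hf.1 fun i => (hg i).1,
        b.2.1.2 n m f g hf.2 fun i => (hg i).2⟩⟩, fun n f hf => ⟨a.2.2 n f fun S hS => ?_,
        b.2.2 n f fun S hS => ?_⟩⟩, fun n f hf => hf.1, fun n f hf => hf.2, fun k h1 h2 φ hφ => ?_⟩
    · obtain ⟨g, k1, k2⟩ := hf S hS
      exact ⟨g, k1.1, k2⟩
    · obtain ⟨g, k1, k2⟩ := hf S hS
      exact ⟨g, k1.2, k2⟩
    · rcases h1 hφ with e | e | ⟨n, m, F, e1, rfl⟩
      · exact Or.inl e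
      · exact Or.inr (Or.inl e)
      · exact Or.inr (Or.inr ⟨n, m, F, fun j => ⟨e1 j, (hat_mem_iff b.1 F).1 (h2 hφ) j⟩, rfl⟩)
  · have hG : ∀ (n m : ℕ) (ρ : Fin (m + 1) → Fin (n + 1)),
        hat (fun j (x : Fin (n + 1) → X) => x (ρ j)) ∈ k.1 :=
      fun n m ρ => ha ((hat_mem_iff a.1 _).2 fun j => a.2.1.1 n _)
    have key : ∀ c : ClL X, monOf c ≤ k → ∀ n, c.1 n ⊆ psi k.1 n := by
      intro c hc n f hf n' π
      refine hc ((hat_mem_iff c.1 _).2 fun j => ?_)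
      refine Fin.cases ?_ (fun j => c.2.1.1 n' j) j
      exact c.2.1.2 n n' f _ hf fun i => c.2.1.1 n' (π i)
    refine ⟨⟨psi k.1, psi_clone k hG⟩, key a ha, key b hb, ?_⟩
    rintro c hc φ (rfl | rfl | ⟨n, m, F, h1, rfl⟩)
    · exact k.2.1
    · exact ha (Or.inr (Or.inl rfl))
    · exact psi_hat k hG fun j => hc n (h1 j)

end Hat

end Pool.Agent.H434Z.Loc
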