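import Pool.Agent.H434Z.PPMinion

/-!
Finite algebras on which the idempotent polymorphisms act; a Helly property of congruence classes.
-/

set_option autoImplicit false

namespace Pool.Agent.H434Z.PP

variable {σ τ : Sig}

def IPol (A : Str σ) (I : Type) : Type := {f : PolT A I // ∀ x, f.1 (fun _ => x) = x}

def iminor {A : Str σ} {I J : Type} (π : I → J) (f : IPol A I) : IPol A J := ⟨minor π f.1, f.2⟩

instance (A : Str σ) (I : Type) [Finite I] : Finite (IPol A I) := by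
  unfold IPol; infer_instance

structure Alg (A : Str σ) where
  car : Type
  fin : Finite car
  op : ∀ {I : Type}, IPol A I → (I → car) → car
  op_minor : ∀ {I J : Type} (π : I → J) (f : IPol A I) (t : J → car),
    op (iminor π f) t = op f (fun i => t (π i))
  op_idem : ∀ {I : Type} (f : IPol A I) (b : car), op f (fun _ => b) = b

variable {A : Str σ}

instance (B : Alg A) : Finite B.car := B.fin

namespace Alg

def Hom (B C : Alg A) (π : B.car → C.car) : Prop :=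
  ∀ (I : Type) (f : IPol A I) (t : I → B.car), π (B.op f t) = C.op f (fun i => π (t i))

def Closed (B : Alg A) (S : B.car → Prop) : Prop :=
  ∀ (I : Type) (f : IPol A I) (t : I → B.car), (∀ i, S (t i)) → S (B.op f t)

def IsCong (B : Alg A) (E : B.car → B.car → Prop) : Prop :=
  Equivalence E ∧ ∀ (I : Type) (f : IPol A I) (u v : I → B.car), (∀ i, E (u i) (v i)) →
    E (B.op f u) (B.op f v)

def sub (B : Alg A) (S : B.car → Prop) (hS : B.Closed S) : Alg A where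
  car := {b // S b}
  fin := inferInstance
  op f t := ⟨B.op f (fun i => (t i).1), hS _ f _ (fun i => (t i).2)⟩
  op_minor π f t := Subtype.ext (B.op_minor π f (fun j => (t j).1))
  op_idem f b := Subtype.ext (B.op_idem f b.1)

theorem sub_hom (B : Alg A) (S : B.car → Prop) (hS : B.Closed S) :
    Hom (B.sub S hS) B (fun b => b.1) := fun _ _ _ => rfl

noncomputable def quot (B : Alg A) (E : B.car → B.car → Prop) (hE : B.IsCong E) : Alg A where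
  car := Quotient ⟨E, hE.1⟩
  fin := Quotient.finite _
  op f t := Quotient.mk _ (B.op f (fun i => (t i).out))
  op_minor π f t := congrArg _ (B.op_minor π f (fun j => (t j).out))
  op_idem f b := by rw [B.op_idem]; exact Quotient.out_eq b

theorem quot_hom (B : Alg A) (E : B.car → B.car → Prop) (hE : B.IsCong E) :
    Hom B (B.quot E hE) (Quotient.mk _) := by
  intro I f t
  refine Quotient.sound (hE.2 I f _ _ fun i => ?_)
  exact hE.1.symm (Quotient.mk_out (s := ⟨E, hE.1⟩) (t i))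

theorem Hom.comp {B C D : Alg A} {π : B.car → C.car} {ρ : C.car → D.car} (h1 : Hom B C π)
    (h2 : Hom C D ρ) : Hom B D (fun b => ρ (π b)) := by
  intro I f t
  show ρ (π _) = _
  rw [h1, h2]

theorem Hom.range_closed {B C : Alg A} {π : B.car → C.car} (h : Hom B C π) :
    C.Closed (fun c => ∃ b, π b = c) := by
  intro I f t ht
  choose b hb using ht
  refine ⟨B.op f b, ?_⟩
  rw [h]
  exact congrArg _ (funext hb)

theorem Hom.ker_cong {B C : Alg A} {π : B.car → C.car} (h : Hom B C π) :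
    B.IsCong (fun u v => π u = π v) := by
  refine ⟨⟨fun _ => rfl, fun h => h.symm, fun h1 h2 => h1.trans h2⟩, fun I f u v huv => ?_⟩
  show π _ = π _
  rw [h, h]
  exact congrArg _ (funext huv)

end Alg

/-- Idempotent Maltsev and guarded symmetric operations, acting on every algebra. -/
structure MS (A : Str σ) : Prop where
  mal : ∃ m : IPol A (Fin 3), ∀ (B : Alg A) (x y : B.car),
    B.op m ![x, y, y] = x ∧ B.op m ![y, y, x] = x
  sym : ∀ (Y : Type) [Finite Y] [Nonempty Y], ∃ s : IPol A (Option Y),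
    (∀ (B : Alg A) (x y : B.car), B.op s (fun o => o.elim x (fun _ => y)) = y) ∧
    ∀ (B : Alg A) (x : B.car) (y : Y → B.car) (e : Equiv.Perm Y),
      B.op s (fun o => o.elim x (fun i => y (e i))) = B.op s (fun o => o.elim x y)

theorem maj (hA : MS A) (B : Alg A) (R : B.car → B.car → B.car → Prop)
    (hR : ∀ (I : Type) (f : IPol A I) (u v w : I → B.car), (∀ i, R (u i) (v i) (w i)) →
      R (B.op f u) (B.op f v) (B.op f w))
    {a1 a2 a3 c1 c2 c3 : B.car} (h1 : R a1 a2 c3) (h2 : R a1 c2 a3) (h3 : R c1 a2 a3) :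
    R a1 a2 a3 := by
  classical
  obtain ⟨m, hm⟩ := hA.mal
  have hm1 : ∀ x y, B.op m ![x, y, y] = x := fun x y => (hm B x y).1
  have hm2 : ∀ x y, B.op m ![y, y, x] = x := fun x y => (hm B x y).2
  have hRm : ∀ {x1 x2 x3 y1 y2 y3 z1 z2 z3 : B.car}, R x1 x2 x3 → R y1 y2 y3 → R z1 z2 z3 →
      R (B.op m ![x1, y1, z1]) (B.op m ![x2, y2, z2]) (B.op m ![x3, y3, z3]) := by
    intro x1 x2 x3 y1 y2 y3 z1 z2 z3 hx hy hz
    refine hR _ m _ _ _ fun i => ?_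
    fin_cases i
    · exact hx
    · exact hy
    · exact hz
  -- generated subalgebras
  let G : B.car → B.car → B.car → Prop := fun a c v => ∀ S, B.Closed S → S a → S c → S v
  have hGc : ∀ a c, B.Closed (G a c) := fun a c I f t ht S hS ha hc =>
    hS I f t (fun i => ht i S hS ha hc)
  have hGa : ∀ a c, G a c a := fun a c S _ ha _ => ha
  have hGb : ∀ a c, G a c c := fun a c S _ _ hc => hc
  have hGm : ∀ a c, G a c (B.op m ![a, c, a]) := by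
    intro a c
    refine hGc a c _ m _ fun i => ?_
    fin_cases i
    · exact hGa a c
    · exact hGb a c
    · exact hGa a c
  have tot2 : ∀ q, (∃ w, G a3 c3 w ∧ R q a2 w) → (∃ w, G a3 c3 w ∧ R q c2 w) →
      ∀ v, G a2 c2 v → ∃ w, G a3 c3 w ∧ R q v w := by
    intro q ha hc v hv
    refine hv (fun v => ∃ w, G a3 c3 w ∧ R q v w) ?_ ha hc
    intro I f t ht
    choose w hw1 hw2 using ht
    refine ⟨B.op f w, hGc _ _ I f w hw1, ?_⟩
    have := hR I f (fun _ => q) t w hw2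
    rwa [B.op_idem] at this
  have tot3 : ∀ q, (∃ v, G a2 c2 v ∧ R q v a3) → (∃ v, G a2 c2 v ∧ R q v c3) →
      ∀ w, G a3 c3 w → ∃ v, G a2 c2 v ∧ R q v w := by
    intro q ha hc w hw
    refine hw (fun w => ∃ v, G a2 c2 v ∧ R q v w) ?_ ha hc
    intro I f t ht
    choose v hv1 hv2 using ht
    refine ⟨B.op f v, hGc _ _ I f v hv1, ?_⟩
    have := hR I f (fun _ => q) v t hv2
    rwa [B.op_idem] at this
  have t2a := tot2 a1 ⟨c3, hGb _ _, h1⟩ ⟨a3, hGa _ _, h2⟩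
  have t3a := tot3 a1 ⟨c2, hGb _ _, h2⟩ ⟨a2, hGa _ _, h1⟩
  have t2c := tot2 c1 ⟨a3, hGa _ _, h3⟩ ⟨_, hGm a3 c3, by
    have := hRm h2 h1 h3
    rwa [hm2, hm1] at this⟩
  have t3c := tot3 c1 ⟨a2, hGa _ _, h3⟩ ⟨_, hGm a2 c2, by
    have := hRm h1 h2 h3
    rwa [hm2, hm1] at this⟩
  have sat2 : ∀ {v v' u' w'}, (∃ u w, R u v w ∧ R u v' w) → R u' v' w' → R u' v w' := by
    rintro v v' u' w' ⟨u, w, k1, k2⟩ k3
    have := hRm k1 k2 k3
    rwa [hm2, hm1, hm2] at this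
  have sat3 : ∀ {w w' u' v'}, (∃ u v, R u v w ∧ R u v w') → R u' v' w' → R u' v' w := by
    rintro w w' u' v' ⟨u, v, k1, k2⟩ k3
    have := hRm k1 k2 k3
    rwa [hm2, hm2, hm1] at this
  let s2 : Setoid {v // G a2 c2 v} :=
    ⟨fun v v' => ∃ u w, R u v.1 w ∧ R u v'.1 w,
      ⟨fun v => by obtain ⟨w, -, hw⟩ := t2a v.1 v.2; exact ⟨a1, w, hw, hw⟩,
       fun ⟨u, w, k1, k2⟩ => ⟨u, w, k2, k1⟩,
       fun k ⟨u, w, k1, k2⟩ => ⟨u, w, sat2 k k1, k2⟩⟩⟩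
  let s3 : Setoid {w // G a3 c3 w} :=
    ⟨fun w w' => ∃ u v, R u v w.1 ∧ R u v w'.1,
      ⟨fun w => by obtain ⟨v, -, hv⟩ := t3a w.1 w.2; exact ⟨a1, v, hv, hv⟩,
       fun ⟨u, v, k1, k2⟩ => ⟨u, v, k2, k1⟩,
       fun k ⟨u, v, k1, k2⟩ => ⟨u, v, sat3 k k1, k2⟩⟩⟩
  have bij : ∀ q, (∀ v, G a2 c2 v → ∃ w, G a3 c3 w ∧ R q v w) →
      (∀ w, G a3 c3 w → ∃ v, G a2 c2 v ∧ R q v w) →
      ∃ e : Quotient s2 ≃ Quotient s3, ∀ k, R q k.out.1 (e k).out.1 := by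
    intro q k2 k3
    have e1 : ∀ k : Quotient s2, ∃ l : Quotient s3, R q k.out.1 l.out.1 := by
      intro k
      obtain ⟨w, hw1, hw2⟩ := k2 _ k.out.2
      exact ⟨Quotient.mk s3 ⟨w, hw1⟩, sat3 (Quotient.mk_out (s := s3) ⟨w, hw1⟩) hw2⟩
    have e2 : ∀ l : Quotient s3, ∃ k : Quotient s2, R q k.out.1 l.out.1 := by
      intro l
      obtain ⟨v, hv1, hv2⟩ := k3 _ l.out.2
      exact ⟨Quotient.mk s2 ⟨v, hv1⟩, sat2 (Quotient.mk_out (s := s2) ⟨v, hv1⟩) hv2⟩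
    have u1 : ∀ (k : Quotient s2) (l l' : Quotient s3), R q k.out.1 l.out.1 → R q k.out.1 l'.out.1 →
        l = l' := fun k l l' j1 j2 => Quotient.out_equiv_out.1 ⟨q, _, j1, j2⟩
    have u2 : ∀ (k k' : Quotient s2) (l : Quotient s3), R q k.out.1 l.out.1 → R q k'.out.1 l.out.1 →
        k = k' := fun k k' l j1 j2 => Quotient.out_equiv_out.1 ⟨q, _, j1, j2⟩
    choose φ hφ using e1
    choose ψ hψ using e2
    exact ⟨⟨φ, ψ, fun k => u2 _ _ _ (hψ (φ k)) (hφ k), fun l => u1 _ _ _ (hφ (ψ l)) (hψ l)⟩, hφ⟩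
  obtain ⟨ea, hea⟩ := bij a1 t2a t3a
  obtain ⟨ec, hec⟩ := bij c1 t2c t3c
  have : Nonempty (Quotient s2) := ⟨Quotient.mk s2 ⟨a2, hGa _ _⟩⟩
  obtain ⟨s, hs1, hs2⟩ := hA.sym (Quotient s2)
  have key : ∀ q (e : Quotient s2 ≃ Quotient s3), (∀ k, R q k.out.1 (e k).out.1) →
      R q (B.op s (fun o => o.elim a2 (fun k => k.out.1)))
        (B.op s (fun o => o.elim c3 (fun k => (e k).out.1))) := by
    intro q e he
    have := hR _ s (fun o => o.elim a1 (fun _ => q)) (fun o => o.elim a2 (fun k => k.out.1))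
      (fun o => o.elim c3 (fun k => (e k).out.1)) (fun o => by
        cases o with
        | none => exact h1
        | some k => exact he k)
    rwa [hs1] at this
  have ka := key a1 ea hea
  have kc := key c1 ec hec
  have hw := hs2 B c3 (fun k => (ea k).out.1) (ec.trans ea.symm)
  simp only [Equiv.trans_apply, Equiv.apply_symm_apply] at hw
  rw [hw] at kc
  have := hRm ka kc h3
  rwa [hm1, hm2, hm2] at this

/-- Congruence classes. -/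
def Alg.Cls (B : Alg A) (Z : Set B.car) : Prop :=
  ∃ E, B.IsCong E ∧ ∃ a, ∀ b, b ∈ Z ↔ E b a

theorem helly3 (hA : MS A) (B : Alg A) {Z1 Z2 Z3 : Set B.car} (h1 : B.Cls Z1) (h2 : B.Cls Z2)
    (h3 : B.Cls Z3) (h12 : (Z1 ∩ Z2).Nonempty) (h13 : (Z1 ∩ Z3).Nonempty)
    (h23 : (Z2 ∩ Z3).Nonempty) : (Z1 ∩ Z2 ∩ Z3).Nonempty := by
  obtain ⟨E1, hE1, a1, k1⟩ := h1
  obtain ⟨E2, hE2, a2, k2⟩ := h2
  obtain ⟨E3, hE3, a3, k3⟩ := h3
  obtain ⟨x, hx1, hx2⟩ := h12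
  obtain ⟨y, hy1, hy3⟩ := h13
  obtain ⟨z, hz2, hz3⟩ := h23
  have := maj hA B (fun u v w => ∃ x, E1 x u ∧ E2 x v ∧ E3 x w) (by
    intro I f u v w h
    choose x j1 j2 j3 using h
    exact ⟨B.op f x, hE1.2 I f _ _ j1, hE2.2 I f _ _ j2, hE3.2 I f _ _ j3⟩)
    (a1 := a1) (a2 := a2) (a3 := a3) (c1 := z) (c2 := y) (c3 := x)
    ⟨x, (k1 _).1 hx1, (k2 _).1 hx2, hE3.1.refl _⟩
    ⟨y, (k1 _).1 hy1, hE2.1.refl _, (k3 _).1 hy3⟩
    ⟨z, hE1.1.refl _, (k2 _).1 hz2, (k3 _).1 hz3⟩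
  obtain ⟨c, j1, j2, j3⟩ := this
  exact ⟨c, ⟨(k1 _).2 j1, (k2 _).2 j2⟩, (k3 _).2 j3⟩

theorem Alg.Cls.inter {B : Alg A} {Z1 Z2 : Set B.car} (h1 : B.Cls Z1) (h2 : B.Cls Z2)
    (h12 : (Z1 ∩ Z2).Nonempty) : B.Cls (Z1 ∩ Z2) := by
  obtain ⟨E1, hE1, a1, k1⟩ := h1
  obtain ⟨E2, hE2, a2, k2⟩ := h2
  obtain ⟨x, hx1, hx2⟩ := h12
  refine ⟨fun u v => E1 u v ∧ E2 u v, ⟨⟨fun u => ⟨hE1.1.refl u, hE2.1.refl u⟩,
    fun h => ⟨hE1.1.symm h.1, hE2.1.symm h.2⟩,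
    fun h h' => ⟨hE1.1.trans h.1 h'.1, hE2.1.trans h.2 h'.2⟩⟩,
    fun I f u v h => ⟨hE1.2 I f u v fun i => (h i).1, hE2.2 I f u v fun i => (h i).2⟩⟩, x, fun b => ?_⟩
  have e1 := (k1 _).1 hx1
  have e2 := (k2 _).1 hx2
  constructor
  · rintro ⟨j1, j2⟩
    exact ⟨hE1.1.trans ((k1 _).1 j1) (hE1.1.symm e1), hE2.1.trans ((k2 _).1 j2) (hE2.1.symm e2)⟩
  · rintro ⟨j1, j2⟩
    exact ⟨(k1 _).2 (hE1.1.trans j1 e1), (k2 _).2 (hE2.1.trans j2 e2)⟩

theorem helly (hA : MS A) (B : Alg A) (𝒵 : Set (Set B.car)) (hc : ∀ Z ∈ 𝒵, B.Cls Z)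
    (hp : ∀ Z ∈ 𝒵, ∀ Z' ∈ 𝒵, (Z ∩ Z').Nonempty) (b0 : B.car) : ∃ b, ∀ Z ∈ 𝒵, b ∈ Z := by
  have key : ∀ (𝒵 : Set (Set B.car)), 𝒵.Finite → (∀ Z ∈ 𝒵, B.Cls Z) →
      (∀ Z ∈ 𝒵, ∀ Z' ∈ 𝒵, (Z ∩ Z').Nonempty) → ∀ W, B.Cls W → W.Nonempty →
      (∀ Z ∈ 𝒵, (W ∩ Z).Nonempty) → ∃ b ∈ W, ∀ Z ∈ 𝒵, b ∈ Z := by
    intro 𝒵 hf
    induction 𝒵, hf using Set.Finite.induction_on with
    | empty => exact fun _ _ W _ ⟨b, hb⟩ _ => ⟨b, hb, fun Z hZ => hZ.elim⟩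
    | insert hZ _ ih =>
      rename_i Z 𝒴 _
      intro hc hp W hW _ hWZ
      have h1 : (W ∩ Z).Nonempty := hWZ Z (Set.mem_insert _ _)
      obtain ⟨b, hb1, hb2⟩ := ih (fun Y hY => hc Y (Set.mem_insert_of_mem _ hY))
        (fun Y hY Y' hY' => hp Y (Set.mem_insert_of_mem _ hY) Y' (Set.mem_insert_of_mem _ hY'))
        (W ∩ Z) (hW.inter (hc Z (Set.mem_insert _ _)) h1) h1 (fun Y hY =>
          helly3 hA B hW (hc Z (Set.mem_insert _ _)) (hc Y (Set.mem_insert_of_mem _ hY)) h1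
            (hWZ Y (Set.mem_insert_of_mem _ hY))
            (hp Z (Set.mem_insert _ _) Y (Set.mem_insert_of_mem _ hY)))
      refine ⟨b, hb1.1, fun Y hY => ?_⟩
      rcases hY with rfl | hY
      · exact hb1.2
      · exact hb2 Y hY
  obtain ⟨b, -, hb⟩ := key 𝒵 (Set.toFinite _) hc hp Set.univ
    ⟨fun _ _ => True, ⟨⟨fun _ => trivial, fun _ => trivial, fun _ _ => trivial⟩,
      fun _ _ _ _ _ => trivial⟩, b0, fun _ => by simp⟩ ⟨b0, trivial⟩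
    (fun Z hZ => by simpa using hp Z hZ Z hZ)
  exact ⟨b, hb⟩

theorem join_cong (hA : MS A) {B C C' : Alg A} {π : B.car → C.car} {π' : B.car → C'.car}
    (h : Alg.Hom B C π) (h' : Alg.Hom B C' π') :
    B.IsCong (fun u v => ∃ w, π u = π w ∧ π' w = π' v) := by
  obtain ⟨m, hm⟩ := hA.mal
  have hsymm : ∀ {u v}, (∃ w, π u = π w ∧ π' w = π' v) → ∃ w, π v = π w ∧ π' w = π' u := by
    rintro u v ⟨w, k1, k2⟩
    refine ⟨B.op m ![u, w, v], ?_, ?_⟩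
    · rw [h, ← (hm C (π v) (π w)).2]
      refine congrArg _ (funext fun i => ?_)
      fin_cases i
      · exact k1.symm
      · rfl
      · rfl
    · rw [h', ← (hm C' (π' u) (π' v)).1]
      refine congrArg _ (funext fun i => ?_)
      fin_cases i
      · rfl
      · exact k2
      · rfl
  refine ⟨⟨fun u => ⟨u, rfl, rfl⟩, hsymm, ?_⟩, fun I f u v huv => ?_⟩
  · rintro u v z ⟨w1, k1, k2⟩ ⟨w2, k3, k4⟩
    obtain ⟨w3, k5, k6⟩ := hsymm (u := w2) (v := w1) ⟨v, k3.symm, k2.symm⟩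
    exact ⟨w3, k1.trans k5, k6.trans k4⟩
  · choose w k1 k2 using huv
    exact ⟨B.op f w, h.ker_cong.2 I f _ _ k1, h'.ker_cong.2 I f _ _ k2⟩

theorem inv_choice {P : Type 1} (T : P → Type) (Iso : ∀ p q, (T p → T q) → Prop)
    (Good : ∀ p, T p → Prop) (hid : ∀ p, Iso p p (fun x => x))
    (hcomp : ∀ p q r φ ψ, Iso p q φ → Iso q r ψ → Iso p r (fun x => ψ (φ x)))
    (hinv : ∀ p q φ, Iso p q φ → ∃ ψ, Iso q p ψ ∧ ∀ x, φ (ψ x) = x)
    (hgood : ∀ p q φ x, Iso p q φ → Good p x → Good q (φ x))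
    (hfix : ∀ p, ∃ x, Good p x ∧ ∀ φ, Iso p p φ → φ x = x) :
    ∃ h : ∀ p, T p, (∀ p, Good p (h p)) ∧ ∀ p q φ, Iso p q φ → φ (h p) = h q := by
  let s : Setoid P := ⟨fun p q => ∃ φ, Iso p q φ, ⟨fun p => ⟨_, hid p⟩,
    fun ⟨φ, hφ⟩ => by obtain ⟨ψ, hψ, -⟩ := hinv _ _ φ hφ; exact ⟨ψ, hψ⟩,
    fun ⟨φ, hφ⟩ ⟨ψ, hψ⟩ => ⟨_, hcomp _ _ _ φ ψ hφ hψ⟩⟩⟩
  choose x hx1 hx2 using hfix
  have h1 : ∀ p, ∃ φ, Iso (Quotient.mk s p).out p φ := fun p => Quotient.mk_out (s := s) p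
  choose φ hφ using h1
  refine ⟨fun p => φ p (x _), fun p => hgood _ _ _ _ (hφ p) (hx1 _), fun p q χ hχ => ?_⟩
  have key : ∀ r r' (φ1 : T r → T p) (φ2 : T r' → T q), r = r' → Iso r p φ1 → Iso r' q φ2 →
      χ (φ1 (x r)) = φ2 (x r') := by
    intro r r' φ1 φ2 e k1 k2
    subst e
    obtain ⟨ψ, k3, k4⟩ := hinv _ _ _ k2
    have := hx2 r _ (hcomp _ _ _ _ _ (hcomp _ _ _ _ _ k1 hχ) k3)
    rw [← k4 (χ (φ1 (x r)))]
    exact congrArg φ2 this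
  exact key _ _ _ _ (congrArg Quotient.out (Quotient.sound (s := s) ⟨χ, hχ⟩)) (hφ p) (hφ q)

end Pool.Agent.H434Z.PP
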