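import Mathlib

/-!
Finite relational structures, polymorphisms, primitive positive constructions.
-/

set_option autoImplicit false

namespace Pool.Agent.H434Z.PP

/-- A finite relational signature: finitely many symbols, each with an arity. -/
structure Sig where
  Sym : Type
  fin : Finite Sym
  ar : Sym → ℕ

/-- A structure with a finite (possibly empty) domain. -/
structure Str (σ : Sig) where
  Dom : Type
  fin : Finite Dom
  rel : (R : σ.Sym) → (Fin (σ.ar R) → Dom) → Prop

variable {σ τ : Sig}

/-- `h` is a homomorphism `A → B`. -/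
def IsHom (A B : Str σ) (h : A.Dom → B.Dom) : Prop :=
  ∀ (R : σ.Sym) (t : Fin (σ.ar R) → A.Dom), A.rel R t → B.rel R (fun j => h (t j))

/-- Homomorphic equivalence. -/
def HomEquiv (A B : Str σ) : Prop := (∃ h, IsHom A B h) ∧ ∃ h, IsHom B A h

/-- The direct power `A ^ n`. -/
def pow (A : Str σ) (n : ℕ) : Str σ where
  Dom := Fin n → A.Dom
  fin := @Pi.finite _ _ _ (fun _ => A.fin)
  rel R u := ∀ i : Fin n, A.rel R (fun j => u j i)

/-- An `n`-ary polymorphism is a homomorphism `A ^ n → A`. -/
def IsPol (A : Str σ) (n : ℕ) (f : (Fin n → A.Dom) → A.Dom) : Prop := IsHom (pow A n) A f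

/-- Primitive positive formulas with free variables among `V`: true, equality, relations,
conjunction, and existential quantification (of the extra variable `none`). -/
inductive Formula (σ : Sig) : Type → Type 1
  | top {V : Type} : Formula σ V
  | eq {V : Type} (x y : V) : Formula σ V
  | rel {V : Type} (R : σ.Sym) (x : Fin (σ.ar R) → V) : Formula σ V
  | and {V : Type} (φ ψ : Formula σ V) : Formula σ V
  | ex {V : Type} (φ : Formula σ (Option V)) : Formula σ V

/-- Satisfaction of a pp-formula in `A` under an assignment. -/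
inductive Sat (A : Str σ) : {V : Type} → Formula σ V → (V → A.Dom) → Prop
  | top {V : Type} (a : V → A.Dom) : Sat A Formula.top a
  | eq {V : Type} (x y : V) (a : V → A.Dom) (h : a x = a y) : Sat A (Formula.eq x y) a
  | rel {V : Type} (R : σ.Sym) (x : Fin (σ.ar R) → V) (a : V → A.Dom)
      (h : A.rel R (fun j => a (x j))) : Sat A (Formula.rel R x) a
  | and {V : Type} (φ ψ : Formula σ V) (a : V → A.Dom) (h₁ : Sat A φ a) (h₂ : Sat A ψ a) :
      Sat A (Formula.and φ ψ) a
  | ex {V : Type} (φ : Formula σ (Option V)) (a : V → A.Dom) (b : A.Dom)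
      (h : Sat A φ (fun o => o.elim b a)) : Sat A (Formula.ex φ) a

/-- The structure with domain the `n`-tuples satisfying `φ`, in which the `k`-ary symbol `R` is
interpreted by the formula `ψ R` in `k n` variables. -/
def ppPower (A : Str σ) (τ : Sig) (n : ℕ) (φ : Formula σ (Fin n))
    (ψ : (R : τ.Sym) → Formula σ (Fin (τ.ar R) × Fin n)) : Str τ where
  Dom := {x : Fin n → A.Dom // Sat A φ x}
  fin := @Subtype.finite _ (pow A n).fin _
  rel R t := Sat A (ψ R) (fun p => (t p.1).1 p.2)

/-- `A` pp-constructs `B`. -/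
def Constructs (A : Str σ) (B : Str τ) : Prop :=
  ∃ (n : ℕ) (φ : Formula σ (Fin n)) (ψ : (R : τ.Sym) → Formula σ (Fin (τ.ar R) × Fin n)),
    HomEquiv (ppPower A τ n φ ψ) B

/-- `A` and `B` are pp-interconstructible. -/
def Inter (A : Str σ) (B : Str τ) : Prop := Constructs A B ∧ Constructs B A

/-- The signature with one binary symbol for each element of `G`. -/
def binSig (G : Type) [Finite G] : Sig where
  Sym := G
  fin := inferInstance
  ar _ := 2

/-- The structure of a group action: domain `X`, and the relation `{(x, g x)}` for each `g`. -/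
def permStr (G X : Type) [Group G] [Finite G] [Finite X] [MulAction G X] : Str (binSig G) where
  Dom := X
  fin := inferInstance
  rel (g : G) (t : Fin 2 → X) := t 1 = g • t 0

/-- The structure `({0, 1}; <)`. -/
def P1 : Str (binSig Unit) where
  Dom := Fin 2
  fin := inferInstance
  rel _ (t : Fin 2 → Fin 2) := t 0 < t 1

/-- Condition (M): a quasi Maltsev polymorphism. -/
def CondM (A : Str σ) : Prop :=
  ∃ f : (Fin 3 → A.Dom) → A.Dom, IsPol A 3 f ∧
    ∀ x y : A.Dom, f ![x, y, y] = f ![x, x, x] ∧ f ![x, x, x] = f ![y, y, x]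

/-- Condition (S): guarded fully symmetric polymorphisms `f(x; y₁, …, yₙ)` for all `n ≥ 1`. -/
def CondS (A : Str σ) : Prop :=
  ∀ n : ℕ, 1 ≤ n → ∃ f : (Fin (n + 1) → A.Dom) → A.Dom, IsPol A (n + 1) f ∧
    (∀ (x : A.Dom) (y : Fin n → A.Dom) (s : Equiv.Perm (Fin n)),
      f (Matrix.vecCons x y) = f (Matrix.vecCons x (fun i => y (s i)))) ∧
    ∀ x₁ x₂ y : A.Dom, f (Matrix.vecCons x₁ (fun _ => y)) = f (Matrix.vecCons x₂ (fun _ => y))

end Pool.Agent.H434Z.PP
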