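import Pool.Agent.H434Z.PPNat

/-!
The characterisation of the structures pp-interconstructible with permutation groups or `P1`.
-/

set_option autoImplicit false

namespace Pool.Agent.H434Z.PP

variable {σ τ : Sig}

def CondM' (A : Str σ) : Prop :=
  ∃ f : PolT A (Fin 3), minor (![0, 1, 1] : Fin 3 → Fin 2) f = minor (fun _ => 0) f ∧
    minor (![1, 1, 0] : Fin 3 → Fin 2) f = minor (fun _ => 0) f

def CondS' (A : Str σ) : Prop :=
  ∀ (Y : Type) [Finite Y] [Nonempty Y], ∃ f : PolT A (Option Y),
    (∀ e : Equiv.Perm Y, minor (Option.map e) f = f) ∧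
    minor (fun o : Option Y => o.isSome) f = minor (fun _ => true) f

theorem condM_iff (A : Str σ) : CondM A ↔ CondM' A := by
  have e1 : ∀ t : Fin 2 → A.Dom, (fun i => t ((![0, 1, 1] : Fin 3 → Fin 2) i)) = ![t 0, t 1, t 1] :=
    fun t => funext fun i => by fin_cases i <;> rfl
  have e2 : ∀ t : Fin 2 → A.Dom, (fun i => t ((![1, 1, 0] : Fin 3 → Fin 2) i)) = ![t 1, t 1, t 0] :=
    fun t => funext fun i => by fin_cases i <;> rfl
  have e3 : ∀ x : A.Dom, (fun _ : Fin 3 => x) = ![x, x, x] :=
    fun t => funext fun i => by fin_cases i <;> rfl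
  constructor
  · rintro ⟨f, hf, h⟩
    refine ⟨⟨f, hf⟩, Subtype.ext (funext fun t => ?_), Subtype.ext (funext fun t => ?_)⟩
    · show f _ = f _
      rw [e1, e3]
      exact (h _ _).1
    · show f _ = f _
      rw [e2, e3]
      exact (h _ _).2.symm
  · rintro ⟨f, h1, h2⟩
    refine ⟨f.1, f.2, fun x y => ⟨?_, ?_⟩⟩
    · have := congrArg (fun g : PolT A (Fin 2) => g.1 ![x, y]) h1
      simp only [minor_apply] at this
      rw [e1, e3] at this
      exact this
    · have := congrArg (fun g : PolT A (Fin 2) => g.1 ![x, y]) h2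
      simp only [minor_apply] at this
      rw [e2, e3] at this
      exact this.symm

theorem condS_iff (A : Str σ) : CondS A ↔ CondS' A := by
  constructor
  · intro h Y _ _
    obtain ⟨n, ⟨ε⟩⟩ := Finite.exists_equiv_fin Y
    have hn : 1 ≤ n := (ε (Classical.arbitrary Y)).pos
    obtain ⟨f, hf, h1, h2⟩ := h n hn
    have e1 : ∀ t : Option Y → A.Dom,
        (fun i => t ((Matrix.vecCons none (fun k => some (ε.symm k)) : Fin (n + 1) → Option Y) i)) =
        Matrix.vecCons (t none) (fun k => t (some (ε.symm k))) := by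
      intro t
      funext i
      refine Fin.cases rfl (fun k => rfl) i
    refine ⟨minor (Matrix.vecCons none (fun k => some (ε.symm k))) ⟨f, hf⟩, fun e => ?_, ?_⟩
    · apply Subtype.ext
      funext t
      show f _ = f _
      rw [e1 t, e1 (fun o => t (Option.map e o)),
        h1 (t none) (fun k => t (some (ε.symm k))) (ε.symm.trans (e.trans ε))]
      simp
    · apply Subtype.ext
      funext t
      show f _ = f _
      rw [e1 (fun o => t o.isSome), e1 (fun _ => t true)]
      exact h2 (t false) (t true) (t true)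
  · intro h n hn
    have : Nonempty (Fin n) := ⟨⟨0, hn⟩⟩
    obtain ⟨f, h1, h2⟩ := h (Fin n)
    have e1 : ∀ (x : A.Dom) (y : Fin n → A.Dom),
        (fun o : Option (Fin n) => Matrix.vecCons x y (o.elim 0 Fin.succ)) = fun o => o.elim x y := by
      intro x y
      funext o
      cases o <;> rfl
    refine ⟨(minor (fun o : Option (Fin n) => o.elim (0 : Fin (n + 1)) Fin.succ) f).1,
      (minor _ f).2, fun x y s => ?_, fun x₁ x₂ y => ?_⟩
    · rw [minor_apply, minor_apply, e1, e1]
      have := congrArg (fun g : PolT A (Option (Fin n)) => g.1 (fun o => o.elim x y)) (h1 s)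
      simp only [minor_apply] at this
      rw [← this]
      refine congrArg _ (funext fun o => ?_)
      cases o <;> rfl
    · rw [minor_apply, minor_apply, e1, e1]
      have key : ∀ x, f.1 (fun o => o.elim x (fun _ => y)) = f.1 (fun _ => y) := by
        intro x
        have := congrArg (fun g : PolT A Bool => g.1 (fun b => cond b y x)) h2
        simp only [minor_apply] at this
        refine Eq.trans (congrArg _ (funext fun o => ?_)) this
        cases o <;> rfl
      rw [key, key]

theorem MH.condM' {A : Str σ} {B : Str τ} (h : MH A B) (hA : CondM' A) : CondM' B := by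
  obtain ⟨ξ, hξ⟩ := h
  obtain ⟨f, h1, h2⟩ := hA
  exact ⟨ξ _ f, by rw [← hξ, ← hξ, h1], by rw [← hξ, ← hξ, h2]⟩

theorem MH.condS' {A : Str σ} {B : Str τ} (h : MH A B) (hA : CondS' A) : CondS' B := by
  obtain ⟨ξ, hξ⟩ := h
  intro Y _ _
  obtain ⟨f, h1, h2⟩ := hA Y
  exact ⟨ξ _ f, fun e => by rw [← hξ, h1], by rw [← hξ, ← hξ, h2]⟩

theorem cond_of_partial_inj {G : Type} [Finite G] (A : Str (binSig G))
    (h : ∀ (R : G) (t t' : Fin 2 → A.Dom), A.rel R t → A.rel R t' → (t 0 = t' 0 ↔ t 1 = t' 1)) :
    CondM' A ∧ CondS' A := by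
  classical
  have key : ∀ {I : Type} (c : (I → I → Prop) → I),
      Pol A (fun t : I → A.Dom => t (c (fun i j => t i = t j))) := by
    intro I c R u hu
    have e : ∀ j : Fin 2, (fun i i' => u j i = u j i') = fun i i' => u (0 : Fin 2) i = u (0 : Fin 2) i' := by
      intro j
      funext i i'
      fin_cases j
      · rfl
      · exact propext (h R _ _ (hu i) (hu i')).symm
    have := hu (c (fun i i' => u (0 : Fin 2) i = u (0 : Fin 2) i'))
    convert this using 2 with j
    exact congrArg (fun r => u j (c r)) (e j)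
  constructor
  · refine ⟨⟨_, key (fun r : Fin 3 → Fin 3 → Prop => if r 0 1 then 2 else 0)⟩,
      Subtype.ext (funext fun t => ?_), Subtype.ext (funext fun t => ?_)⟩
    · simp only [minor_apply]
      by_cases ht : t 0 = t 1 <;> simp [ht]
    · simp only [minor_apply]
      simp
  · intro Y _ _
    obtain ⟨i0⟩ : Nonempty Y := inferInstance
    refine ⟨⟨_, key (fun r : Option Y → Option Y → Prop =>
      if ∀ i j, r (some i) (some j) then some i0 else none)⟩, fun e => Subtype.ext (funext fun t => ?_),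
      Subtype.ext (funext fun t => ?_)⟩
    · simp only [minor_apply]
      by_cases ht : ∀ i j, t (some i) = t (some j)
      · have ht' : ∀ i j, t (Option.map e (some i)) = t (Option.map e (some j)) := fun i j => ht _ _
        rw [if_pos ht, if_pos ht']
        exact ht _ _
      · have ht' : ¬ ∀ i j, t (Option.map e (some i)) = t (Option.map e (some j)) :=
          fun hc => ht fun i j => by simpa using hc (e.symm i) (e.symm j)
        rw [if_neg ht, if_neg ht']
        rfl
    · simp only [minor_apply]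
      simp

theorem cond_perm (G X : Type) [Group G] [Finite G] [Finite X] [MulAction G X] :
    CondM' (permStr G X) ∧ CondS' (permStr G X) := by
  refine cond_of_partial_inj _ fun g t t' h1 h2 => ?_
  have k1 : t 1 = g • (show X from t 0) := h1
  have k2 : t' 1 = g • (show X from t' 0) := h2
  rw [k1, k2]
  exact (smul_left_cancel_iff (β := X) g).symm

theorem p1_rel {t : Fin 2 → Fin 2} (h : t 0 < t 1) : t 0 = 0 ∧ t 1 = 1 := by
  constructor <;> apply Fin.ext <;> have := (t 1).2 <;> have : (t 0).1 < (t 1).1 := h <;>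
    simp <;> omega

theorem cond_P1 : CondM' P1 ∧ CondS' P1 := by
  refine cond_of_partial_inj _ fun g t t' h1 h2 => ?_
  have k1 := p1_rel h1
  have k2 := p1_rel h2
  rw [k1.1, k1.2, k2.1, k2.2]
  exact ⟨fun _ => rfl, fun _ => rfl⟩

/-! ### Cores -/

def Core (A : Str σ) : Prop := ∀ e, IsHom A A e → Function.Bijective e

theorem MH.refl (A : Str σ) : MH A A := ⟨fun _ f => f, fun _ _ _ _ => rfl⟩

theorem exists_core (A : Str σ) : ∃ B : Str σ, Core B ∧ MH A B ∧ MH B A := by
  have key : ∀ n, ∀ A : Str σ, Nat.card A.Dom = n → ∃ B : Str σ, Core B ∧ MH A B ∧ MH B A := by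
    intro n
    induction n using Nat.strong_induction_on with
    | _ n ih =>
      intro A hA
      by_cases hc : Core A
      · exact ⟨A, hc, MH.refl A, MH.refl A⟩
      · obtain ⟨e, he⟩ := not_forall.1 hc
        obtain ⟨he1, he2⟩ := Classical.not_imp.1 he
        let A1 : Str σ := ⟨{x // ∃ y, e y = x}, inferInstance, fun R t => A.rel R (fun j => (t j).1)⟩
        have h1 : HomEquiv A A1 :=
          ⟨⟨fun x => ⟨e x, x, rfl⟩, fun R t ht => he1 R t ht⟩, ⟨fun x => x.1, fun R t ht => ht⟩⟩
        have h2 : Nat.card A1.Dom < n := by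
          rw [← hA]
          refine lt_of_le_of_ne (Nat.card_le_card_of_injective (fun s : A1.Dom => s.1)
            Subtype.val_injective) fun hcard => he2 (Finite.surjective_iff_bijective.1 fun c => ?_)
          have h3 : Function.Bijective (fun s : A1.Dom => s.1) :=
            (Nat.bijective_iff_injective_and_card _).2 ⟨Subtype.val_injective, hcard⟩
          obtain ⟨s, rfl⟩ := h3.2 c
          exact s.2
        obtain ⟨B, k1, k2, k3⟩ := ih _ h2 A1 rfl
        exact ⟨B, k1, (MH.of_homEquiv h1).trans k2, k3.trans (MH.of_homEquiv h1.symm)⟩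
  exact key _ A rfl

theorem inv_hom {A : Str σ} (e : Equiv.Perm A.Dom) (he : IsHom A A e) : IsHom A A e.symm := by
  have h1 : ∀ k : ℕ, IsHom A A (e ^ k : Equiv.Perm A.Dom) := by
    intro k
    induction k with
    | zero => exact fun R t ht => ht
    | succ k ih =>
      rw [pow_succ]
      exact fun R t ht => ih R _ (he R t ht)
  obtain ⟨k, hk⟩ := (isOfFinOrder_of_finite e).mem_powers_iff_mem_zpowers.2
    (Subgroup.inv_mem _ (Subgroup.mem_zpowers e))
  have := h1 k
  rw [show e ^ k = e⁻¹ from hk] at this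
  exact this

theorem exists_norm {A : Str σ} (hA : Core A) : ∃ nm : ∀ I : Type, PolT A I → IPol A I,
    ∀ (I J : Type) (π : I → J) (f : PolT A I), nm J (minor π f) = iminor π (nm I f) := by
  have hu : ∀ (I : Type) (f : PolT A I), IsHom A A (fun x => f.1 (fun _ => x)) :=
    fun I f R t ht => f.2 R (fun j _ => t j) (fun _ => ht)
  refine ⟨fun I f => ⟨⟨fun t => (Equiv.ofBijective _ (hA _ (hu I f))).symm (f.1 t), fun R u h => ?_⟩,
    fun x => (Equiv.ofBijective _ (hA _ (hu I f))).symm_apply_apply x⟩, fun I J π f => rfl⟩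
  exact inv_hom (Equiv.ofBijective _ (hA _ (hu I f))) (hu I f) R _ (f.2 R u h)

theorem ms_of_cond {A : Str σ} (hA : Core A) (hM : CondM' A) (hS : CondS' A) : MS A := by
  obtain ⟨nm, hnm⟩ := exists_norm hA
  constructor
  · obtain ⟨f, h1, h2⟩ := hM
    refine ⟨nm _ f, fun B x y => ⟨?_, ?_⟩⟩
    · have := congrArg (fun g => B.op (nm _ g) ![x, y]) h1
      simp only [hnm, B.op_minor] at this
      rw [B.op_idem] at this
      refine Eq.trans (congrArg _ (funext fun i => ?_)) this
      fin_cases i <;> rfl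
    · have := congrArg (fun g => B.op (nm _ g) ![x, y]) h2
      simp only [hnm, B.op_minor] at this
      rw [B.op_idem] at this
      refine Eq.trans (congrArg _ (funext fun i => ?_)) this
      fin_cases i <;> rfl
  · intro Y _ _
    obtain ⟨f, h1, h2⟩ := hS Y
    refine ⟨nm _ f, fun B x y => ?_, fun B x y e => ?_⟩
    · have := congrArg (fun g => B.op (nm _ g) (fun b => cond b y x)) h2
      simp only [hnm, B.op_minor] at this
      rw [B.op_idem] at this
      refine Eq.trans (congrArg _ (funext fun o => ?_)) this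
      cases o <;> rfl
    · have := congrArg (fun g => B.op (nm _ g) (fun o => o.elim x y)) (h1 e)
      simp only [hnm, B.op_minor] at this
      refine Eq.trans (congrArg _ (funext fun o => ?_)) this
      cases o <;> rfl

/-! ### From the natural evaluation map to a minion homomorphism -/

def selfAlg (A : Str σ) : Alg A where
  car := A.Dom
  fin := inferInstance
  op f t := f.1.1 t
  op_minor _ _ _ := rfl
  op_idem f b := f.2 b

def relAlg (A : Str σ) (R : σ.Sym) : Alg A where
  car := {x : Fin (σ.ar R) → A.Dom // A.rel R x}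
  fin := inferInstance
  op f t := ⟨fun j => f.1.1 (fun i => (t i).1 j), f.1.2 R (fun j i => (t i).1 j) (fun i => (t i).2)⟩
  op_minor _ _ _ := rfl
  op_idem f b := Subtype.ext (funext fun j => f.2 (b.1 j))

theorem exists_bound (A : Str σ) :
    ∃ K, Nat.card A.Dom ≤ K ∧ ∀ R, Nat.card (relAlg A R).car ≤ K := by
  obtain ⟨K, hK⟩ := Finite.exists_le (fun R => Nat.card (relAlg A R).car)
  exact ⟨max K (Nat.card A.Dom), le_max_right _ _, fun R => (hK R).trans (le_max_left _ _)⟩

theorem mh_of_nat {A : Str σ} {N : Str τ} {K : ℕ} (h1 : Nat.card A.Dom ≤ K)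
    (h2 : ∀ R, Nat.card (relAlg A R).car ≤ K) {h : ∀ B : Alg A, PolT N B.car → B.car}
    (hn : NatOn A N K h) : MH N A := by
  refine ⟨fun I F => ⟨fun t => h (selfAlg A) (minor t F), fun R u hu => ?_⟩, fun I J π F => rfl⟩
  have := (h (relAlg A R) (minor (fun i => ⟨fun j => u j i, hu i⟩) F)).2
  convert this using 1
  funext j
  exact (hn (relAlg A R) (selfAlg A) (fun x => x.1 j) (fun _ _ _ => rfl) (h2 R) h1
    (minor (fun i => (⟨fun j => u j i, hu i⟩ : (relAlg A R).car)) F)).symm

/-! ### The permutation group -/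

def Idx (A : Str σ) (K : ℕ) : Type :=
  Σ k : Fin K, {ev : IPol A (Fin (k.1 + 1)) → Fin (k.1 + 1) //
    ∀ (I : Type) (f : IPol A I) (b : Fin (k.1 + 1)), ev (iminor (fun _ => b) f) = b}

instance (A : Str σ) (K : ℕ) : Finite (Idx A K) := by
  unfold Idx; infer_instance

def autG {A : Str σ} {K : ℕ} (j : Idx A K) : Subgroup (Equiv.Perm (Fin (j.1.1 + 1))) where
  carrier := {g | ∀ (I : Type) (f : IPol A I) (t : I → Fin (j.1.1 + 1)),
    g (j.2.1 (iminor t f)) = j.2.1 (iminor (fun i => g (t i)) f)}
  one_mem' := fun _ _ _ => rfl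
  mul_mem' := by
    intro a b ha hb I f t
    show a (b _) = _
    rw [hb, ha]
    rfl
  inv_mem' := by
    intro a ha I f t
    apply a.injective
    rw [ha]
    simp

abbrev GG (A : Str σ) (K : ℕ) : Type := ∀ j : Idx A K, autG j

abbrev XX (A : Str σ) (K : ℕ) : Type := ∀ j : Idx A K, Fin (j.1.1 + 1)

theorem mh_perm {A : Str σ} (hA : Core A) (K : ℕ) : MH A (permStr (GG A K) (XX A K)) := by
  obtain ⟨nm, hnm⟩ := exists_norm hA
  refine ⟨fun I f => ⟨fun (t : I → XX A K) (j : Idx A K) => j.2.1 (iminor (fun i => t i j) (nm I f)),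
    fun (g : GG A K) (u : Fin 2 → I → XX A K) hu => ?_⟩, fun I J π f => ?_⟩
  · have hu' : ∀ i, u 1 i = g • u 0 i := hu
    show (fun j : Idx A K => j.2.1 (iminor (fun i => u 1 i j) (nm I f))) =
      g • (fun j : Idx A K => j.2.1 (iminor (fun i => u 0 i j) (nm I f)))
    funext j
    refine Eq.trans ?_ ((g j).2 I (nm I f) (fun i => u 0 i j)).symm
    refine congrArg (fun r => j.2.1 (iminor r (nm I f))) (funext fun i => ?_)
    rw [hu' i]
    rfl
  · apply Subtype.ext
    funext t j
    show j.2.1 (iminor _ (nm J (minor π f))) = _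
    rw [hnm]
    rfl

theorem exists_idx {A : Str σ} {K : ℕ} (B : Alg A) (hB : Nonempty B.car) (hK : Nat.card B.car ≤ K) :
    ∃ (j : Idx A K) (ε : B.car ≃ Fin (j.1.1 + 1)), ∀ γ : Equiv.Perm B.car, Alg.Hom B B γ →
      ε.symm.trans (γ.trans ε) ∈ autG j := by
  have hpos : 0 < Nat.card B.car := Nat.card_pos
  obtain ⟨k, hk⟩ : ∃ k, Nat.card B.car = k + 1 := ⟨Nat.card B.car - 1, by omega⟩
  let ε : B.car ≃ Fin (k + 1) := Finite.equivFinOfCardEq hk
  refine ⟨⟨⟨k, by omega⟩, fun f => ε (B.op f ε.symm), fun I f b => ?_⟩, ε, fun γ hγ I f t => ?_⟩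
  · show ε (B.op _ _) = b
    rw [B.op_minor, B.op_idem, Equiv.apply_symm_apply]
  · show ε (γ (ε.symm (ε (B.op _ _)))) = ε (B.op _ _)
    rw [Equiv.symm_apply_apply, B.op_minor, B.op_minor, hγ]
    refine congrArg (fun r => ε (B.op f r)) (funext fun i => ?_)
    simp

theorem main_core {A : Str σ} (hA : Core A) (hM : CondM' A) (hS : CondS' A) :
    (∃ (G : Type) (_ : Group G) (_ : Finite G) (X : Type) (_ : Finite X) (_ : MulAction G X),
      MH A (permStr G X) ∧ MH (permStr G X) A) ∨ (MH A P1 ∧ MH P1 A) := by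
  classical
  by_cases h0 : ∃ c : A.Dom, ∀ R, A.rel R (fun _ => c)
  · obtain ⟨c, hc⟩ := h0
    refine Or.inl ⟨Equiv.Perm Unit, inferInstance, inferInstance, Unit, inferInstance, inferInstance,
      ⟨fun I _ => ⟨fun _ => (), fun _ _ _ => rfl⟩, fun _ _ _ _ => rfl⟩,
      ⟨fun I _ => ⟨fun _ => c, fun R _ _ => hc R⟩, fun _ _ _ _ => rfl⟩⟩
  by_cases h1 : Subsingleton A.Dom
  · have hne : ∀ (I : Type) (_ : PolT A I), Nonempty I := by
      intro I f
      by_contra hI
      refine h0 ⟨f.1 (fun i => (hI ⟨i⟩).elim), fun R => ?_⟩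
      exact f.2 R (fun _ i => (hI ⟨i⟩).elim) (fun i => (hI ⟨i⟩).elim)
    have hne' : ∀ (I : Type) (_ : PolT (permStr (Equiv.Perm Empty) Empty) I), Nonempty I := by
      intro I f
      by_contra hI
      exact (f.1 (fun i => (hI ⟨i⟩).elim)).elim
    refine Or.inl ⟨Equiv.Perm Empty, inferInstance, inferInstance, Empty, inferInstance,
      inferInstance, ⟨fun I f => ⟨fun t => t (hne I f).some, fun R u hu => hu _⟩, fun _ _ _ _ => ?_⟩,
      ⟨fun I f => ⟨fun t => t (hne' I f).some, fun R u hu => hu _⟩, fun _ _ _ _ => ?_⟩⟩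
    · exact Subtype.ext (funext fun t => Subsingleton.elim (α := Empty) _ _)
    · exact Subtype.ext (funext fun t => Subsingleton.elim _ _)
  obtain ⟨K, hK1, hK2⟩ := exists_bound A
  have hms := ms_of_cond hA hM hS
  by_cases h2 : ∃ x : XX A K, ∀ g : GG A K, g • x = x
  · right
    obtain ⟨x, hx⟩ := h2
    obtain ⟨a, b, hab⟩ := (not_subsingleton_iff_nontrivial.1 h1).exists_pair_ne
    obtain ⟨nm, hnm⟩ := exists_norm hA
    constructor
    · refine ⟨fun I f => ⟨fun t : I → Fin 2 =>
        (if (nm I f).1.1 (fun i => if t i = 0 then a else b) = a then 0 else 1 : Fin 2),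
        fun R (u : Fin 2 → I → Fin 2) hu => ?_⟩, fun I J π f => ?_⟩
      · have k0 : (fun i => if u 0 i = 0 then a else b) = fun _ => a :=
          funext fun i => if_pos (p1_rel (t := fun j => u j i) (hu i)).1
        have k1 : (fun i => if u 1 i = 0 then a else b) = fun _ => b :=
          funext fun i => if_neg (by
            have := (p1_rel (t := fun j => u j i) (hu i)).2
            rw [this]; decide)
        show (if (nm I f).1.1 (fun i => if u 0 i = 0 then a else b) = a then (0 : Fin 2) else 1) <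
          (if (nm I f).1.1 (fun i => if u 1 i = 0 then a else b) = a then (0 : Fin 2) else 1)
        rw [k0, k1, (nm I f).2, (nm I f).2, if_pos rfl, if_neg hab.symm]
        decide
      · apply Subtype.ext
        funext t
        show (if (nm J (minor π f)).1.1 _ = a then (0 : Fin 2) else 1) = _
        rw [hnm]
        rfl
    · obtain ⟨h, hh⟩ := nat_exists (N := P1) hms (fun I F hF => by
        have k : (show Fin 2 from F.1 (fun _ => (0 : Fin 2))) <
            (show Fin 2 from F.1 (fun _ => (1 : Fin 2))) :=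
          F.2 () (fun (j : Fin 2) _ => j) (fun _ => (by decide : (0 : Fin 2) < 1))
        exact k.ne (hF _ _)) K (fun B F hB hBK => by
        obtain ⟨j, ε, hε⟩ := exists_idx B hB hBK
        refine ⟨ε.symm (x j), fun γ hγ hγh _ => ?_⟩
        have := congrFun (hx (Pi.mulSingle j ⟨_, hε (Equiv.ofBijective γ hγ) hγh⟩)) j
        rw [Pi.smul_apply', Pi.mulSingle_eq_same] at this
        exact ε.injective ((show ε (γ (ε.symm (x j))) = x j from this).trans
          (ε.apply_symm_apply _).symm))
      exact mh_of_nat hK1 hK2 hh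
  · left
    refine ⟨GG A K, inferInstance, inferInstance, XX A K, inferInstance, inferInstance,
      mh_perm hA K, ?_⟩
    have hequi : ∀ (I : Type) (F : PolT (permStr (GG A K) (XX A K)) I) (g : GG A K)
        (t : I → XX A K), F.1 (fun i => g • t i) = g • (show XX A K from F.1 t) := by
      intro I F g t
      exact F.2 g (![t, fun i => g • t i] : Fin 2 → I → XX A K) (fun _ => rfl)
    obtain ⟨h, hh⟩ := nat_exists (N := permStr (GG A K) (XX A K)) hms (fun I F hF => by
      refine h2 ⟨F.1 (fun _ => fun _ => 0), fun g => ?_⟩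
      exact (hequi I F g _).symm.trans (hF _ _)) K (fun B F hB hBK => by
      obtain ⟨j, ε, hε⟩ := exists_idx B hB hBK
      let t0 : B.car → XX A K := fun b => Function.update (fun _ => 0) j (ε b)
      refine ⟨ε.symm (F.1 t0 j), fun γ hγ hγh hγF => ?_⟩
      let g : GG A K := Pi.mulSingle j ⟨_, hε (Equiv.ofBijective γ hγ) hγh⟩
      have e1 : (fun b => g • t0 b) = fun b => t0 (γ b) := by
        funext b j'
        rw [Pi.smul_apply']
        by_cases hj : j' = j
        · subst hj
          simp only [g, t0, Pi.mulSingle_eq_same, Function.update_self]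
          show ε (γ (ε.symm (ε b))) = _
          rw [Equiv.symm_apply_apply]
        · simp only [g, t0, Pi.mulSingle_eq_of_ne hj, Function.update_of_ne hj, one_smul]
      have e2 := hequi _ F g t0
      rw [e1] at e2
      have e3 : F.1 (fun b => t0 (γ b)) = F.1 t0 := congrArg (fun H => H.1 t0) hγF
      have := congrFun (e2.symm.trans e3) j
      rw [Pi.smul_apply'] at this
      simp only [g, Pi.mulSingle_eq_same] at this
      exact ε.injective ((show ε (γ (ε.symm (F.1 t0 j))) = F.1 t0 j from this).trans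
        (ε.apply_symm_apply _).symm))
    exact mh_of_nat hK1 hK2 hh

theorem main (A : Str σ) : (CondM A ∧ CondS A) ↔
    ((∃ (G : Type) (_ : Group G) (_ : Finite G) (X : Type) (_ : Finite X) (_ : MulAction G X),
      Inter A (permStr G X)) ∨ Inter A P1) := by
  rw [condM_iff, condS_iff]
  constructor
  · rintro ⟨hM, hS⟩
    obtain ⟨B, hB, k1, k2⟩ := exists_core A
    rcases main_core hB (k1.condM' hM) (k1.condS' hS) with ⟨G, i1, i2, X, i3, i4, h1, h2⟩ | ⟨h1, h2⟩
    · exact Or.inl ⟨G, i1, i2, X, i3, i4, (inter_iff _ _).2 ⟨k1.trans h1, h2.trans k2⟩⟩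
    · exact Or.inr ((inter_iff _ _).2 ⟨k1.trans h1, h2.trans k2⟩)
  · rintro (⟨G, i1, i2, X, i3, i4, h⟩ | h)
    · have := ((inter_iff _ _).1 h).2
      exact ⟨this.condM' (cond_perm G X).1, this.condS' (cond_perm G X).2⟩
    · have := ((inter_iff _ _).1 h).2
      exact ⟨this.condM' cond_P1.1, this.condS' cond_P1.2⟩

end Pool.Agent.H434Z.PP
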