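import Pool.Agent.H434Z.PPDefs

/-!
Minion homomorphisms and pp-constructions.
-/

set_option autoImplicit false

namespace Pool.Agent.H434Z.PP

variable {σ τ υ : Sig}

instance (σ : Sig) : Finite σ.Sym := σ.fin
instance (A : Str σ) : Finite A.Dom := A.fin

/-- Polymorphisms with arguments indexed by any type. -/
def Pol (A : Str σ) {I : Type} (f : (I → A.Dom) → A.Dom) : Prop :=
  ∀ (R : σ.Sym) (u : Fin (σ.ar R) → I → A.Dom), (∀ i, A.rel R (fun j => u j i)) →
    A.rel R (fun j => f (u j))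

theorem isPol_iff (A : Str σ) (n : ℕ) (f : (Fin n → A.Dom) → A.Dom) : IsPol A n f ↔ Pol A f :=
  Iff.rfl

def PolT (A : Str σ) (I : Type) : Type := {f : (I → A.Dom) → A.Dom // Pol A f}

def minor {A : Str σ} {I J : Type} (π : I → J) (f : PolT A I) : PolT A J :=
  ⟨fun t => f.1 (fun i => t (π i)), fun R u hu => f.2 R (fun j i => u j (π i)) (fun i => hu (π i))⟩

theorem minor_apply {A : Str σ} {I J : Type} (π : I → J) (f : PolT A I) (t : J → A.Dom) :
    (minor π f).1 t = f.1 (fun i => t (π i)) := rfl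

theorem minor_minor {A : Str σ} {I J K : Type} (π : I → J) (ρ : J → K) (f : PolT A I) :
    minor ρ (minor π f) = minor (fun i => ρ (π i)) f := rfl

theorem minor_id {A : Str σ} {I : Type} (f : PolT A I) : minor (fun i => i) f = f := rfl

instance (A : Str σ) (I : Type) [Finite I] : Finite (PolT A I) := by
  unfold PolT; infer_instance

/-- There is a minion homomorphism `Pol A → Pol B`. -/
def MH (A : Str σ) (B : Str τ) : Prop :=
  ∃ ξ : ∀ I : Type, PolT A I → PolT B I,
    ∀ (I J : Type) (π : I → J) (f : PolT A I), ξ J (minor π f) = minor π (ξ I f)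

theorem MH.trans {A : Str σ} {B : Str τ} {C : Str υ} (h1 : MH A B) (h2 : MH B C) : MH A C := by
  obtain ⟨ξ, hξ⟩ := h1
  obtain ⟨ζ, hζ⟩ := h2
  exact ⟨fun I f => ζ I (ξ I f), fun I J π f => by
    show ζ J (ξ J (minor π f)) = minor π (ζ I (ξ I f))
    rw [hξ, hζ]⟩

theorem MH.of_homEquiv {A B : Str σ} (h : HomEquiv A B) : MH A B := by
  obtain ⟨⟨α, hα⟩, ⟨β, hβ⟩⟩ := h
  refine ⟨fun I f => ⟨fun t => α (f.1 (fun i => β (t i))), fun R u hu => ?_⟩, fun I J π f => rfl⟩
  exact hα R _ (f.2 R (fun j i => β (u j i)) (fun i => hβ R _ (hu i)))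

theorem HomEquiv.symm {A B : Str σ} (h : HomEquiv A B) : HomEquiv B A := ⟨h.2, h.1⟩

section SatLemmas

variable {A : Str σ} {V : Type}

theorem sat_top (a : V → A.Dom) : Sat A Formula.top a ↔ True := ⟨fun _ => trivial, fun _ => Sat.top a⟩

theorem sat_eq (x y : V) (a : V → A.Dom) : Sat A (Formula.eq x y) a ↔ a x = a y :=
  ⟨fun h => by cases h; assumption, fun h => Sat.eq x y a h⟩

theorem sat_rel (R : σ.Sym) (x : Fin (σ.ar R) → V) (a : V → A.Dom) :
    Sat A (Formula.rel R x) a ↔ A.rel R (fun j => a (x j)) :=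
  ⟨fun h => by cases h; assumption, fun h => Sat.rel R x a h⟩

theorem sat_and (φ ψ : Formula σ V) (a : V → A.Dom) :
    Sat A (Formula.and φ ψ) a ↔ Sat A φ a ∧ Sat A ψ a :=
  ⟨fun h => by cases h; exact ⟨by assumption, by assumption⟩, fun h => Sat.and φ ψ a h.1 h.2⟩

theorem sat_ex (φ : Formula σ (Option V)) (a : V → A.Dom) :
    Sat A (Formula.ex φ) a ↔ ∃ b, Sat A φ (fun o => o.elim b a) :=
  ⟨fun h => by cases h; exact ⟨_, by assumption⟩, fun ⟨b, h⟩ => Sat.ex φ a b h⟩

end SatLemmas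

/-- pp-definable relations are preserved by polymorphisms. -/
theorem sat_pol {A : Str σ} {I : Type} (f : PolT A I) {V : Type} (φ : Formula σ V) :
    ∀ a : I → V → A.Dom, (∀ i, Sat A φ (a i)) → Sat A φ (fun v => f.1 (fun i => a i v)) := by
  induction φ with
  | top => intro a _; exact Sat.top _
  | eq x y =>
    intro a h
    rw [sat_eq]
    exact congrArg f.1 (funext fun i => (sat_eq x y _).1 (h i))
  | rel R x =>
    intro a h
    rw [sat_rel]
    exact f.2 R (fun j i => a i (x j)) (fun i => (sat_rel R x _).1 (h i))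
  | and φ ψ ih1 ih2 =>
    intro a h
    rw [sat_and]
    exact ⟨ih1 a (fun i => ((sat_and φ ψ _).1 (h i)).1), ih2 a (fun i => ((sat_and φ ψ _).1 (h i)).2)⟩
  | ex φ ih =>
    intro a h
    rw [sat_ex]
    choose b hb using fun i => (sat_ex φ _).1 (h i)
    refine ⟨f.1 b, ?_⟩
    have := ih _ hb
    convert this using 1
    funext o
    cases o <;> rfl

theorem MH.of_constructs {A : Str σ} {B : Str τ} (h : Constructs A B) : MH A B := by
  obtain ⟨n, φ, ψ, h⟩ := h
  refine MH.trans ?_ (MH.of_homEquiv h)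
  refine ⟨fun I f => ⟨fun t => ⟨fun v => f.1 (fun i => (t i).1 v), sat_pol f φ _ (fun i => (t i).2)⟩,
    fun R u hu => ?_⟩, fun I J π f => rfl⟩
  exact sat_pol f (ψ R) (fun i p => (u p.1 i).1 p.2) hu

/-- pp-definable sets of assignments. -/
def Definable (A : Str σ) (V : Type) (S : (V → A.Dom) → Prop) : Prop :=
  ∃ φ : Formula σ V, ∀ a, Sat A φ a ↔ S a

theorem sat_rename {A : Str σ} {V : Type} (φ : Formula σ V) :
    ∀ (W : Type) (g : V → W), ∃ ψ : Formula σ W, ∀ a, Sat A ψ a ↔ Sat A φ (fun v => a (g v)) := by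
  induction φ with
  | top => intro W g; exact ⟨Formula.top, fun a => by rw [sat_top, sat_top]⟩
  | eq x y => intro W g; exact ⟨Formula.eq (g x) (g y), fun a => by rw [sat_eq, sat_eq]⟩
  | rel R x => intro W g; exact ⟨Formula.rel R (fun j => g (x j)), fun a => by rw [sat_rel, sat_rel]⟩
  | and φ ψ ih1 ih2 =>
    intro W g
    obtain ⟨φ', h1⟩ := ih1 W g
    obtain ⟨ψ', h2⟩ := ih2 W g
    exact ⟨Formula.and φ' ψ', fun a => by rw [sat_and, sat_and, h1, h2]⟩
  | ex φ ih =>
    intro W g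
    obtain ⟨φ', h1⟩ := ih (Option W) (Option.map g)
    refine ⟨Formula.ex φ', fun a => ?_⟩
    rw [sat_ex, sat_ex]
    refine exists_congr fun b => ?_
    rw [h1]
    have : (fun v => (Option.map g v).elim b a) = fun o => Option.elim o b (fun v => a (g v)) := by
      funext o; cases o <;> rfl
    rw [this]

namespace Definable

variable {A : Str σ}

theorem congr {V : Type} {S T : (V → A.Dom) → Prop} (h : Definable A V S) (hST : ∀ a, S a ↔ T a) :
    Definable A V T := by
  obtain ⟨φ, hφ⟩ := h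
  exact ⟨φ, fun a => (hφ a).trans (hST a)⟩

theorem rename {V W : Type} {S : (V → A.Dom) → Prop} (h : Definable A V S) (g : V → W) :
    Definable A W (fun a => S (fun v => a (g v))) := by
  obtain ⟨φ, hφ⟩ := h
  obtain ⟨ψ, hψ⟩ := sat_rename (A := A) φ W g
  exact ⟨ψ, fun a => (hψ a).trans (hφ _)⟩

theorem and {V : Type} {S T : (V → A.Dom) → Prop} (h1 : Definable A V S) (h2 : Definable A V T) :
    Definable A V (fun a => S a ∧ T a) := by
  obtain ⟨φ, hφ⟩ := h1
  obtain ⟨ψ, hψ⟩ := h2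
  exact ⟨Formula.and φ ψ, fun a => by rw [sat_and, hφ, hψ]⟩

theorem eq {V : Type} (x y : V) : Definable A V (fun a => a x = a y) := ⟨Formula.eq x y, sat_eq x y⟩

theorem rel {V : Type} (R : σ.Sym) (x : Fin (σ.ar R) → V) :
    Definable A V (fun a => A.rel R (fun j => a (x j))) := ⟨Formula.rel R x, sat_rel R x⟩

theorem all {V : Type} {κ : Type} [Finite κ] {S : κ → (V → A.Dom) → Prop}
    (h : ∀ k, Definable A V (S k)) : Definable A V (fun a => ∀ k, S k a) := by
  classical
  have key : ∀ s : Finset κ, Definable A V (fun a => ∀ k ∈ s, S k a) := by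
    intro s
    induction s using Finset.induction_on with
    | empty => exact ⟨Formula.top, fun a => by rw [sat_top]; simp⟩
    | insert k s _ ih =>
      refine ((h k).and ih).congr fun a => ?_
      simp
  have := Fintype.ofFinite κ
  refine (key Finset.univ).congr fun a => ?_
  simp

theorem ex (W : Type) [Finite W] : ∀ (V : Type) (S : (V ⊕ W → A.Dom) → Prop),
    Definable A (V ⊕ W) S → Definable A V (fun a => ∃ w : W → A.Dom, S (Sum.elim a w)) := by
  induction W using Finite.induction_empty_option with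
  | of_equiv e ih =>
    rename_i α β
    intro V S hS
    have h1 := ih V _ (hS.rename (Sum.map id e.symm))
    refine h1.congr fun a => ⟨?_, ?_⟩
    · rintro ⟨w, hw⟩
      refine ⟨fun b => w (e.symm b), ?_⟩
      convert hw using 1
      funext v; cases v <;> rfl
    · rintro ⟨w, hw⟩
      refine ⟨fun b => w (e b), ?_⟩
      convert hw using 1
      funext v; cases v <;> simp
  | h_empty =>
    intro V S hS
    refine (hS.rename (Sum.elim id PEmpty.elim)).congr fun a => ⟨?_, ?_⟩
    · intro h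
      refine ⟨PEmpty.elim, ?_⟩
      convert h using 1
      funext v; rcases v with v | v
      · rfl
      · exact v.elim
    · rintro ⟨w, h⟩
      convert h using 1
      funext v; rcases v with v | v
      · rfl
      · exact v.elim
  | h_option ih =>
    rename_i α _
    intro V S hS
    have h1 := ih (Option V) _ (hS.rename (W := Option V ⊕ α)
      (Sum.elim (fun v => Sum.inl (some v)) (fun o => o.elim (Sum.inl none) Sum.inr)))
    obtain ⟨φ, hφ⟩ := h1
    refine ⟨Formula.ex φ, fun a => ?_⟩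
    rw [sat_ex]
    constructor
    · rintro ⟨b, hb⟩
      obtain ⟨w, hw⟩ := (hφ _).1 hb
      refine ⟨fun o => o.elim b w, ?_⟩
      convert hw using 1
      funext v; rcases v with v | _ | v <;> rfl
    · rintro ⟨w, hw⟩
      refine ⟨w none, (hφ _).2 ⟨fun x => w (some x), ?_⟩⟩
      convert hw using 1
      funext v; rcases v with v | _ | v <;> rfl

theorem pol (A : Str σ) (I : Type) [Finite I] : Definable A (I → A.Dom) (fun f => Pol A f) := by
  have h1 : ∀ k : (Σ R : σ.Sym, {u : Fin (σ.ar R) → I → A.Dom // ∀ i, A.rel R (fun j => u j i)}),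
      Definable A (I → A.Dom) (fun f => A.rel k.1 (fun j => f (k.2.1 j))) := fun k => rel k.1 k.2.1
  refine (all h1).congr fun f => ⟨fun h R u hu => h ⟨R, u, hu⟩, fun h k => h k.1 k.2.1 k.2.2⟩

end Definable

theorem MH.constructs {A : Str σ} {B : Str τ} (h : MH A B) : Constructs A B := by
  classical
  obtain ⟨ξ, hξ⟩ := h
  obtain ⟨n, ⟨e⟩⟩ := Finite.exists_equiv_fin (B.Dom → A.Dom)
  obtain ⟨φ, hφ⟩ := (Definable.pol A B.Dom).rename e
  have hψ : ∀ R : τ.Sym, Definable A (Fin (τ.ar R) × Fin n) (fun a =>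
      ∃ F : ({t : Fin (τ.ar R) → B.Dom // B.rel R t} → A.Dom) → A.Dom, Pol A F ∧
        ∀ p : Fin (τ.ar R) × (B.Dom → A.Dom), a (p.1, e p.2) = F (fun s => p.2 (s.1 p.1))) := by
    intro R
    have h1 := (Definable.pol A {t : Fin (τ.ar R) → B.Dom // B.rel R t}).rename
      (W := (Fin (τ.ar R) × Fin n) ⊕ ({t : Fin (τ.ar R) → B.Dom // B.rel R t} → A.Dom)) Sum.inr
    have h2 : Definable A ((Fin (τ.ar R) × Fin n) ⊕ ({t : Fin (τ.ar R) → B.Dom // B.rel R t} → A.Dom))
        (fun a => ∀ p : Fin (τ.ar R) × (B.Dom → A.Dom),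
          a (Sum.inl (p.1, e p.2)) = a (Sum.inr (fun s => p.2 (s.1 p.1)))) :=
      Definable.all fun p => Definable.eq _ _
    exact (Definable.ex _ _ _ (h1.and h2)).congr fun a => Iff.rfl
  choose ψ hψ using hψ
  refine ⟨n, φ, ψ, ⟨fun x => (ξ _ ⟨fun t => x.1 (e t), (hφ _).1 x.2⟩).1 (fun b => b), ?_⟩,
    ⟨fun b => ⟨fun k => e.symm k b, (hφ _).2 ?_⟩, ?_⟩⟩
  · intro R t ht
    obtain ⟨F, hF, hF2⟩ := (hψ R _).1 ht
    have h1 : ∀ j, (⟨fun t' => (t j).1 (e t'), (hφ _).1 (t j).2⟩ : PolT A B.Dom) =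
        minor (fun s : {t : Fin (τ.ar R) → B.Dom // B.rel R t} => s.1 j) ⟨F, hF⟩ := by
      intro j
      apply Subtype.ext
      funext t'
      exact hF2 (j, t')
    have h2 := (ξ _ ⟨F, hF⟩).2 R (fun j s => s.1 j) (fun s => s.2)
    convert h2 using 1
    funext j
    exact (congrArg (fun g => (ξ _ g).1 (fun b => b)) (h1 j)).trans
      (congrArg (fun g : PolT B B.Dom => g.1 (fun b => b)) (hξ _ _ _ _))
  · intro R u hu
    simpa using hu b
  · intro R t ht
    refine (hψ R _).2 ⟨fun s => s ⟨t, ht⟩, fun R' u hu => hu _, fun p => ?_⟩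
    simp

theorem inter_iff (A : Str σ) (B : Str τ) : Inter A B ↔ MH A B ∧ MH B A :=
  ⟨fun h => ⟨MH.of_constructs h.1, MH.of_constructs h.2⟩, fun h => ⟨h.1.constructs, h.2.constructs⟩⟩

end Pool.Agent.H434Z.PP
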