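import Pool.Agent.H434Z.PPAlg

/-!
The natural evaluation map, built by induction on the size of the algebra.
-/

set_option autoImplicit false

namespace Pool.Agent.H434Z.PP

variable {σ τ : Sig} {A : Str σ} {N : Str τ}

/-- Naturality for algebras with at most `n` elements. -/
def NatOn (A : Str σ) (N : Str τ) (n : ℕ) (h : ∀ B : Alg A, PolT N B.car → B.car) : Prop :=
  ∀ (B C : Alg A) (π : B.car → C.car), Alg.Hom B C π → Nat.card B.car ≤ n → Nat.card C.car ≤ n →
    ∀ F, π (h B F) = h C (minor π F)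

theorem card_sub_le (B : Alg A) (S : B.car → Prop) (hS : B.Closed S) :
    Nat.card (B.sub S hS).car ≤ Nat.card B.car :=
  Nat.card_le_card_of_injective (fun b : (B.sub S hS).car => b.1) Subtype.val_injective

theorem card_range_le {B C : Alg A} {π : B.car → C.car} (h : Alg.Hom B C π) :
    Nat.card (C.sub _ h.range_closed).car ≤ Nat.card B.car :=
  Nat.card_le_card_of_surjective (fun b : B.car => (⟨π b, b, rfl⟩ : (C.sub _ h.range_closed).car))
    (fun ⟨_, b, hb⟩ => ⟨b, Subtype.ext hb⟩)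

theorem corestrict_hom {B C : Alg A} {π : B.car → C.car} (h : Alg.Hom B C π) :
    Alg.Hom B (C.sub _ h.range_closed) (fun b => ⟨π b, b, rfl⟩) :=
  fun I f t => Subtype.ext (h I f t)

section Step

variable {n : ℕ} {h : ∀ B : Alg A, PolT N B.car → B.car}

/-- Two supports give the same value. -/
theorem supp_aux (hn : NatOn A N n h) {B S : Alg A} {ι : S.car → B.car} (hι : Alg.Hom S B ι)
    (hS : Nat.card S.car ≤ n) (G : PolT N S.car) (T : B.car → Prop) (hT : B.Closed T)
    (hTι : ∀ b, T b → ∃ s, ι s = b) (t0 : B.car) (ht0 : T t0) (H : PolT N (B.sub T hT).car)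
    (hH : minor (fun b : (B.sub T hT).car => b.1) H = minor ι G) :
    ι (h S G) = (h (B.sub T hT) H).1 := by
  classical
  let S1 := B.sub _ hι.range_closed
  have c1 : Nat.card S1.car ≤ n := (card_range_le hι).trans hS
  let j : (B.sub T hT).car → S1.car := fun b => ⟨b.1, hTι b.1 b.2⟩
  have hj : Alg.Hom (B.sub T hT) S1 j := fun I f t => rfl
  have c2 : Nat.card (B.sub T hT).car ≤ n :=
    (Nat.card_le_card_of_injective j (fun a b e => Subtype.ext (congrArg (fun x : S1.car => x.1) e))).trans c1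
  have e1 := hn S S1 _ (corestrict_hom hι) hS c1 G
  have e2 := hn _ S1 j hj c2 c1 H
  let ρ : B.car → S1.car := fun b => if hb : ∃ s, ι s = b then ⟨b, hb⟩ else ⟨t0, hTι t0 ht0⟩
  have hρ : ∀ b : S1.car, ρ b.1 = b := fun b => dif_pos b.2
  have e3 : minor j H = minor (fun b => (⟨ι b, b, rfl⟩ : S1.car)) G := by
    have := congrArg (minor ρ) hH
    rw [minor_minor, minor_minor] at this
    have k1 : (fun i : (B.sub T hT).car => ρ i.1) = j := funext fun i => hρ (j i)
    have k2 : (fun i => ρ (ι i)) = fun b => (⟨ι b, b, rfl⟩ : S1.car) :=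
      funext fun i => hρ ⟨ι i, i, rfl⟩
    rw [k1, k2] at this
    exact this
  have e4 := e2.trans ((congrArg (h S1) e3).trans e1.symm)
  exact (congrArg (fun x : S1.car => x.1) e4).symm

theorem supp_unique (hi : ∀ (I : Type) (F : PolT N I), ¬ ∀ t t', F.1 t = F.1 t')
    (hn : NatOn A N n h) {B S S' : Alg A} {ι : S.car → B.car} {ι' : S'.car → B.car}
    (hι : Alg.Hom S B ι) (hι' : Alg.Hom S' B ι') (hS : Nat.card S.car ≤ n)
    (hS' : Nat.card S'.car ≤ n) (G : PolT N S.car) (G' : PolT N S'.car)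
    (hG : minor ι G = minor ι' G') : ι (h S G) = ι' (h S' G') := by
  classical
  let T : B.car → Prop := fun b => (∃ s, ι s = b) ∧ ∃ s, ι' s = b
  have hT : B.Closed T := fun I f t ht =>
    ⟨hι.range_closed I f t (fun i => (ht i).1), hι'.range_closed I f t (fun i => (ht i).2)⟩
  have dep : ∀ t t' : B.car → N.Dom, (∀ b, T b → t b = t' b) → (minor ι G).1 t = (minor ι G).1 t' := by
    intro t t' htt
    let t'' : B.car → N.Dom := fun b => if ∃ s, ι s = b then t b else t' b
    have k1 : (minor ι G).1 t = (minor ι G).1 t'' := by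
      rw [minor_apply, minor_apply]
      refine congrArg _ (funext fun s => ?_)
      exact (if_pos ⟨s, rfl⟩).symm
    have k2 : (minor ι' G').1 t'' = (minor ι' G').1 t' := by
      rw [minor_apply, minor_apply]
      refine congrArg _ (funext fun s => ?_)
      show (if ∃ s', ι s' = ι' s then t (ι' s) else t' (ι' s)) = _
      split_ifs with hc
      · exact htt _ ⟨hc, s, rfl⟩
      · rfl
    rw [k1, hG, k2]
  obtain ⟨t0, ht0⟩ : ∃ t0, T t0 := by
    by_contra hc
    exact hi _ (minor ι G) fun t t' => dep t t' fun b hb => (hc ⟨b, hb⟩).elim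
  let ρ : B.car → (B.sub T hT).car := fun b => if hb : T b then ⟨b, hb⟩ else ⟨t0, ht0⟩
  have hH : minor (fun b : (B.sub T hT).car => b.1) (minor ρ (minor ι G)) = minor ι G := by
    rw [minor_minor]
    apply Subtype.ext
    funext t
    refine dep (fun b => t (ρ b).1) t fun b hb => ?_
    show t (ρ b).1 = t b
    rw [show ρ b = ⟨b, hb⟩ from dif_pos hb]
  rw [supp_aux hn hι hS G T hT (fun b hb => hb.1) t0 ht0 _ hH,
    supp_aux hn hι' hS' G' T hT (fun b hb => hb.2) t0 ht0 _ (hH.trans hG)]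

/-- Monotonicity of the fibres. -/
theorem fib_mono (hn : NatOn A N n h) {B C D : Alg A} {π : B.car → C.car} {q : B.car → D.car}
    (hπ : Alg.Hom B C π) (hq : Alg.Hom B D q) (hC : Nat.card C.car ≤ n) (hD : Nat.card D.car ≤ n)
    (hker : ∀ u v, π u = π v → q u = q v) (F : PolT N B.car) (b : B.car)
    (hb : π b = h C (minor π F)) : q b = h D (minor q F) := by
  let S := C.sub _ hπ.range_closed
  have c1 : Nat.card S.car ≤ n := (card_sub_le _ _ _).trans hC
  let r : S.car → D.car := fun s => q s.2.choose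
  have hr : ∀ b, r ⟨π b, b, rfl⟩ = q b := fun b =>
    hker _ _ (Exists.choose_spec (⟨b, rfl⟩ : ∃ b', π b' = π b))
  have hrh : Alg.Hom S D r := by
    intro I f t
    have k1 : S.op f t = ⟨π (B.op f (fun i => (t i).2.choose)), _, rfl⟩ := by
      apply Subtype.ext
      show C.op f (fun i => (t i).1) = π _
      rw [hπ]
      exact congrArg _ (funext fun i => (t i).2.choose_spec.symm)
    rw [k1, hr, hq]
  have e1 := hn S C _ (Alg.sub_hom _ _ _) c1 hC (minor (fun b => (⟨π b, b, rfl⟩ : S.car)) F)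
  have e2 := hn S D r hrh c1 hD (minor (fun b => (⟨π b, b, rfl⟩ : S.car)) F)
  rw [minor_minor] at e1 e2
  have e3 : h S (minor (fun b => (⟨π b, b, rfl⟩ : S.car)) F) = ⟨π b, b, rfl⟩ :=
    Subtype.ext (e1.trans hb.symm)
  rw [e3, hr] at e2
  rw [e2]
  exact congrArg (fun g => h D (minor g F)) (funext hr)

theorem fib_nonempty (hn : NatOn A N n h) {B C : Alg A} {π : B.car → C.car}
    (hπ : Alg.Hom B C π) (hC : Nat.card C.car ≤ n) (F : PolT N B.car) :
    ∃ b, π b = h C (minor π F) := by
  let S := C.sub _ hπ.range_closed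
  have c1 : Nat.card S.car ≤ n := (card_sub_le _ _ _).trans hC
  have e1 := hn S C _ (Alg.sub_hom _ _ _) c1 hC (minor (fun b => (⟨π b, b, rfl⟩ : S.car)) F)
  rw [minor_minor] at e1
  obtain ⟨b, hb⟩ := (h S (minor (fun b => (⟨π b, b, rfl⟩ : S.car)) F)).2
  exact ⟨b, hb.trans e1⟩

theorem fib_fixed (hA : MS A) (hn : NatOn A N n h) (B : Alg A) (F : PolT N B.car) (b0 : B.car)
    (hb0 : ∀ γ : B.car → B.car, Function.Bijective γ → Alg.Hom B B γ → minor γ F = F → γ b0 = b0) :
    ∃ b, (∀ (C : Alg A) (π : B.car → C.car), Alg.Hom B C π → Nat.card C.car ≤ n →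
      π b = h C (minor π F)) ∧
      ∀ γ : B.car → B.car, Function.Bijective γ → Alg.Hom B B γ → minor γ F = F → γ b = b := by
  obtain ⟨b1, hb1⟩ := helly hA B {Z | ∃ (C : Alg A) (π : B.car → C.car), Alg.Hom B C π ∧
      Nat.card C.car ≤ n ∧ Z = {b | π b = h C (minor π F)}} (by
    rintro Z ⟨C, π, hπ, hC, rfl⟩
    obtain ⟨a, ha⟩ := fib_nonempty hn hπ hC F
    exact ⟨_, hπ.ker_cong, a, fun b => by rw [← ha]; rfl⟩) (by
    rintro Z ⟨C, π, hπ, hC, rfl⟩ Z' ⟨C', π', hπ', hC', rfl⟩
    obtain ⟨a, ha⟩ := fib_nonempty hn hπ hC F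
    obtain ⟨a', ha'⟩ := fib_nonempty hn hπ' hC' F
    have hE := join_cong hA hπ hπ'
    have hq := B.quot_hom _ hE
    have hD : Nat.card (B.quot _ hE).car ≤ n := by
      refine le_trans ?_ ((card_sub_le _ _ hπ.range_closed).trans hC)
      refine Nat.card_le_card_of_surjective
        (fun s : (C.sub _ hπ.range_closed).car => (Quotient.mk _ s.2.choose : (B.quot _ hE).car)) ?_
      intro x
      obtain ⟨b, rfl⟩ := Quotient.exists_rep x
      exact ⟨⟨π b, b, rfl⟩, Quotient.sound
        ⟨b, Exists.choose_spec (⟨b, rfl⟩ : ∃ b', π b' = π b), rfl⟩⟩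
    have e1 := fib_mono hn hπ hq hC hD (fun u v huv => Quotient.sound ⟨v, huv, rfl⟩) F a ha
    have e2 := fib_mono hn hπ' hq hC' hD (fun u v huv => Quotient.sound ⟨u, rfl, huv⟩) F a' ha'
    obtain ⟨w, k1, k2⟩ := Quotient.exact (e1.trans e2.symm)
    exact ⟨w, k1.symm.trans ha, k2.trans ha'⟩) b0
  let Y : Type := {b : B.car // ∀ (C : Alg A) (π : B.car → C.car), Alg.Hom B C π →
    Nat.card C.car ≤ n → π b = h C (minor π F)}
  have : Nonempty Y := ⟨⟨b1, fun C π hπ hC => hb1 _ ⟨C, π, hπ, hC, rfl⟩⟩⟩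
  obtain ⟨s, hs1, hs2⟩ := hA.sym Y
  refine ⟨B.op s (fun o => o.elim b0 (fun y => y.1)), fun C π hπ hC => ?_, fun γ hγ hγh hγF => ?_⟩
  · rw [hπ, ← hs1 C (π b0) (h C (minor π F))]
    refine congrArg _ (funext fun o => ?_)
    cases o with
    | none => rfl
    | some y => exact y.2 C π hπ hC
  · let g : Y → Y := fun y => ⟨γ y.1, fun C π hπ hC => by
      have := y.2 C _ (hγh.comp hπ) hC
      rw [← minor_minor, hγF] at this
      exact this⟩
    have hg : Function.Injective g := fun y y' e => Subtype.ext (hγ.1 (congrArg Subtype.val e))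
    rw [hγh, ← hs2 B b0 (fun y => y.1) (Equiv.ofBijective g (Finite.injective_iff_bijective.1 hg))]
    refine congrArg _ (funext fun o => ?_)
    cases o with
    | none => exact hb0 γ hγ hγh hγF
    | some y => rfl

theorem nat_step (hA : MS A) (hi : ∀ (I : Type) (F : PolT N I), ¬ ∀ t t', F.1 t = F.1 t')
    (hii : ∀ (B : Alg A) (F : PolT N B.car), Nat.card B.car = n + 1 → ∃ b0 : B.car,
      ∀ γ : B.car → B.car, Function.Bijective γ → Alg.Hom B B γ → minor γ F = F → γ b0 = b0)
    (hn : NatOn A N n h) : ∃ h', NatOn A N (n + 1) h' := by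
  classical
  obtain ⟨k, hk1, hk2⟩ := inv_choice
    (P := Σ B : {B : Alg A // Nat.card B.car = n + 1}, PolT N B.1.car) (fun p => p.1.1.car)
    (fun p q φ => Function.Bijective φ ∧ Alg.Hom p.1.1 q.1.1 φ ∧ minor φ p.2 = q.2)
    (fun p b => (∀ (C : Alg A) (π : p.1.1.car → C.car), Alg.Hom p.1.1 C π → Nat.card C.car ≤ n →
      π b = h C (minor π p.2)) ∧ ∀ (S : Alg A) (ι : S.car → p.1.1.car) (G : PolT N S.car),
        Alg.Hom S p.1.1 ι → Nat.card S.car ≤ n → minor ι G = p.2 → b = ι (h S G))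
    (fun p => ⟨Function.bijective_id, fun _ _ _ => rfl, rfl⟩)
    (fun p q r φ ψ k1 k2 => ⟨k2.1.comp k1.1, k1.2.1.comp k2.2.1, by
      rw [← minor_minor, k1.2.2, k2.2.2]⟩)
    (fun p q φ k1 => by
      let e := Equiv.ofBijective φ k1.1
      refine ⟨e.symm, ⟨e.symm.bijective, fun I f t => ?_, ?_⟩, e.apply_symm_apply⟩
      · apply k1.1.1
        rw [k1.2.1]
        exact (e.apply_symm_apply _).trans (congrArg _ (funext fun i => (e.apply_symm_apply _).symm))
      · rw [← k1.2.2, minor_minor]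
        exact congrArg (fun g => minor g p.2) (funext e.symm_apply_apply))
    (fun p q φ x k1 k2 => by
      refine ⟨fun C π hπ hC => ?_, fun S ι G hι hS hG => ?_⟩
      · rw [← k1.2.2, minor_minor]
        exact k2.1 C _ (k1.2.1.comp hπ) hC
      · let e := Equiv.ofBijective φ k1.1
        have he : Alg.Hom q.1.1 p.1.1 e.symm := by
          intro I f t
          apply k1.1.1
          rw [k1.2.1]
          exact (e.apply_symm_apply _).trans
            (congrArg _ (funext fun i => (e.apply_symm_apply _).symm))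
        have := k2.2 S _ G (hι.comp he) hS (by
          rw [← minor_minor, hG, ← k1.2.2, minor_minor]
          exact congrArg (fun g => minor g p.2) (funext e.symm_apply_apply))
        rw [this]
        exact e.apply_symm_apply _)
    (fun p => by
      obtain ⟨⟨B, hB⟩, F⟩ := p
      by_cases hc : ∃ (S : Alg A) (ι : S.car → B.car) (G : PolT N S.car),
        Alg.Hom S B ι ∧ Nat.card S.car ≤ n ∧ minor ι G = F
      · obtain ⟨S, ι, G, hι, hS, hG⟩ := hc
        refine ⟨ι (h S G), ⟨fun C π hπ hC => ?_, fun S' ι' G' hι' hS' hG' => ?_⟩, fun φ hφ => ?_⟩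
        · have := hn S C _ (hι.comp hπ) hS hC G
          rw [← minor_minor, hG] at this
          exact this
        · exact supp_unique hi hn hι hι' hS hS' G G' (hG.trans hG'.symm)
        · exact supp_unique hi hn (hι.comp hφ.2.1) hι hS hS G G (by
            rw [← minor_minor, hG]; exact hφ.2.2)
      · obtain ⟨b0, hb0⟩ := hii B F hB
        obtain ⟨b, k1, k2⟩ := fib_fixed hA hn B F b0 hb0
        exact ⟨b, ⟨k1, fun S ι G hι hS hG => (hc ⟨S, ι, G, hι, hS, hG⟩).elim⟩,
          fun φ hφ => k2 φ hφ.1 hφ.2.1 hφ.2.2⟩)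
  refine ⟨fun B F => if hB : Nat.card B.car = n + 1 then k ⟨⟨B, hB⟩, F⟩ else h B F, ?_⟩
  intro B C π hπ hB hC F
  by_cases eB : Nat.card B.car = n + 1
  · by_cases eC : Nat.card C.car = n + 1
    · simp only [dif_pos eB, dif_pos eC]
      by_cases hbij : Function.Bijective π
      · exact hk2 ⟨⟨B, eB⟩, F⟩ ⟨⟨C, eC⟩, minor π F⟩ π ⟨hbij, hπ, rfl⟩
      · have hns : ¬ Function.Surjective π := fun hs =>
          hbij ((Nat.bijective_iff_surjective_and_card π).2 ⟨hs, eB.trans eC.symm⟩)
        let S := C.sub _ hπ.range_closed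
        have cS : Nat.card S.car ≤ n := by
          by_contra hlt
          have h1 : Function.Bijective (fun s : S.car => s.1) :=
            (Nat.bijective_iff_injective_and_card _).2 ⟨Subtype.val_injective,
              le_antisymm (card_sub_le _ _ _) (by omega)⟩
          refine hns fun c => ?_
          obtain ⟨s, rfl⟩ := h1.2 c
          exact s.2
        have e1 := (hk1 ⟨⟨B, eB⟩, F⟩).1 S _ (corestrict_hom hπ) cS
        have e2 := (hk1 ⟨⟨C, eC⟩, minor π F⟩).2 S _ (minor (fun b => (⟨π b, b, rfl⟩ : S.car)) F)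
          (Alg.sub_hom _ _ _) cS rfl
        exact (congrArg Subtype.val e1).trans e2.symm
    · simp only [dif_pos eB, dif_neg eC]
      exact (hk1 ⟨⟨B, eB⟩, F⟩).1 C π hπ (by omega)
  · by_cases eC : Nat.card C.car = n + 1
    · simp only [dif_neg eB, dif_pos eC]
      exact ((hk1 ⟨⟨C, eC⟩, minor π F⟩).2 B π F hπ (by omega) rfl).symm
    · simp only [dif_neg eB, dif_neg eC]
      exact hn B C π hπ (by omega) (by omega) F

end Step

theorem nat_exists (hA : MS A) (hi : ∀ (I : Type) (F : PolT N I), ¬ ∀ t t', F.1 t = F.1 t')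
    (K : ℕ) (hii : ∀ (B : Alg A) (F : PolT N B.car), Nonempty B.car → Nat.card B.car ≤ K →
      ∃ b0 : B.car,
      ∀ γ : B.car → B.car, Function.Bijective γ → Alg.Hom B B γ → minor γ F = F → γ b0 = b0) :
    ∃ h, NatOn A N K h := by
  have hne : ∀ (B : Alg A) (_ : PolT N B.car), Nonempty B.car := by
    intro B F
    by_contra hc
    exact hi _ F fun t t' => congrArg _ (funext fun b => (hc ⟨b⟩).elim)
  have key : ∀ n, n ≤ K → ∃ h, NatOn A N n h := by
    intro n
    induction n with
    | zero =>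
      intro _
      refine ⟨fun B F => (hne B F).some, fun B C π _ hB _ F => ?_⟩
      have := hne B F
      have := Nat.card_pos (α := B.car)
      omega
    | succ n ih =>
      intro hn
      obtain ⟨h, hh⟩ := ih (by omega)
      exact nat_step hA hi (fun B F hB => hii B F (hne B F) (by omega)) hh
  exact key K le_rfl

end Pool.Agent.H434Z.PP
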