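import Pool.Agent.H434Z.ShadowDefs

set_option autoImplicit false

open Filter Topology
open scoped ENNReal

namespace Pool.Agent.H434Z.Shadow

variable {𝕜 : Type} [RCLike 𝕜] {Y : Type} [NormedAddCommGroup Y] [NormedSpace 𝕜 Y]

theorem isUnit_one_sub_of_specRad [CompleteSpace Y] (A : Y →L[𝕜] Y) (h : specRad A < 1) :
    IsUnit (1 - A) := by
  have h1 : spectralRadius 𝕜 A < 1 :=
    ((spectrum.spectralRadius_le_liminf_pow_nnnorm_pow_one_div 𝕜 A).trans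
      (liminf_le_limsup)).trans_lt h
  have h2 : (1 : 𝕜) ∉ spectrum 𝕜 A := by
    intro hm
    have h3 : ((‖(1 : 𝕜)‖₊ : NNReal) : ℝ≥0∞) ≤ spectralRadius 𝕜 A :=
      le_iSup₂ (f := fun (k : 𝕜) (_ : k ∈ spectrum 𝕜 A) => ((‖k‖₊ : NNReal) : ℝ≥0∞)) (1 : 𝕜) hm
    simp at h3
    exact absurd h1 (not_lt.2 h3)
  rw [spectrum.notMem_iff] at h2
  simpa using h2

/-- a generalized hyperbolic operator `T` has a bounded linear right inverse of `1 - T` -/
theorem GenHyperbolic.exists_rightInverse [CompleteSpace Y] {T : Y ≃L[𝕜] Y}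
    (h : GenHyperbolic T) : ∃ R : Y →L[𝕜] Y, ∀ y, R y - T (R y) = y := by
  obtain ⟨M, N, hMc, hNc, hc, ⟨hM, h1⟩, ⟨hN, h2⟩⟩ := h
  have := hMc.completeSpace_coe
  have := hNc.completeSpace_coe
  obtain ⟨A, hA⟩ := isUnit_one_sub_of_specRad _ h1
  obtain ⟨B, hB⟩ := isUnit_one_sub_of_specRad _ h2
  have ht := Submodule.IsCompl.isTopCompl_of_isClosed hc hMc hNc
  let PM := M.projectionOntoL N ht
  let PN := N.projectionOntoL M ht.symm
  have hP : ∀ y, (PM y : Y) + (PN y : Y) = y := fun y =>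
    Submodule.projection_add_projection_eq_self hc y
  have hA' : ∀ m : M, ((A⁻¹ : (M →L[𝕜] M)ˣ).1 m : Y) - T ((A⁻¹ : (M →L[𝕜] M)ˣ).1 m) = m := by
    intro m
    have h3 : (A.1 * (A⁻¹ : (M →L[𝕜] M)ˣ).1) m = m := by rw [Units.mul_inv]; rfl
    rw [hA] at h3
    have h4 := congrArg Subtype.val h3
    simpa using h4
  have hB' : ∀ m : N,
      ((B⁻¹ : (N →L[𝕜] N)ˣ).1 m : Y) - T.symm ((B⁻¹ : (N →L[𝕜] N)ˣ).1 m) = m := by
    intro m
    have h3 : (B.1 * (B⁻¹ : (N →L[𝕜] N)ˣ).1) m = m := by rw [Units.mul_inv]; rfl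
    rw [hB] at h3
    have h4 := congrArg Subtype.val h3
    simpa using h4
  refine ⟨M.subtypeL ∘L (A⁻¹ : (M →L[𝕜] M)ˣ).1 ∘L PM -
    (T.symm : Y →L[𝕜] Y) ∘L N.subtypeL ∘L (B⁻¹ : (N →L[𝕜] N)ˣ).1 ∘L PN, fun y => ?_⟩
  have h5 := hA' (PM y)
  have h6 := hB' (PN y)
  have h7 := hP y
  simp only [sub_apply, ContinuousLinearMap.comp_apply,
    Submodule.subtypeL_apply, ContinuousLinearEquiv.coe_coe, map_sub,
    ContinuousLinearEquiv.apply_symm_apply]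
  rw [← h7]
  conv_rhs => rw [← h5, ← h6]
  rw [h7]
  abel

/-- a (nonlinear) splitting into stable and unstable vectors gives shadowing -/
theorem shadowing_of_split [CompleteSpace Y] (T : Y ≃L[𝕜] Y) (C : ℝ) (hC : 0 < C)
    (h : ∀ z : Y, ∃ m n : Y, z = m + n ∧ (∀ j : ℕ, ‖T^[j] m‖ ≤ C * (1 / 2) ^ j * ‖z‖) ∧
      ∀ j : ℕ, ‖T.symm^[j] n‖ ≤ C * (1 / 2) ^ j * ‖z‖) : Shadowing T := by
  choose m n hmn hm hn using h
  refine ⟨4 * C, by positivity, fun z hz => ?_⟩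
  set D : ℝ := ⨆ k, ‖z k‖ with hD
  have hzD : ∀ k, ‖z k‖ ≤ D := fun k => le_ciSup hz k
  have hD0 : 0 ≤ D := (norm_nonneg _).trans (hzD 0)
  have hg : HasSum (fun j : ℕ => C * (1 / 2 : ℝ) ^ j * D) (C * 2 * D) :=
    (hasSum_geometric_two.mul_left C).mul_right D
  have b1 : ∀ (f : ℕ → ℤ) (j : ℕ), ‖T^[j] (m (z (f j)))‖ ≤ C * (1 / 2 : ℝ) ^ j * D := by
    intro f j
    refine (hm _ j).trans ?_
    gcongr
    exact hzD _
  have b2 : ∀ (f : ℕ → ℤ) (j : ℕ), ‖T.symm^[j] (n (z (f j)))‖ ≤ C * (1 / 2 : ℝ) ^ j * D := by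
    intro f j
    refine (hn _ j).trans ?_
    gcongr
    exact hzD _
  have b3 : ∀ (f : ℕ → ℤ) (j : ℕ), ‖T.symm^[j + 1] (n (z (f j)))‖ ≤ C * (1 / 2 : ℝ) ^ j * D := by
    intro f j
    refine (hn _ (j + 1)).trans ?_
    have : (1 / 2 : ℝ) ^ (j + 1) ≤ (1 / 2 : ℝ) ^ j :=
      pow_le_pow_of_le_one (by norm_num) (by norm_num) (by omega)
    gcongr
    exact hzD _
  have s1 : ∀ f : ℕ → ℤ, Summable fun j : ℕ => T^[j] (m (z (f j))) := fun f =>
    Summable.of_norm_bounded hg.summable (b1 f)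
  have s2 : ∀ f : ℕ → ℤ, Summable fun j : ℕ => T.symm^[j] (n (z (f j))) := fun f =>
    Summable.of_norm_bounded hg.summable (b2 f)
  have s3 : ∀ f : ℕ → ℤ, Summable fun j : ℕ => T.symm^[j + 1] (n (z (f j))) := fun f =>
    Summable.of_norm_bounded hg.summable (b3 f)
  let y : ℤ → Y := fun k =>
    ∑' j : ℕ, T^[j] (m (z (k - 1 - j))) - ∑' j : ℕ, T.symm^[j + 1] (n (z (k + j)))
  have hy : ∀ k, ‖y k‖ ≤ 4 * C * D := by
    intro k
    have e1 := tsum_of_norm_bounded hg (b1 fun j => k - 1 - j)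
    have e2 := tsum_of_norm_bounded hg (b3 fun j => k + j)
    refine (norm_sub_le _ _).trans ?_
    linarith
  refine ⟨y, ⟨4 * C * D, by rintro _ ⟨k, rfl⟩; exact hy k⟩, fun k => ?_, ciSup_le hy⟩
  have e1 : T (∑' j : ℕ, T^[j] (m (z (k - 1 - j)))) =
      ∑' j : ℕ, T^[j + 1] (m (z (k + 1 - 1 - ((j + 1 : ℕ) : ℤ)))) := by
    rw [T.map_tsum]
    refine tsum_congr fun j => ?_
    rw [Function.iterate_succ_apply']
    congr 4
    push_cast
    ring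
  have e2 : T (∑' j : ℕ, T.symm^[j + 1] (n (z (k + j)))) =
      ∑' j : ℕ, T.symm^[j] (n (z (k + j))) := by
    rw [T.map_tsum]
    refine tsum_congr fun j => ?_
    rw [Function.iterate_succ_apply', ContinuousLinearEquiv.apply_symm_apply]
  have e3 := (s1 fun j => k + 1 - 1 - j).tsum_eq_zero_add
  have e4 := (s2 fun j => k + j).tsum_eq_zero_add
  have e5 : ∑' j : ℕ, T.symm^[j + 1] (n (z (k + 1 + j))) =
      ∑' j : ℕ, T.symm^[j + 1] (n (z (k + ((j + 1 : ℕ) : ℤ)))) := by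
    refine tsum_congr fun j => ?_
    congr 3
    push_cast
    ring
  simp only [y, map_sub]
  rw [e1, e2, e3, e4, e5]
  simp only [Function.iterate_zero, id_eq, Nat.cast_zero, add_zero, sub_zero, add_sub_cancel_right]
  conv_rhs => rw [hmn (z k)]
  abel

end Pool.Agent.H434Z.Shadow
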