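import Mathlib

/-!
Shadowing and generalized hyperbolicity of invertible bounded linear operators.
-/

set_option autoImplicit false

open Filter
open scoped ENNReal

namespace Pool.Agent.H434Z.Shadow

/-- Bounded invertible linear operators on `Y` (with bounded inverse). -/
abbrev Aut (𝕜 : Type) [RCLike 𝕜] (Y : Type) [NormedAddCommGroup Y] [NormedSpace 𝕜 Y] : Type :=
  Y ≃L[𝕜] Y

/-- Bounded linear operators on `Y`. -/
abbrev Op (𝕜 : Type) [RCLike 𝕜] (Y : Type) [NormedAddCommGroup Y] [NormedSpace 𝕜 Y] : Type :=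
  Y →L[𝕜] Y

variable {𝕜 : Type} [RCLike 𝕜] {Y : Type} [NormedAddCommGroup Y] [NormedSpace 𝕜 Y]

/-- The value `T y` of an invertible operator `T` at `y`. -/
def act (T : Aut 𝕜 Y) (y : Y) : Y := T y

/-- The shadowing property of an invertible bounded operator `T` on `Y`: there is `K > 0` such
that for every bounded bilateral sequence `z` there is a bounded bilateral sequence `y` with
`y (n+1) - T (y n) = z n` for all `n` and `sup ‖y n‖ ≤ K * sup ‖z n‖`. -/
def Shadowing (T : Aut 𝕜 Y) : Prop :=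
  ∃ K : ℝ, 0 < K ∧ ∀ z : ℤ → Y, BddAbove (Set.range fun n => ‖z n‖) →
    ∃ y : ℤ → Y, BddAbove (Set.range fun n => ‖y n‖) ∧ (∀ n, y (n + 1) - T (y n) = z n) ∧
      ⨆ n, ‖y n‖ ≤ K * ⨆ n, ‖z n‖

/-- The spectral radius of a bounded operator `A` on a real or complex space, by the formula
`limsup ‖A ^ n‖ ^ (1 / n)`. -/
noncomputable def specRad (A : Op 𝕜 Y) : ℝ≥0∞ :=
  atTop.limsup fun n : ℕ => (‖A ^ n‖₊ : ℝ≥0∞) ^ (1 / n : ℝ)

/-- `A` maps the subspace `M` into itself and its restriction to `M` has spectral radius `< 1`. -/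
def Contracts (A : Op 𝕜 Y) (M : Submodule 𝕜 Y) : Prop :=
  ∃ h : ∀ x ∈ M, A x ∈ M, specRad (A.restrict h) < 1

/-- `T` is generalized hyperbolic: `Y = M ⊕ N` with closed subspaces `M`, `N`, `T M ⊆ M`,
`T⁻¹ N ⊆ N`, and the restrictions of `T` to `M` and of `T⁻¹` to `N` have spectral radius `< 1`. -/
def GenHyperbolic (T : Aut 𝕜 Y) : Prop :=
  ∃ M N : Submodule 𝕜 Y, IsClosed (M : Set Y) ∧ IsClosed (N : Set Y) ∧ IsCompl M N ∧
    Contracts T.toContinuousLinearMap M ∧ Contracts T.symm.toContinuousLinearMap N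

/-- The operator norm of an invertible operator. -/
noncomputable def opNorm (T : Aut 𝕜 Y) : ℝ := ‖T.toContinuousLinearMap‖

/-- The operators `S n` and their inverses are uniformly bounded. -/
def UnifBounded (S : ℤ → Aut 𝕜 Y) : Prop :=
  ∃ C : ℝ, ∀ n, opNorm (S n) ≤ C ∧ opNorm (S n).symm ≤ C

end Pool.Agent.H434Z.Shadow
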