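import Mathlib

/-!
A bounded surjection from a separable `ℓ¹` space onto `ℓ²` with no bounded linear right inverse.
-/

set_option autoImplicit false

open Filter Topology TopologicalSpace
open scoped ENNReal

namespace Pool.Agent.H434Z.Shadow

variable {𝕜 : Type} [RCLike 𝕜]

theorem separable_lp {I : Type} [Countable I] (p : ℝ≥0∞) [Fact (1 ≤ p)] (hp : p ≠ ⊤) :
    SeparableSpace (lp (fun _ : I => 𝕜) p) := by
  classical
  let s : Set (lp (fun _ : I => 𝕜) p) := Set.range fun i => lp.single p i (1 : 𝕜)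
  have h1 : IsSeparable s := (Set.countable_range _).isSeparable
  have h2 : IsSeparable (closure (Submodule.span 𝕜 s : Set (lp (fun _ : I => 𝕜) p))) :=
    (h1.span (R := 𝕜)).closure
  rw [← isSeparable_univ_iff]
  refine h2.mono fun f _ => ?_
  refine mem_closure_of_tendsto (lp.hasSum_single hp f) (Eventually.of_forall fun t => ?_)
  refine Submodule.sum_mem _ fun i _ => ?_
  have : lp.single p i (f i) = f i • lp.single (E := fun _ : I => 𝕜) p i (1 : 𝕜) := by
    rw [← lp.single_smul]; simp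
  rw [this]
  exact Submodule.smul_mem _ _ (Submodule.subset_span ⟨i, rfl⟩)

theorem hasSum_l1 {I : Type} (f : lp (fun _ : I => 𝕜) 1) : HasSum (fun i => ‖f i‖) ‖f‖ := by
  simpa using lp.hasSum_norm (p := 1) (by simp) f

/-- the synthesis map of a family of vectors of norm at most one -/
noncomputable def synth {I V : Type} [NormedAddCommGroup V] [NormedSpace 𝕜 V] [CompleteSpace V]
    (e : I → V) (he : ∀ i, ‖e i‖ ≤ 1) : lp (fun _ : I => 𝕜) 1 →L[𝕜] V :=
  have hb : ∀ (f : lp (fun _ : I => 𝕜) 1) (i : I), ‖f i • e i‖ ≤ ‖f i‖ := fun f i => by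
    rw [norm_smul]
    exact mul_le_of_le_one_right (norm_nonneg _) (he i)
  have hs : ∀ f : lp (fun _ : I => 𝕜) 1, Summable fun i => f i • e i := fun f =>
    Summable.of_norm_bounded (hasSum_l1 f).summable (hb f)
  LinearMap.mkContinuous
    { toFun := fun f => ∑' i, f i • e i
      map_add' := fun f g => by
        rw [← (hs f).tsum_add (hs g)]
        exact tsum_congr fun i => by simp [add_smul]
      map_smul' := fun c f => by
        rw [RingHom.id_apply, ← (hs f).tsum_const_smul c]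
        exact tsum_congr fun i => by simp [mul_smul] }
    1 (fun f => by
      rw [one_mul]
      exact tsum_of_norm_bounded (hasSum_l1 f) (hb f))

theorem synth_norm_le {I V : Type} [NormedAddCommGroup V] [NormedSpace 𝕜 V] [CompleteSpace V]
    (e : I → V) (he : ∀ i, ‖e i‖ ≤ 1) (f : lp (fun _ : I => 𝕜) 1) : ‖synth e he f‖ ≤ ‖f‖ := by
  change ‖∑' i, f i • e i‖ ≤ ‖f‖
  refine tsum_of_norm_bounded (hasSum_l1 f) fun i => ?_
  rw [norm_smul]
  exact mul_le_of_le_one_right (norm_nonneg _) (he i)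

theorem synth_single {I V : Type} [DecidableEq I] [NormedAddCommGroup V] [NormedSpace 𝕜 V]
    [CompleteSpace V] (e : I → V) (he : ∀ i, ‖e i‖ ≤ 1) (i : I) (c : 𝕜) :
    synth e he (lp.single 1 i c) = c • e i := by
  change ∑' j, (lp.single (E := fun _ : I => 𝕜) 1 i c) j • e j = c • e i
  rw [tsum_eq_single i]
  · simp
  · intro j hj
    rw [lp.single_apply_ne _ _ _ hj, zero_smul]

/-- every separable Banach space is a quotient of a separable `ℓ¹` space -/
theorem exists_quotient (V : Type) [NormedAddCommGroup V] [NormedSpace 𝕜 V] [CompleteSpace V]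
    [SeparableSpace V] : ∃ (I : Type) (_ : Countable I) (q : lp (fun _ : I => 𝕜) 1 →L[𝕜] V),
      (∀ f, ‖q f‖ ≤ ‖f‖) ∧ ∀ v, ∃ f, q f = v ∧ ‖f‖ ≤ 2 * ‖v‖ := by
  classical
  obtain ⟨s, hs, hd⟩ := exists_countable_dense V
  let K : AddSubgroup V := AddSubgroup.closure s
  have hK : Countable K := by
    have : Countable s := hs.to_subtype
    have h1 : K = (FreeAddGroup.lift (fun x : s => (x : V))).range := by
      rw [FreeAddGroup.range_lift_eq_closure]; simp [K]
    rw [h1]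
    exact (Set.countable_range _).to_subtype
  let e : K → V := fun k => ((‖(k : V)‖ : 𝕜))⁻¹ • (k : V)
  have he : ∀ k, ‖e k‖ ≤ 1 := fun k => by
    simp only [e, norm_smul, norm_inv, RCLike.norm_ofReal, abs_norm]
    exact inv_mul_le_one_of_le₀ le_rfl (norm_nonneg _)
  refine ⟨K, hK, synth e he, synth_norm_le e he, fun v => ?_⟩
  let q' : NormedAddGroupHom (lp (fun _ : K => 𝕜) 1) V :=
    ⟨synth e he, map_add _, 1, fun f => by simpa using synth_norm_le e he f⟩
  have h1 : q'.SurjectiveOnWith K 1 := by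
    intro k hk
    refine ⟨lp.single 1 ⟨k, hk⟩ (‖k‖ : 𝕜), ?_, by simp⟩
    change synth e he _ = k
    rw [synth_single]
    by_cases h0 : k = 0
    · simp [h0]
    · have : (‖k‖ : 𝕜) ≠ 0 := by simpa using h0
      simp [e, smul_smul, this]
  have h2 := controlled_closure_of_complete one_pos one_pos h1
  have h3 : v ∈ K.topologicalClosure := by
    change v ∈ closure (K : Set V)
    exact closure_mono AddSubgroup.subset_closure (hd v)
  obtain ⟨f, hf1, hf2⟩ := h2 v h3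
  exact ⟨f, hf1, by linarith⟩

/-- one step of the gliding hump argument -/
theorem hump_step {I : Type} (y : lp (fun _ : I => 𝕜) 1) (x : ℕ → lp (fun _ : I => 𝕜) 1)
    (hx : ∀ k, 1 ≤ ‖x k‖) (h0 : ∀ i, Tendsto (fun k => x k i) atTop (𝓝 0)) :
    ∀ᶠ k in atTop, ‖y‖ + 1 / 2 ≤ ‖y + x k‖ := by
  classical
  obtain ⟨J, hJ⟩ : ∃ J : Finset I, ‖y‖ - 1 / 8 < ∑ i ∈ J, ‖y i‖ :=
    ((hasSum_l1 y).eventually (lt_mem_nhds (by linarith))).exists
  have h1 : Tendsto (fun k => ∑ i ∈ J, ‖x k i‖) atTop (𝓝 0) := by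
    have := tendsto_finsetSum J fun i _ => (h0 i).norm
    simpa using this
  filter_upwards [h1.eventually (gt_mem_nhds (show (0 : ℝ) < 1 / 8 by norm_num))] with k hk
  have a1 : HasSum (fun i => if i ∈ J then 2 * ‖y i‖ - 2 * ‖x k i‖ else 0)
      (∑ i ∈ J, (2 * ‖y i‖ - 2 * ‖x k i‖)) := by
    have h2 : ∀ i ∉ J, (if i ∈ J then 2 * ‖y i‖ - 2 * ‖x k i‖ else 0) = 0 := fun i hi => if_neg hi
    have h3 := hasSum_sum_of_ne_finset_zero (L := SummationFilter.unconditional I) h2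
    rwa [Finset.sum_congr rfl fun i hi => if_pos hi] at h3
  have a2 := ((hasSum_l1 (x k)).sub (hasSum_l1 y)).add a1
  have a3 := hasSum_le (fun i => ?_) a2 (hasSum_l1 (y + x k))
  · rw [Finset.sum_sub_distrib, ← Finset.mul_sum, ← Finset.mul_sum] at a3
    have := hx k
    linarith
  · have e : (y + x k) i = y i + x k i := rfl
    rw [e]
    have t1 : ‖y i‖ ≤ ‖y i + x k i‖ + ‖x k i‖ := by
      simpa using norm_sub_le (y i + x k i) (x k i)
    have t2 : ‖x k i‖ ≤ ‖y i + x k i‖ + ‖y i‖ := by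
      simpa using norm_sub_le (y i + x k i) (y i)
    split_ifs <;> linarith

theorem hump {I : Type} (x : ℕ → lp (fun _ : I => 𝕜) 1)
    (hx : ∀ k, 1 ≤ ‖x k‖) (h0 : ∀ i, Tendsto (fun k => x k i) atTop (𝓝 0)) (M : ℕ) :
    ∃ F : Finset ℕ, F.card = M ∧ (M : ℝ) / 2 ≤ ‖∑ k ∈ F, x k‖ := by
  induction M with
  | zero => exact ⟨∅, rfl, by simp⟩
  | succ M ih =>
    obtain ⟨F, hF, hF2⟩ := ih
    obtain ⟨k, hk1, hk2⟩ :=
      ((hump_step (∑ k ∈ F, x k) x hx h0).and (F.eventually_cofinite_notMem.filter_mono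
        Nat.cofinite_eq_atTop.ge)).exists
    refine ⟨insert k F, by rw [Finset.card_insert_of_notMem hk2, hF], ?_⟩
    rw [Finset.sum_insert hk2, add_comm (x k)]
    push_cast
    linarith

/-- a contraction from `ℓ¹` to `ℓ²` has no bounded linear right inverse -/
theorem no_rightInverse {I : Type} (q : lp (fun _ : I => 𝕜) 1 →L[𝕜] lp (fun _ : ℕ => 𝕜) 2)
    (hq : ∀ f, ‖q f‖ ≤ ‖f‖) (j : lp (fun _ : ℕ => 𝕜) 2 →L[𝕜] lp (fun _ : I => 𝕜) 1)
    (hj : ∀ v, q (j v) = v) : False := by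
  let e : ℕ → lp (fun _ : ℕ => 𝕜) 2 := fun k => lp.single 2 k (1 : 𝕜)
  have hn : ∀ k, ‖e k‖ = 1 := fun k => by simp [e]
  have ho : Orthonormal 𝕜 e := by
    refine ⟨hn, fun k l hkl => ?_⟩
    simp only [e, lp.inner_single_left]
    rw [lp.single_apply_ne _ _ _ hkl, inner_zero_right]
  have hx : ∀ k, 1 ≤ ‖j (e k)‖ := fun k => by
    have := hq (j (e k))
    rwa [hj, hn] at this
  have h0 : ∀ i, Tendsto (fun k => j (e k) i) atTop (𝓝 0) := by
    intro i
    let φ : lp (fun _ : ℕ => 𝕜) 2 →L[𝕜] 𝕜 := lp.evalCLM 𝕜 (fun _ : I => 𝕜) 1 i ∘L j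
    let w := (InnerProductSpace.toDual 𝕜 _).symm φ
    have h1 := (ho.inner_products_summable w).tendsto_atTop_zero
    have h2 : ∀ k, ‖j (e k) i‖ = ‖inner 𝕜 (e k) w‖ := fun k => by
      rw [norm_inner_symm, InnerProductSpace.toDual_symm_apply]
      rfl
    rw [tendsto_zero_iff_norm_tendsto_zero]
    simp only [h2]
    have h3 := h1.sqrt
    simpa using h3
  obtain ⟨M, hM⟩ := exists_nat_gt (4 * ‖j‖ ^ 2)
  obtain ⟨F, hF, hF2⟩ := hump (fun k => j (e k)) hx h0 M
  have h4 : ‖∑ k ∈ F, e k‖ ^ 2 = M := by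
    have := lp.norm_sum_single (E := fun _ : ℕ => 𝕜) (p := 2) (by simp) (fun _ => (1 : 𝕜)) F
    simpa [hF] using this
  rw [← map_sum] at hF2
  have h5 := hF2.trans (j.le_opNorm _)
  have h6 : ((M : ℝ) / 2) ^ 2 ≤ (‖j‖ * ‖∑ k ∈ F, e k‖) ^ 2 := by gcongr
  rw [mul_pow, h4] at h6
  have h7 : (0 : ℝ) < M := lt_of_le_of_lt (by positivity) hM
  nlinarith

/-- the surjection without right inverse -/
theorem exists_bad_quotient : ∃ (U V : Type) (_ : NormedAddCommGroup U) (_ : NormedSpace 𝕜 U)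
    (_ : CompleteSpace U) (_ : SeparableSpace U) (_ : NormedAddCommGroup V) (_ : NormedSpace 𝕜 V)
    (_ : CompleteSpace V) (_ : SeparableSpace V) (q : U →L[𝕜] V),
      (∀ f, ‖q f‖ ≤ ‖f‖) ∧ (∀ v, ∃ f, q f = v ∧ ‖f‖ ≤ 2 * ‖v‖) ∧
      ∀ j : V →L[𝕜] U, ¬ ∀ v, q (j v) = v := by
  have h2 : SeparableSpace (lp (fun _ : ℕ => 𝕜) 2) := separable_lp 2 (by simp)
  obtain ⟨I, hI, q, hq1, hq2⟩ := exists_quotient (𝕜 := 𝕜) (lp (fun _ : ℕ => 𝕜) 2)
  have h1 : SeparableSpace (lp (fun _ : I => 𝕜) 1) := separable_lp 1 (by simp)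
  exact ⟨_, _, _, _, inferInstance, h1, _, _, inferInstance, h2, q, hq1, hq2,
    fun j hj => no_rightInverse q hq1 j hj⟩

end Pool.Agent.H434Z.Shadow
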