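import Pool.Agent.H434Z.ShadowAbs
import Pool.Agent.H434Z.ShadowQuot

set_option autoImplicit false

open Filter Topology TopologicalSpace
open scoped ENNReal

namespace Pool.Agent.H434Z.Shadow

variable {𝕜 : Type} [RCLike 𝕜]

section LpShift

variable {X : Type} [NormedAddCommGroup X] [NormedSpace 𝕜 X] {p : ℝ≥0∞} [Fact (1 ≤ p)]

omit [NormedSpace 𝕜 X] in
theorem dominated (f : lp (fun _ : ℤ => X) p) (d : ℤ) {C : ℝ} (hC : 0 ≤ C) (g : ℤ → X)
    (h : ∀ n, ‖g n‖ ≤ C * ‖f (n + d)‖) :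
    ∃ hg : Memℓp (E := fun _ : ℤ => X) g p, ‖(⟨g, hg⟩ : lp (fun _ : ℤ => X) p)‖ ≤ C * ‖f‖ := by
  have hp0 : p ≠ 0 := (zero_lt_one.trans_le (Fact.out : 1 ≤ p)).ne'
  rcases eq_or_ne p ⊤ with rfl | hp
  · have h1 : ∀ n, ‖g n‖ ≤ C * ‖f‖ := fun n =>
      (h n).trans (mul_le_mul_of_nonneg_left (lp.norm_apply_le_norm hp0 f _) hC)
    refine ⟨memℓp_infty ⟨C * ‖f‖, ?_⟩, lp.norm_le_of_forall_le (by positivity) h1⟩
    rintro _ ⟨n, rfl⟩
    exact h1 n
  · have hp1 : 0 < p.toReal := ENNReal.toReal_pos hp0 hp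
    have h1 : ∀ s : Finset ℤ, ∑ i ∈ s, ‖g i‖ ^ p.toReal ≤ (C * ‖f‖) ^ p.toReal := by
      intro s
      calc ∑ i ∈ s, ‖g i‖ ^ p.toReal ≤ ∑ i ∈ s, C ^ p.toReal * ‖f (i + d)‖ ^ p.toReal := by
            refine Finset.sum_le_sum fun i _ => ?_
            rw [← Real.mul_rpow hC (norm_nonneg _)]
            exact Real.rpow_le_rpow (norm_nonneg _) (h i) hp1.le
        _ = C ^ p.toReal * ∑ i ∈ s.map (Equiv.addRight d).toEmbedding, ‖f i‖ ^ p.toReal := by
            rw [Finset.sum_map, Finset.mul_sum]; rfl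
        _ ≤ C ^ p.toReal * ‖f‖ ^ p.toReal :=
            mul_le_mul_of_nonneg_left (lp.sum_rpow_le_norm_rpow hp1 f _) (by positivity)
        _ = (C * ‖f‖) ^ p.toReal := (Real.mul_rpow hC (norm_nonneg _)).symm
    exact ⟨memℓp_gen' h1, lp.norm_le_of_forall_sum_le hp1 (by positivity) h1⟩

omit [NormedSpace 𝕜 X] in
theorem dominated' (f g : lp (fun _ : ℤ => X) p) (d : ℤ) {C : ℝ} (hC : 0 ≤ C)
    (h : ∀ n, ‖g n‖ ≤ C * ‖f (n + d)‖) : ‖g‖ ≤ C * ‖f‖ := by
  obtain ⟨_, h2⟩ := dominated f d hC g h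
  exact h2

/-- the operator `x ↦ (A n (x (n + d)))` -/
noncomputable def shiftOp (p : ℝ≥0∞) [Fact (1 ≤ p)] (A : ℤ → X →L[𝕜] X) (d : ℤ) {C : ℝ}
    (hC : 0 ≤ C) (hA : ∀ n x, ‖A n x‖ ≤ C * ‖x‖) :
    lp (fun _ : ℤ => X) p →L[𝕜] lp (fun _ : ℤ => X) p :=
  LinearMap.mkContinuous
    { toFun := fun f => ⟨fun n => A n (f (n + d)),
        (dominated f d hC (fun n => A n (f (n + d))) fun n => hA n _).1⟩
      map_add' := fun f g => by
        ext n
        change A n (f (n + d) + g (n + d)) = A n (f (n + d)) + A n (g (n + d))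
        exact map_add _ _ _
      map_smul' := fun c f => by
        ext n
        change A n (c • f (n + d)) = c • A n (f (n + d))
        exact map_smul _ _ _ }
    C (fun f => (dominated f d hC (fun n => A n (f (n + d))) fun n => hA n _).2)

theorem shiftOp_apply (A : ℤ → X →L[𝕜] X) (d : ℤ) {C : ℝ}
    (hC : 0 ≤ C) (hA : ∀ n x, ‖A n x‖ ≤ C * ‖x‖) (f : lp (fun _ : ℤ => X) p) (n : ℤ) :
    shiftOp p A d hC hA f n = A n (f (n + d)) := rfl

end LpShift

/-! ### the weights -/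

noncomputable def wa (n : ℤ) : ℝ := (1 / 2) ^ n.natAbs
noncomputable def wb (n : ℤ) : ℝ := 2 ^ n.natAbs
noncomputable def wc (n : ℤ) : ℝ := if 0 < n then 1 else 0

theorem wa_pos (n : ℤ) : 0 < wa n := by unfold wa; positivity
theorem wb_pos (n : ℤ) : 0 < wb n := by unfold wb; positivity
theorem wa_le_one (n : ℤ) : wa n ≤ 1 := pow_le_one₀ (by norm_num) (by norm_num)

theorem wa_wb (n : ℤ) : wa n * wb n = 1 := by
  unfold wa wb; rw [← mul_pow]; norm_num

theorem wb_wa_of {k l : ℤ} {j : ℕ} (h : l.natAbs = k.natAbs + j) : wb k * wa l = (1 / 2) ^ j := by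
  unfold wa wb
  rw [h, pow_add, ← mul_assoc, ← mul_pow]; norm_num

theorem wa_wa_le {k l : ℤ} {j : ℕ} (h : j ≤ k.natAbs + l.natAbs) : wa k * wa l ≤ (1 / 2) ^ j := by
  unfold wa
  rw [← pow_add]
  exact pow_le_pow_of_le_one (by norm_num) (by norm_num) h

theorem wb_wa_le_two {k l : ℤ} (h : k.natAbs ≤ l.natAbs + 1) : wb k * wa l ≤ 2 := by
  have h1 : wb k ≤ 2 * wb l := by
    unfold wb
    rw [← pow_succ']
    exact pow_le_pow_right₀ (by norm_num) h
  have h2 := wa_wb l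
  have h3 := wa_pos l
  nlinarith

section Cocycle

variable {U V : Type} [NormedAddCommGroup U] [NormedSpace 𝕜 U] [NormedAddCommGroup V]
  [NormedSpace 𝕜 V] (q : U →L[𝕜] V)

/-- the transition operator from position `l` to position `k` -/
noncomputable def Psi (k l : ℤ) : U × V →L[𝕜] U × V :=
  (((wa k * wb l : ℝ) : 𝕜) • ContinuousLinearMap.fst 𝕜 U V).prod
    (((wb k * wa l : ℝ) : 𝕜) • ContinuousLinearMap.snd 𝕜 U V +
      (((wc k - wc l) * wb k * wb l : ℝ) : 𝕜) • (q ∘L ContinuousLinearMap.fst 𝕜 U V))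

theorem Psi_fst (k l : ℤ) (x : U × V) : (Psi q k l x).1 = ((wa k * wb l : ℝ) : 𝕜) • x.1 := rfl

theorem Psi_snd (k l : ℤ) (x : U × V) : (Psi q k l x).2 = ((wb k * wa l : ℝ) : 𝕜) • x.2 +
    (((wc k - wc l) * wb k * wb l : ℝ) : 𝕜) • q x.1 := rfl

theorem Psi_comp (k l m : ℤ) (x : U × V) : Psi q k l (Psi q l m x) = Psi q k m x := by
  have h : ((wa l : ℝ) : 𝕜) * (wb l : ℝ) = 1 := by rw [← RCLike.ofReal_mul, wa_wb]; simp
  refine Prod.ext ?_ ?_
  · simp only [Psi_fst, smul_smul]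
    congr 1
    push_cast
    linear_combination ((wa k : ℝ) : 𝕜) * (wb m : ℝ) * h
  · simp only [Psi_fst, Psi_snd, map_smul]
    push_cast
    match_scalars
    · linear_combination ((wb k : ℝ) : 𝕜) * (wa m : ℝ) * h
    · linear_combination ((wb k : ℝ) : 𝕜) * (wb m : ℝ) * ((wc k : ℝ) - (wc m : ℝ)) * h

theorem Psi_self (k : ℤ) (x : U × V) : Psi q k k x = x := by
  refine Prod.ext ?_ ?_
  · rw [Psi_fst, wa_wb]; simp
  · rw [Psi_snd, mul_comm (wb k), wa_wb]; simp

theorem norm_ofReal_smul {W : Type} [NormedAddCommGroup W] [NormedSpace 𝕜 W] (c : ℝ) (w : W) :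
    ‖(c : 𝕜) • w‖ = |c| * ‖w‖ := by
  rw [norm_smul, RCLike.norm_ofReal]

theorem Psi_bound (hq : ∀ f, ‖q f‖ ≤ ‖f‖) {k l : ℤ} (h : k = l + 1 ∨ l = k + 1) (x : U × V) :
    ‖Psi q k l x‖ ≤ 4 * ‖x‖ := by
  have h1 : wa k * wb l ≤ 2 := by rw [mul_comm]; exact wb_wa_le_two (by omega)
  have h2 : wb k * wa l ≤ 2 := wb_wa_le_two (by omega)
  have h3 : |(wc k - wc l) * wb k * wb l| ≤ 2 := by
    by_cases hk : 0 < k <;> by_cases hl : 0 < l
    · simp [wc, hk, hl]
    · obtain rfl : l = 0 := by omega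
      obtain rfl : k = 1 := by omega
      simp [wc, wb]
    · obtain rfl : k = 0 := by omega
      obtain rfl : l = 1 := by omega
      simp [wc, wb]
    · simp [wc, hk, hl]
  have n1 := norm_fst_le x
  have n2 := norm_snd_le x
  have n3 := hq x.1
  have p1 := mul_pos (wa_pos k) (wb_pos l)
  have p2 := mul_pos (wb_pos k) (wa_pos l)
  have n0 := norm_nonneg x
  rw [Prod.norm_def, max_le_iff, Psi_fst, Psi_snd]
  constructor
  · rw [norm_ofReal_smul, abs_of_pos p1]
    calc _ ≤ 2 * ‖x‖ := by gcongr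
      _ ≤ 4 * ‖x‖ := by linarith
  · refine (norm_add_le _ _).trans ?_
    rw [norm_ofReal_smul, norm_ofReal_smul, abs_of_pos p2]
    have a1 : wb k * wa l * ‖x.2‖ ≤ 2 * ‖x‖ := by gcongr
    have a2 : |(wc k - wc l) * wb k * wb l| * ‖q x.1‖ ≤ 2 * ‖x‖ := by
      gcongr
      exact n3.trans n1
    linarith

theorem norm_pair_le {u : U} {v : V} {c d t : ℝ} (hc : |c| * ‖u‖ ≤ t) (hd : |d| * ‖v‖ ≤ t) :
    ‖((((c : 𝕜) • u, (d : 𝕜) • v)) : U × V)‖ ≤ t := by
  rw [Prod.norm_def, max_le_iff, norm_ofReal_smul, norm_ofReal_smul]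
  exact ⟨hc, hd⟩

theorem Psi_split (hq : ∀ v, ∃ f, q f = v ∧ ‖f‖ ≤ 2 * ‖v‖) (l : ℤ) (x : U × V) :
    ∃ m n : U × V, x = m + n ∧
      (∀ j : ℕ, ‖Psi q (l - j) l m‖ ≤ 4 * (1 / 2) ^ j * ‖x‖) ∧
      ∀ j : ℕ, ‖Psi q (l + j) l n‖ ≤ 4 * (1 / 2) ^ j * ‖x‖ := by
  obtain ⟨w, hw, hw2⟩ := hq x.2
  have h : ((wa l : ℝ) : 𝕜) * (wb l : ℝ) = 1 := by rw [← RCLike.ofReal_mul, wa_wb]; simp
  have n1 := norm_fst_le x
  have n2 := norm_snd_le x
  have n0 := norm_nonneg x
  have hw3 : ‖w‖ ≤ 2 * ‖x‖ := by linarith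
  have haa : |wa l * wa l| ≤ 1 := by
    rw [abs_of_pos (mul_pos (wa_pos l) (wa_pos l))]
    exact mul_le_one₀ (wa_le_one l) (wa_pos l).le (wa_le_one l)
  have hs : ‖((wa l * wa l : ℝ) : 𝕜) • w‖ ≤ 2 * ‖x‖ := by
    rw [norm_ofReal_smul]
    calc _ ≤ 1 * (2 * ‖x‖) := by gcongr
      _ = _ := one_mul _
  have key : ∀ (j : ℕ) (c : ℝ) (r s : ℝ), 0 ≤ c → c ≤ (1 / 2) ^ j → 0 ≤ r → r ≤ s * ‖x‖ → s ≤ 4 →
      |c| * r ≤ 4 * (1 / 2) ^ j * ‖x‖ := by
    intro j c r s hc hc2 hr hr2 hs4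
    rw [abs_of_nonneg hc]
    have : r ≤ 4 * ‖x‖ := hr2.trans (by gcongr)
    calc c * r ≤ (1 / 2) ^ j * (4 * ‖x‖) := by gcongr
      _ = _ := by ring
  by_cases hl : 0 < l
  · have hcl : wc l = 1 := if_pos hl
    refine ⟨(((wa l * wa l : ℝ) : 𝕜) • w, x.2), (x.1 - ((wa l * wa l : ℝ) : 𝕜) • w, 0),
      by ext <;> simp, fun j => ?_, fun j => ?_⟩
    · have e : Psi q (l - j) l (((wa l * wa l : ℝ) : 𝕜) • w, x.2) =
          (((wa (l - j) * wa l : ℝ) : 𝕜) • w, ((wc (l - j) * (wb (l - j) * wa l) : ℝ) : 𝕜) • x.2) := by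
        refine Prod.ext ?_ ?_
        · simp only [Psi_fst, smul_smul]
          congr 1
          push_cast
          linear_combination ((wa (l - j) : ℝ) : 𝕜) * (wa l : ℝ) * h
        · simp only [Psi_snd, map_smul, hw, hcl]
          push_cast
          match_scalars
          linear_combination ((wb (l - j) : ℝ) : 𝕜) * (wa l : ℝ) * ((wc (l - j) : ℝ) - 1) * h
      rw [e]
      refine norm_pair_le (key j _ _ 2 (mul_pos (wa_pos _) (wa_pos _)).le (wa_wa_le (by omega))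
        (norm_nonneg _) hw3 (by norm_num)) (key j _ _ 1 ?_ ?_ (norm_nonneg _) (by linarith)
        (by norm_num))
      · unfold wc
        split_ifs
        · rw [one_mul]; exact (mul_pos (wb_pos _) (wa_pos _)).le
        · simp
      · unfold wc
        split_ifs with hk
        · rw [one_mul, wb_wa_of (j := j) (by omega)]
        · simp
    · have hck : wc (l + j) = 1 := if_pos (by omega)
      have e : Psi q (l + j) l (x.1 - ((wa l * wa l : ℝ) : 𝕜) • w, 0) =
          (((wb l * wa (l + j) : ℝ) : 𝕜) • (x.1 - ((wa l * wa l : ℝ) : 𝕜) • w),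
            ((0 : ℝ) : 𝕜) • (0 : V)) := by
        refine Prod.ext ?_ ?_
        · simp only [Psi_fst, mul_comm]
        · simp [Psi_snd, hck, hcl]
      rw [e]
      refine norm_pair_le (key j _ _ 3 (mul_pos (wb_pos _) (wa_pos _)).le
        (wb_wa_of (j := j) (by omega)).le (norm_nonneg _) ?_ (by norm_num)) (by simp)
      exact (norm_sub_le _ _).trans (by linarith)
  · have hcl : wc l = 0 := if_neg hl
    refine ⟨(x.1 + ((wa l * wa l : ℝ) : 𝕜) • w, 0), (-(((wa l * wa l : ℝ) : 𝕜) • w), x.2),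
      by ext <;> simp, fun j => ?_, fun j => ?_⟩
    · have hck : wc (l - j) = 0 := if_neg (by omega)
      have e : Psi q (l - j) l (x.1 + ((wa l * wa l : ℝ) : 𝕜) • w, 0) =
          (((wb l * wa (l - j) : ℝ) : 𝕜) • (x.1 + ((wa l * wa l : ℝ) : 𝕜) • w),
            ((0 : ℝ) : 𝕜) • (0 : V)) := by
        refine Prod.ext ?_ ?_
        · simp only [Psi_fst, mul_comm]
        · simp [Psi_snd, hck, hcl]
      rw [e]
      refine norm_pair_le (key j _ _ 3 (mul_pos (wb_pos _) (wa_pos _)).le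
        (wb_wa_of (j := j) (by omega)).le (norm_nonneg _) ?_ (by norm_num)) (by simp)
      exact (norm_add_le _ _).trans (by linarith)
    · have e : Psi q (l + j) l (-(((wa l * wa l : ℝ) : 𝕜) • w), x.2) =
          (((wa (l + j) * wa l : ℝ) : 𝕜) • (-w),
            (((1 - wc (l + j)) * (wb (l + j) * wa l) : ℝ) : 𝕜) • x.2) := by
        refine Prod.ext ?_ ?_
        · simp only [Psi_fst]
          push_cast
          match_scalars
          linear_combination (-((wa (l + j) : ℝ) : 𝕜)) * (wa l : ℝ) * h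
        · simp only [Psi_snd, map_neg, map_smul, hw, hcl]
          push_cast
          match_scalars
          linear_combination (-((wb (l + j) : ℝ) : 𝕜)) * (wa l : ℝ) * (wc (l + j) : ℝ) * h
      rw [e]
      refine norm_pair_le (key j _ _ 2 (mul_pos (wa_pos _) (wa_pos _)).le (wa_wa_le (by omega))
        (norm_nonneg _) (by rwa [norm_neg]) (by norm_num))
        (key j _ _ 1 ?_ ?_ (norm_nonneg _) (by linarith) (by norm_num))
      · unfold wc
        split_ifs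
        · simp
        · rw [sub_zero, one_mul]; exact (mul_pos (wb_pos _) (wa_pos _)).le
      · unfold wc
        split_ifs with hk
        · simp
        · rw [sub_zero, one_mul, wb_wa_of (j := j) (by omega)]

/-- the generating sequence -/
noncomputable def gen (n : ℤ) : (U × V) ≃L[𝕜] (U × V) :=
  ContinuousLinearEquiv.equivOfInverse (Psi q (n - 1) n) (Psi q n (n - 1))
    (fun x => by rw [Psi_comp, Psi_self]) (fun x => by rw [Psi_comp, Psi_self])

/-- the shift operator -/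
noncomputable def sigma (hq : ∀ f, ‖q f‖ ≤ ‖f‖) (p : ℝ≥0∞) [Fact (1 ≤ p)] :
    lp (fun _ : ℤ => U × V) p ≃L[𝕜] lp (fun _ : ℤ => U × V) p :=
  ContinuousLinearEquiv.equivOfInverse
    (shiftOp p (fun n => Psi q n (n + 1)) 1 (C := 4) (by norm_num)
      fun n x => Psi_bound q hq (Or.inr rfl) x)
    (shiftOp p (fun n => Psi q n (n + -1)) (-1) (C := 4) (by norm_num)
      fun n x => Psi_bound q hq (Or.inl (by ring)) x)
    (fun x => by
      refine lp.ext (funext fun n => ?_)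
      rw [shiftOp_apply, shiftOp_apply, Psi_comp]
      have : n + -1 + 1 = n := by ring
      rw [this, Psi_self])
    (fun x => by
      refine lp.ext (funext fun n => ?_)
      rw [shiftOp_apply, shiftOp_apply, Psi_comp]
      have : n + 1 + -1 = n := by ring
      rw [this, Psi_self])

variable (hq : ∀ f, ‖q f‖ ≤ ‖f‖) (p : ℝ≥0∞) [Fact (1 ≤ p)]

theorem sigma_apply (x : lp (fun _ : ℤ => U × V) p) (n : ℤ) :
    sigma q hq p x n = Psi q n (n + 1) (x (n + 1)) := rfl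

theorem sigma_symm_apply (x : lp (fun _ : ℤ => U × V) p) (n : ℤ) :
    (sigma q hq p).symm x n = Psi q n (n + -1) (x (n + -1)) := rfl

theorem sigma_iter (j : ℕ) (x : lp (fun _ : ℤ => U × V) p) (n : ℤ) :
    (sigma q hq p)^[j] x n = Psi q n (n + j) (x (n + j)) := by
  induction j generalizing n with
  | zero => simp [Psi_self]
  | succ j ih =>
    rw [Function.iterate_succ_apply', sigma_apply, ih, Psi_comp]
    have : n + 1 + (j : ℤ) = n + ((j + 1 : ℕ) : ℤ) := by push_cast; ring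
    rw [this]

theorem sigma_symm_iter (j : ℕ) (x : lp (fun _ : ℤ => U × V) p) (n : ℤ) :
    (sigma q hq p).symm^[j] x n = Psi q n (n + -j) (x (n + -j)) := by
  induction j generalizing n with
  | zero => simp [Psi_self]
  | succ j ih =>
    rw [Function.iterate_succ_apply', sigma_symm_apply, ih, Psi_comp]
    have : n + -1 + -(j : ℤ) = n + -((j + 1 : ℕ) : ℤ) := by push_cast; ring
    rw [this]

theorem sigma_shadowing [CompleteSpace U] [CompleteSpace V]
    (hq2 : ∀ v, ∃ f, q f = v ∧ ‖f‖ ≤ 2 * ‖v‖) : Shadowing (sigma q hq p) := by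
  choose m n hmn hm hn using Psi_split q hq2
  refine shadowing_of_split _ 4 (by norm_num) fun z => ?_
  obtain ⟨h1, -⟩ := dominated z 0 (C := 4) (by norm_num) (fun l => m l (z l)) fun l => by
    simpa [Psi_self] using hm l (z l) 0
  obtain ⟨h2, -⟩ := dominated z 0 (C := 4) (by norm_num) (fun l => n l (z l)) fun l => by
    simpa [Psi_self] using hn l (z l) 0
  refine ⟨⟨_, h1⟩, ⟨_, h2⟩, lp.ext (funext fun l => hmn l (z l)), fun j => ?_, fun j => ?_⟩
  · refine dominated' z _ j (by positivity) fun k => ?_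
    rw [sigma_iter]
    have := hm (k + j) (z (k + j)) j
    rwa [add_sub_cancel_right] at this
  · refine dominated' z _ (-j) (by positivity) fun k => ?_
    rw [sigma_symm_iter]
    have := hn (k + -j) (z (k + -j)) j
    rwa [neg_add_cancel_right] at this

theorem eq_zero_of_pow_bounded {W : Type} [NormedAddCommGroup W] (w : W) (B : ℝ)
    (h : ∀ j : ℕ, 2 ^ j * ‖w‖ ≤ B) : w = 0 := by
  by_contra h0
  have h1 : 0 < ‖w‖ := norm_pos_iff.2 h0
  obtain ⟨j, hj⟩ := pow_unbounded_of_one_lt (B / ‖w‖) (one_lt_two (α := ℝ))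
  rw [div_lt_iff₀ h1] at hj
  exact absurd (h j) (not_le.2 hj)

theorem sigma_not_genHyperbolic [CompleteSpace U] [CompleteSpace V]
    (hq3 : ∀ j : V →L[𝕜] U, ¬ ∀ v, q (j v) = v) : ¬ GenHyperbolic (sigma q hq p) := by
  intro h
  obtain ⟨R, hR⟩ := h.exists_rightInverse
  have hp0 : p ≠ 0 := (zero_lt_one.trans_le (Fact.out : 1 ≤ p)).ne'
  refine hq3 (ContinuousLinearMap.fst 𝕜 U V ∘L lp.evalCLM 𝕜 (fun _ : ℤ => U × V) p 0 ∘L R ∘L
    lp.singleContinuousLinearMap 𝕜 (fun _ : ℤ => U × V) p 0 ∘L ContinuousLinearMap.inr 𝕜 U V)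
    fun v => ?_
  set z : lp (fun _ : ℤ => U × V) p := lp.single p 0 ((0 : U), v) with hz
  set x := R z with hx
  change q (x 0).1 = v
  have e : ∀ k, x k - Psi q k (k + 1) (x (k + 1)) = z k := fun k =>
    congrFun (congrArg Subtype.val (hR z)) k
  have e' : ∀ k, k ≠ 0 → x k = Psi q k (k + 1) (x (k + 1)) := fun k hk => by
    have := e k
    rw [hz, lp.single_apply_ne _ _ _ hk] at this
    exact sub_eq_zero.1 this
  have bd : ∀ k, ‖(x k).2‖ ≤ ‖x‖ := fun k =>
    (norm_snd_le _).trans (lp.norm_apply_le_norm hp0 x k)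
  have f1 : ∀ j : ℕ, x (1 + j) = Psi q (1 + j) 1 (x 1) := by
    intro j
    induction j with
    | zero => simp [Psi_self]
    | succ j ih =>
      have h1 := e' (1 + j) (by omega)
      have h2 : (1 : ℤ) + ((j + 1 : ℕ) : ℤ) = 1 + j + 1 := by push_cast; ring
      rw [h2, ← Psi_comp q _ (1 + j), ← ih, h1, Psi_comp, Psi_self]
  have f2 : ∀ j : ℕ, x (-j) = Psi q (-j) 0 (x 0) := by
    intro j
    induction j with
    | zero => simp [Psi_self]
    | succ j ih =>
      have h1 := e' (-((j + 1 : ℕ) : ℤ)) (by omega)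
      have h2 : -((j + 1 : ℕ) : ℤ) + 1 = -j := by push_cast; ring
      rw [h1, h2, ih, Psi_comp]
  have g1 : (x 1).2 = 0 := by
    refine eq_zero_of_pow_bounded _ ‖x‖ fun j => ?_
    have h1 := bd (1 + j)
    have h2 : wc (1 + j) = 1 := if_pos (by omega)
    have h3 : wc 1 = 1 := if_pos (by omega)
    have h4 : wb (1 + j) * wa 1 = 2 ^ j := by
      have : (1 + (j : ℤ)).natAbs = j + 1 := by omega
      unfold wa wb
      rw [this, pow_succ]; simp
    rw [f1, Psi_snd, h2, h3, h4] at h1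
    simpa [norm_smul] using h1
  have g2 : (x 0).2 = 0 := by
    refine eq_zero_of_pow_bounded _ ‖x‖ fun j => ?_
    have h1 := bd (-j)
    have h2 : wc (-j) = 0 := if_neg (by omega)
    have h3 : wc 0 = 0 := if_neg (by omega)
    have h4 : wb (-j) * wa 0 = 2 ^ j := by
      unfold wa wb
      simp
    rw [f2, Psi_snd, h2, h3, h4] at h1
    simpa [norm_smul] using h1
  have e0 := e 0
  rw [hz, lp.single_apply_self, zero_add] at e0
  have a1 := congrArg Prod.fst e0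
  have a2 := congrArg Prod.snd e0
  rw [Prod.fst_sub, Psi_fst] at a1
  rw [Prod.snd_sub, Psi_snd, g1, g2] at a2
  have c1 : wa 0 * wb 1 = 2 := by simp [wa, wb]
  have c2 : (wc 0 - wc 1) * wb 0 * wb 1 = -2 := by simp [wc, wb]
  rw [c1] at a1
  rw [c2] at a2
  rw [sub_eq_zero.1 a1, map_smul]
  simpa using a2

end Cocycle

theorem main (𝕜 : Type) [RCLike 𝕜] (p : ℝ≥0∞) [Fact (1 ≤ p)] :
    ∃ (X : Type) (_ : NormedAddCommGroup X) (_ : NormedSpace 𝕜 X) (_ : CompleteSpace X)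
      (_ : SeparableSpace X) (S : ℤ → Aut 𝕜 X), UnifBounded S ∧
      ∃ σ : Aut 𝕜 (lp (fun _ : ℤ => X) p),
        (∀ (x : lp (fun _ : ℤ => X) p) (n : ℤ), act σ x n = act (S (n + 1)) (x (n + 1))) ∧
        Shadowing σ ∧ ¬ GenHyperbolic σ := by
  obtain ⟨U, V, _, _, _, _, _, _, _, _, q, hq1, hq2, hq3⟩ := exists_bad_quotient (𝕜 := 𝕜)
  refine ⟨U × V, inferInstance, inferInstance, inferInstance, inferInstance, gen q,
    ⟨4, fun n => ⟨?_, ?_⟩⟩, sigma q hq1 p, fun x n => ?_, sigma_shadowing q hq1 p hq2,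
    sigma_not_genHyperbolic q hq1 p hq3⟩
  · exact ContinuousLinearMap.opNorm_le_bound _ (by norm_num)
      fun x => Psi_bound q hq1 (k := n - 1) (l := n) (Or.inr (by ring)) x
  · exact ContinuousLinearMap.opNorm_le_bound _ (by norm_num)
      fun x => Psi_bound q hq1 (k := n) (l := n - 1) (Or.inl (by ring)) x
  · change Psi q n (n + 1) (x (n + 1)) = Psi q (n + 1 - 1) (n + 1) (x (n + 1))
    rw [add_sub_cancel_right]

end Pool.Agent.H434Z.Shadow
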